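import Pool.Agent.Lib.MP_952639_co.Defs

/-!
# The blow-up inequality and complete `r`-partite blocks
-/

namespace Pool.Agent.Lib.MP_952639_co

open Finset

lemma jensen {α : Type*} [Fintype α] [Nonempty α] (a : α → ℝ) (ha : ∀ x, 0 ≤ a x) (p : ℕ) :
    ((∑ x, a x) / (Fintype.card α : ℝ)) ^ p * (Fintype.card α : ℝ) ≤ ∑ x, a x ^ p := by
  have hc : (0 : ℝ) < Fintype.card α := by exact_mod_cast Fintype.card_pos
  have h := Real.pow_arith_mean_le_arith_mean_pow univ (fun _ : α => 1 / (Fintype.card α : ℝ)) a
    (fun _ _ => by positivity) (by simp [hc.ne']) (fun x _ => ha x) p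
  rw [← mul_sum, ← mul_sum] at h
  have h2 : (∑ x, a x) / (Fintype.card α : ℝ) = 1 / (Fintype.card α : ℝ) * ∑ x, a x := by ring
  rw [h2]
  calc (1 / (Fintype.card α : ℝ) * ∑ x, a x) ^ p * (Fintype.card α : ℝ)
      ≤ (1 / (Fintype.card α : ℝ) * ∑ x, a x ^ p) * (Fintype.card α : ℝ) :=
        mul_le_mul_of_nonneg_right h hc.le
    _ = ∑ x, a x ^ p := by field_simp

lemma sum_cons {X β : Type*} [Fintype X] [AddCommMonoid β] {r : ℕ}
    (g : (Fin (r + 1) → X) → β) : ∑ x, g x = ∑ a : X, ∑ w : Fin r → X, g (Fin.cons a w) := by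
  rw [← Fintype.sum_prod_type' (f := fun (a : X) (w : Fin r → X) => g (Fin.cons a w))]
  exact ((Fin.consEquiv (fun _ => X)).sum_comp g).symm

lemma prod_cons {X β : Type*} [Fintype X] [CommMonoid β] {r : ℕ}
    (g : (Fin (r + 1) → X) → β) : ∏ x, g x = ∏ a : X, ∏ w : Fin r → X, g (Fin.cons a w) := by
  rw [← Fintype.prod_prod_type' (f := fun (a : X) (w : Fin r → X) => g (Fin.cons a w))]
  exact ((Fin.consEquiv (fun _ => X)).prod_comp g).symm

/-- The blow-up inequality. -/
theorem blow {V : Type*} [Fintype V] [Nonempty V] (M : ℕ) (r : ℕ) :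
    ∀ f : (Fin r → V) → ℝ, (∀ x, 0 ≤ f x) →
    ((∑ x, f x) / (Fintype.card V : ℝ) ^ r) ^ (M ^ r) * (Fintype.card V : ℝ) ^ (r * M) ≤
      ∑ U : Fin r → Fin M → V, ∏ j : Fin r → Fin M, f (fun i => U i (j i)) := by
  have hc : (0 : ℝ) < Fintype.card V := by exact_mod_cast Fintype.card_pos
  induction r with
  | zero =>
    intro f hf
    simp only [pow_zero, zero_mul, mul_one, div_one, pow_one, Finset.univ_unique, sum_singleton,
      prod_singleton]
    apply le_of_eq
    congr 1
    exact Subsingleton.elim _ _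
  | succ r ih =>
    intro f hf
    set n : ℝ := (Fintype.card V : ℝ) with hn
    -- the slices
    let g : (Fin M → V) → (Fin r → V) → ℝ := fun u w => ∏ k : Fin M, f (Fin.cons (u k) w)
    have hg : ∀ u w, 0 ≤ g u w := fun u w => prod_nonneg fun k _ => hf _
    have h1 : ∑ U : Fin (r + 1) → Fin M → V, ∏ j : Fin (r + 1) → Fin M, f (fun i => U i (j i)) =
        ∑ u : Fin M → V, ∑ U : Fin r → Fin M → V,
          ∏ j : Fin r → Fin M, g u (fun i => U i (j i)) := by
      rw [sum_cons]
      refine sum_congr rfl fun u _ => sum_congr rfl fun U _ => ?_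
      rw [prod_cons, prod_comm]
      refine prod_congr rfl fun j _ => prod_congr rfl fun k _ => ?_
      congr 1
      funext i
      refine Fin.cases ?_ (fun i => ?_) i
      · simp
      · simp
    rw [h1]
    have h2 : ∀ u : Fin M → V, ((∑ w, g u w) / n ^ r) ^ (M ^ r) * n ^ (r * M) ≤
        ∑ U : Fin r → Fin M → V, ∏ j : Fin r → Fin M, g u (fun i => U i (j i)) :=
      fun u => ih (g u) (hg u)
    refine le_trans ?_ (sum_le_sum fun u _ => h2 u)
    rw [← sum_mul]
    have h3 := jensen (fun u : Fin M → V => (∑ w, g u w) / n ^ r)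
      (fun u => div_nonneg (sum_nonneg fun w _ => hg u w) (by positivity)) (M ^ r)
    have hcardM : (Fintype.card (Fin M → V) : ℝ) = n ^ M := by simp [hn]
    rw [hcardM] at h3
    -- the mean of the slices
    have h4 : ((∑ x, f x) / n ^ (r + 1)) ^ M ≤ (∑ u : Fin M → V, (∑ w, g u w) / n ^ r) / n ^ M := by
      have h5 : ∑ u : Fin M → V, (∑ w, g u w) / n ^ r =
          (∑ w : Fin r → V, (∑ v, f (Fin.cons v w)) ^ M) / n ^ r := by
        rw [← sum_div, sum_comm]
        congr 1
        refine sum_congr rfl fun w _ => ?_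
        rw [Fintype.sum_pow]
      have h6 := jensen (fun w : Fin r → V => ∑ v, f (Fin.cons v w))
        (fun w => sum_nonneg fun v _ => hf _) M
      have hcardr : (Fintype.card (Fin r → V) : ℝ) = n ^ r := by simp [hn]
      rw [hcardr] at h6
      rw [h5]
      have h7 : ∑ x, f x = ∑ w : Fin r → V, ∑ v, f (Fin.cons v w) := by
        rw [sum_cons, sum_comm]
      rw [h7]
      rw [le_div_iff₀ (by positivity), le_div_iff₀ (by positivity)]
      refine le_trans (le_of_eq ?_) h6
      rw [pow_succ, ← div_div, div_pow]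
      field_simp
    calc ((∑ x, f x) / n ^ (r + 1)) ^ M ^ (r + 1) * n ^ ((r + 1) * M)
        = (((∑ x, f x) / n ^ (r + 1)) ^ M) ^ M ^ r * n ^ M * n ^ (r * M) := by
          rw [← pow_mul, ← pow_succ']; ring
      _ ≤ (((∑ u : Fin M → V, (∑ w, g u w) / n ^ r) / n ^ M) ^ M ^ r * n ^ M) * n ^ (r * M) := by
          have h0 : 0 ≤ (∑ x, f x) / n ^ (r + 1) :=
            div_nonneg (sum_nonneg fun x _ => hf x) (by positivity)
          gcongr
      _ ≤ _ := mul_le_mul_of_nonneg_right h3 (by positivity)

/-- Counting form. -/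
theorem blow_card {V : Type*} [Fintype V] (hV : 0 < Fintype.card V) (M r : ℕ)
    (A : Finset (Fin r → V)) [DecidablePred fun U : Fin r → Fin M → V =>
        ∀ j : Fin r → Fin M, (fun i => U i (j i)) ∈ A] :
    ((A.card : ℝ) / (Fintype.card V : ℝ) ^ r) ^ (M ^ r) * (Fintype.card V : ℝ) ^ (r * M) ≤
      ((univ.filter fun U : Fin r → Fin M → V =>
        ∀ j : Fin r → Fin M, (fun i => U i (j i)) ∈ A).card : ℝ) := by
  classical
  have : Nonempty V := Fintype.card_pos_iff.mp hV
  have h := blow (V := V) M r (fun x => if x ∈ A then 1 else 0) (fun x => by split_ifs <;> simp)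
  have h1 : ∑ x : Fin r → V, (if x ∈ A then (1 : ℝ) else 0) = A.card := by simp
  rw [h1] at h
  refine h.trans (le_of_eq ?_)
  rw [card_filter, Nat.cast_sum]
  refine sum_congr rfl fun U _ => ?_
  by_cases hU : ∀ j : Fin r → Fin M, (fun i => U i (j i)) ∈ A
  · rw [if_pos hU]
    simp [hU]
  · rw [if_neg hU]
    push Not at hU
    obtain ⟨j, hj⟩ := hU
    rw [prod_eq_zero (mem_univ j) (by rw [if_neg hj])]
    simp

/-- The cube inequality. -/
theorem cube_ineq {V : Type*} [Fintype V] [DecidableEq V] (hV : 0 < Fintype.card V) (r : ℕ)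
    (A : Finset (Fin r → V)) :
    ((A.card : ℝ) / (Fintype.card V : ℝ) ^ r) ^ (2 ^ r) * (Fintype.card V : ℝ) ^ (2 * r) ≤
      ((univ.filter fun p : (Fin r → V) × (Fin r → V) => ∀ I, mix p.1 p.2 I ∈ A).card : ℝ) := by
  classical
  have h := blow_card hV 2 r A
  rw [mul_comm r 2] at h
  refine h.trans ?_
  norm_cast
  apply card_le_card_of_injOn (fun U => (fun i => U i 0, fun i => U i 1))
  · intro U hU
    rw [mem_coe, mem_filter] at hU ⊢
    refine ⟨mem_univ _, fun I => ?_⟩
    have := hU.2 (fun i => if i ∈ I then 1 else 0)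
    have heq : mix (fun i => U i 0) (fun i => U i 1) I =
        fun i => U i ((fun i => if i ∈ I then (1 : Fin 2) else 0) i) := by
      funext i
      unfold mix
      by_cases hi : i ∈ I
      · simp only [if_pos hi]
      · simp only [if_neg hi]
    simp only
    rw [heq]
    exact this
  · intro U _ U' _ hUU'
    rw [Prod.mk.injEq] at hUU'
    funext i k
    have h0 := congrFun hUU'.1 i
    have h1 := congrFun hUU'.2 i
    match k with
    | 0 => exact h0
    | 1 => exact h1

/-- Every dense set of `r`-tuples contains a complete `r`-partite block. -/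
theorem exists_block (r M : ℕ) (β : ℝ) (hβ : 0 < β) : ∃ n₀ : ℕ, ∀ (V : Type) [Fintype V]
    [DecidableEq V], n₀ ≤ Fintype.card V → ∀ A : Finset (Fin r → V),
    β * (Fintype.card V : ℝ) ^ r ≤ A.card →
    ∃ U : Fin r → Fin M → V, (∀ i, Function.Injective (U i)) ∧
      ∀ j : Fin r → Fin M, (fun i => U i (j i)) ∈ A := by
  classical
  obtain ⟨n₁, hn₁⟩ := exists_nat_gt ((r * M * M : ℝ) / β ^ (M ^ r))
  refine ⟨n₁ + 1, ?_⟩
  intro V _ _ hV A hA
  have hV0 : 0 < Fintype.card V := by omega
  set n : ℝ := (Fintype.card V : ℝ) with hn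
  have hn0 : 0 < n := by rw [hn]; exact_mod_cast hV0
  have hnn₁ : (n₁ : ℝ) < n := by rw [hn]; exact_mod_cast hV
  by_contra hcon
  push Not at hcon
  have h := blow_card hV0 M r A
  rw [← hn] at h
  have hdens : β ≤ (A.card : ℝ) / n ^ r := by rw [le_div_iff₀ (by positivity)]; exact hA
  have h1 : β ^ (M ^ r) * n ^ (r * M) ≤ ((univ.filter fun U : Fin r → Fin M → V =>
        ∀ j : Fin r → Fin M, (fun i => U i (j i)) ∈ A).card : ℝ) := by
    refine le_trans ?_ h
    gcongr
  -- all these `U` are degenerate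
  have hdeg : ∀ (i : Fin r) (a b : Fin M), a ≠ b →
      ((univ.filter fun U : Fin r → Fin M → V => U i a = U i b).card : ℝ) * n ≤ n ^ (r * M) := by
    intro i a b hab
    have h2 : ((univ.filter fun U : Fin r → Fin M → V => U i a = U i b) ×ˢ
        (univ : Finset V)).card ≤ (univ : Finset (Fin r → Fin M → V)).card := by
      apply card_le_card_of_injOn
        (fun p => Function.update p.1 i (Function.update (p.1 i) b p.2))
      · intro _ _; exact mem_univ _
      · rintro ⟨U, v⟩ hU ⟨U', v'⟩ hU' hUU'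
        rw [mem_coe, mem_product, mem_filter] at hU hU'
        simp only at hUU' hU hU'
        have h3 := congrFun (congrFun hUU' i) b
        simp only [Function.update_self] at h3
        have h4 : U i a = U' i a := by
          have h4 := congrFun (congrFun hUU' i) a
          simpa [Function.update_of_ne hab] using h4
        have h5 : U = U' := by
          funext i' k
          by_cases hi : i' = i
          · subst hi
            by_cases hk : k = b
            · subst hk
              rw [← hU.1.2, ← hU'.1.2, h4]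
            · have h4 := congrFun (congrFun hUU' i') k
              simpa [Function.update_of_ne hk] using h4
          · have h4 := congrFun (congrFun hUU' i') k
            simpa [Function.update_of_ne hi] using h4
        rw [h5, h3]
    rw [card_product, card_univ, card_univ] at h2
    have h3 : ((univ.filter fun U : Fin r → Fin M → V => U i a = U i b).card : ℝ) *
        (Fintype.card V : ℝ) ≤ (Fintype.card (Fin r → Fin M → V) : ℝ) := by exact_mod_cast h2
    rw [← hn] at h3
    refine h3.trans (le_of_eq ?_)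
    simp only [Fintype.card_pi, prod_const, card_univ, Fintype.card_fin, Nat.cast_pow]
    rw [← hn, ← pow_mul, mul_comm M r]
  have hsub : (univ.filter fun U : Fin r → Fin M → V =>
        ∀ j : Fin r → Fin M, (fun i => U i (j i)) ∈ A) ⊆
      (univ : Finset (Fin r × Fin M × Fin M)).biUnion fun p =>
        if p.2.1 = p.2.2 then ∅ else
          univ.filter fun U : Fin r → Fin M → V => U p.1 p.2.1 = U p.1 p.2.2 := by
    intro U hU
    rw [mem_filter] at hU
    have h2 : ¬ ∀ i, Function.Injective (U i) := by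
      intro hinj
      obtain ⟨j, hj⟩ := hcon U hinj
      exact hj (hU.2 j)
    push Not at h2
    obtain ⟨i, hi⟩ := h2
    unfold Function.Injective at hi
    push Not at hi
    obtain ⟨a, b, hab, hne⟩ := hi
    rw [mem_biUnion]
    refine ⟨(i, a, b), mem_univ _, ?_⟩
    simp only
    rw [if_neg hne, mem_filter]
    exact ⟨mem_univ _, hab⟩
  have h2 := (card_le_card hsub).trans card_biUnion_le
  have h3 : ((univ.filter fun U : Fin r → Fin M → V =>
        ∀ j : Fin r → Fin M, (fun i => U i (j i)) ∈ A).card : ℝ) ≤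
      ∑ p : Fin r × Fin M × Fin M, n ^ (r * M) / n := by
    refine le_trans (Nat.cast_le.mpr h2) ?_
    rw [Nat.cast_sum]
    refine sum_le_sum fun p _ => ?_
    split_ifs with hp
    · simp only [card_empty, Nat.cast_zero]; positivity
    · rw [le_div_iff₀ hn0]
      exact hdeg _ _ _ hp
  rw [sum_const, card_univ] at h3
  simp only [Fintype.card_prod, Fintype.card_fin, nsmul_eq_mul, Nat.cast_mul] at h3
  have h4 := h1.trans h3
  have h5 : β ^ (M ^ r) * n ≤ r * M * M := by
    have h6 : β ^ M ^ r * n ^ (r * M) * n ≤ (r * (M * M)) * n ^ (r * M) := by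
      calc β ^ M ^ r * n ^ (r * M) * n ≤ (r * (M * M)) * (n ^ (r * M) / n) * n :=
            mul_le_mul_of_nonneg_right h4 hn0.le
        _ = (r * (M * M)) * n ^ (r * M) := by field_simp
    have h7 : 0 < n ^ (r * M) := by positivity
    by_contra hlt
    push Not at hlt
    have h8 := mul_lt_mul_of_pos_right hlt h7
    nlinarith
  have h6 : (r * M * M : ℝ) / β ^ (M ^ r) < n := hn₁.trans hnn₁
  rw [div_lt_iff₀ (by positivity)] at h6
  nlinarith

end Pool.Agent.Lib.MP_952639_co
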