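import Pool.Agent.Lib.MP_952639_co.Blowup

/-!
# Robust classes of tuples
-/

namespace Pool.Agent.Lib.MP_952639_co

open Finset

set_option linter.unusedSectionVars false

section

variable {V : Type*} [Fintype V] [DecidableEq V] {r : ℕ} {c : Finset V → Bool}

lemma mix_empty (x y : Fin r → V) : mix x y ∅ = x := by
  funext i; simp [mix]

lemma mix_univ (x y : Fin r → V) : mix x y univ = y := by
  funext i; simp [mix]

lemma mix_compl (x y : Fin r → V) (I : Finset (Fin r)) : mix y x I = mix x y Iᶜ := by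
  funext i
  by_cases h : i ∈ I <;> simp [mix, h]

lemma Adj.symm {x y : Fin r → V} (h : Adj c x y) : Adj c y x := by
  obtain ⟨κ, hκ⟩ := h
  exact ⟨κ, fun I => by rw [mix_compl]; exact hκ _⟩

lemma Adj.col {x y : Fin r → V} (h : Adj c x y) : ∃ κ, Col c κ x ∧ Col c κ y := by
  obtain ⟨κ, hκ⟩ := h
  refine ⟨κ, ?_, ?_⟩
  · have := hκ ∅; rwa [mix_empty] at this
  · have := hκ univ; rwa [mix_univ] at this

lemma Col.unique {κ κ' : Bool} {x : Fin r → V} (h : Col c κ x) (h' : Col c κ' x) : κ = κ' :=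
  h.2.symm.trans h'.2

lemma AM_eq_one {x y : Fin r → V} (h : Adj c x y) : AM r c x y = 1 := if_pos h

lemma AM_nonneg (x y : Fin r → V) : 0 ≤ AM r c x y := by
  unfold AM; split_ifs <;> simp

lemma AM_le_one (x y : Fin r → V) : AM r c x y ≤ 1 := by
  unfold AM; split_ifs <;> simp

lemma AM_symm (x y : Fin r → V) : AM r c x y = AM r c y x := by
  unfold AM
  by_cases h : Adj c x y
  · rw [if_pos h, if_pos h.symm]
  · rw [if_neg h, if_neg (fun h' => h h'.symm)]

lemma AM_transpose : (AM r c).transpose = AM r c := by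
  ext x y; exact AM_symm y x

lemma AMpow_symm (l : ℕ) (x y : Fin r → V) : (AM r c ^ l) x y = (AM r c ^ l) y x := by
  have h : (AM r c ^ l).transpose = AM r c ^ l := by
    rw [Matrix.transpose_pow, AM_transpose]
  have := congrFun (congrFun h y) x
  exact this

lemma AMpow_nonneg (l : ℕ) : ∀ x y : Fin r → V, 0 ≤ (AM r c ^ l) x y := by
  induction l with
  | zero =>
    intro x y
    rw [pow_zero, Matrix.one_apply]
    split_ifs <;> simp
  | succ l ih =>
    intro x y
    rw [pow_succ', Matrix.mul_apply]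
    exact sum_nonneg fun w _ => mul_nonneg (AM_nonneg _ _) (ih _ _)

/-- `|V|^r`, as a real number. -/
noncomputable def NN (V : Type*) [Fintype V] (r : ℕ) : ℝ := (Fintype.card V : ℝ) ^ r

lemma card_tup : ((univ : Finset (Fin r → V)).card : ℝ) = NN V r := by
  simp [NN]

lemma AMpow_le (l : ℕ) : ∀ x y : Fin r → V, (AM r c ^ (l + 1)) x y ≤ NN V r ^ l := by
  have hN : 0 ≤ NN V r := by unfold NN; positivity
  induction l with
  | zero => intro x y; simpa using AM_le_one x y
  | succ l ih =>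
    intro x y
    rw [pow_succ', Matrix.mul_apply]
    calc ∑ w, AM r c x w * (AM r c ^ (l + 1)) w y ≤ ∑ _w : Fin r → V, NN V r ^ l := by
          refine sum_le_sum fun w _ => ?_
          calc AM r c x w * (AM r c ^ (l + 1)) w y ≤ 1 * NN V r ^ l :=
                mul_le_mul (AM_le_one _ _) (ih _ _) (AMpow_nonneg _ _ _) zero_le_one
            _ = _ := one_mul _
      _ = NN V r ^ (l + 1) := by rw [sum_const, nsmul_eq_mul, card_tup, pow_succ']

/-- Robust connection by walks of length `l`. -/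
def Rel (c : Finset V → Bool) (l : ℕ) (s : ℝ) (x y : Fin r → V) : Prop :=
  s * NN V r ^ (l - 1) ≤ (AM r c ^ l) x y

lemma Rel.symm {l : ℕ} {s : ℝ} {x y : Fin r → V} (h : Rel c l s x y) : Rel c l s y x := by
  unfold Rel at *
  rwa [AMpow_symm]

lemma Rel.mono {l : ℕ} {s s' : ℝ} {x y : Fin r → V} (h : Rel c l s x y) (hs : s' ≤ s) :
    Rel c l s' x y := by
  unfold Rel at *
  have hN : 0 ≤ NN V r := by unfold NN; positivity
  exact (mul_le_mul_of_nonneg_right hs (by positivity)).trans h

lemma NN_pos (hV : 0 < Fintype.card V) : 0 < NN V r := by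
  unfold NN; positivity

lemma NN_sq : (Fintype.card V : ℝ) ^ (2 * r) = NN V r ^ 2 := by
  unfold NN; rw [← pow_mul, mul_comm]

/-- Padding a walk by one step. -/
lemma Rel.pad (hV : 0 < Fintype.card V) {l : ℕ} (hl : 2 ≤ l) {s : ℝ} (hs : 0 < s)
    {x y : Fin r → V} (h : Rel c l s x y) :
    Rel c (l + 1) ((s / 2) ^ (2 ^ r + 1)) x y := by
  classical
  obtain ⟨m, rfl⟩ : ∃ m, l = m + 2 := ⟨l - 2, by omega⟩
  have hN := NN_pos (r := r) hV
  unfold Rel at h ⊢
  have e1 : m + 2 - 1 = m + 1 := by omega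
  have e2 : m + 2 + 1 - 1 = m + 2 := by omega
  rw [e1] at h
  rw [e2]
  set N := NN V r with hNdef
  let D : Finset (Fin r → V) := univ.filter fun w => Adj c x w ∧ s / 2 * N ^ m ≤ (AM r c ^ (m + 1)) w y
  -- `D` is large
  have hD : s / 2 * N ≤ D.card := by
    have h1 : (AM r c ^ (m + 2)) x y ≤ D.card * N ^ m + s / 2 * N ^ m * N := by
      rw [pow_succ', Matrix.mul_apply]
      calc ∑ w, AM r c x w * (AM r c ^ (m + 1)) w y
          ≤ ∑ w : Fin r → V, ((if w ∈ D then N ^ m else 0) + s / 2 * N ^ m) := by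
            refine sum_le_sum fun w _ => ?_
            by_cases hw : w ∈ D
            · rw [if_pos hw]
              have h2 : AM r c x w * (AM r c ^ (m + 1)) w y ≤ 1 * N ^ m :=
                mul_le_mul (AM_le_one _ _) (AMpow_le _ _ _) (AMpow_nonneg _ _ _) zero_le_one
              have h3 : 0 ≤ s / 2 * N ^ m := by positivity
              linarith
            · rw [if_neg hw, zero_add]
              simp only [D, mem_filter, mem_univ, true_and, not_and, not_le] at hw
              by_cases ha : Adj c x w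
              · have h2 := hw ha
                rw [AM_eq_one ha, one_mul]
                exact h2.le
              · unfold AM
                rw [if_neg ha, zero_mul]
                positivity
        _ = D.card * N ^ m + s / 2 * N ^ m * N := by
            rw [sum_add_distrib, sum_const, ← sum_filter, sum_const, nsmul_eq_mul, nsmul_eq_mul,
              card_tup, filter_mem_eq_inter, univ_inter]
            ring
    have h2 : s * N ^ (m + 1) ≤ D.card * N ^ m + s / 2 * N ^ m * N := h.trans h1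
    have h3 : s / 2 * N * N ^ m ≤ D.card * N ^ m := by
      have : s * N ^ (m + 1) = s * N * N ^ m := by ring
      rw [this] at h2
      linarith [this]
    exact le_of_mul_le_mul_right h3 (by positivity)
  -- many adjacent pairs inside `D`
  have hcube := cube_ineq hV r D
  rw [NN_sq] at hcube
  let E : Finset ((Fin r → V) × (Fin r → V)) := univ.filter fun p => ∀ I, mix p.1 p.2 I ∈ D
  have hE : (s / 2) ^ 2 ^ r * N ^ 2 ≤ (E.card : ℝ) := by
    refine le_trans ?_ hcube
    have h1 : s / 2 ≤ (D.card : ℝ) / (Fintype.card V : ℝ) ^ r := by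
      rw [le_div_iff₀ (by positivity)]; exact hD
    gcongr
  have hxcol : ∀ w ∈ D, ∃ κ, Col c κ x ∧ Col c κ w := by
    intro w hw
    exact (mem_filter.mp hw).2.1.col
  have hEprop : ∀ p ∈ E, Adj c x p.1 ∧ Adj c p.1 p.2 ∧
      s / 2 * N ^ m ≤ (AM r c ^ (m + 1)) p.2 y := by
    intro p hp
    have hp' := (mem_filter.mp hp).2
    have h1 : p.1 ∈ D := by have := hp' ∅; rwa [mix_empty] at this
    have h2 : p.2 ∈ D := by have := hp' univ; rwa [mix_univ] at this
    refine ⟨(mem_filter.mp h1).2.1, ?_, (mem_filter.mp h2).2.2⟩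
    obtain ⟨κ, hκx, _⟩ := hxcol _ h1
    refine ⟨κ, fun I => ?_⟩
    obtain ⟨κ', hκx', hκ'⟩ := hxcol _ (hp' I)
    rw [hκx.unique hκx']
    exact hκ'
  have hfin : (E.card : ℝ) * (s / 2 * N ^ m) ≤ (AM r c ^ (m + 2 + 1)) x y := by
    rw [pow_succ', pow_succ', Matrix.mul_apply]
    calc (E.card : ℝ) * (s / 2 * N ^ m) = ∑ p ∈ E, s / 2 * N ^ m := by
          rw [sum_const, nsmul_eq_mul]
      _ ≤ ∑ p ∈ E, AM r c x p.1 * (AM r c p.1 p.2 * (AM r c ^ (m + 1)) p.2 y) := by
          refine sum_le_sum fun p hp => ?_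
          obtain ⟨h1, h2, h3⟩ := hEprop p hp
          rw [AM_eq_one h1, AM_eq_one h2, one_mul, one_mul]
          exact h3
      _ ≤ ∑ p : (Fin r → V) × (Fin r → V),
            AM r c x p.1 * (AM r c p.1 p.2 * (AM r c ^ (m + 1)) p.2 y) := by
          refine sum_le_sum_of_subset_of_nonneg (subset_univ _) fun p _ _ => ?_
          exact mul_nonneg (AM_nonneg _ _) (mul_nonneg (AM_nonneg _ _) (AMpow_nonneg _ _ _))
      _ = ∑ z, AM r c x z * (AM r c * AM r c ^ (m + 1)) z y := by
          rw [Fintype.sum_prod_type]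
          refine sum_congr rfl fun z _ => ?_
          rw [Matrix.mul_apply, mul_sum]
  calc (s / 2) ^ (2 ^ r + 1) * N ^ (m + 2) = ((s / 2) ^ 2 ^ r * N ^ 2) * (s / 2 * N ^ m) := by ring
    _ ≤ (E.card : ℝ) * (s / 2 * N ^ m) := mul_le_mul_of_nonneg_right hE (by positivity)
    _ ≤ _ := hfin

/-- Composition through many adjacent pairs. -/
lemma Rel.comp {l : ℕ} (hl : 1 ≤ l) {s t : ℝ} (hs : 0 ≤ s) {u w : Fin r → V}
    (E : Finset ((Fin r → V) × (Fin r → V)))
    (hE : ∀ p ∈ E, Adj c p.1 p.2 ∧ Rel c l s u p.1 ∧ Rel c l s p.2 w)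
    (hcard : t * NN V r ^ 2 ≤ E.card) : Rel c (2 * l + 1) (t * s ^ 2) u w := by
  have hN : 0 ≤ NN V r := by unfold NN; positivity
  unfold Rel at hE ⊢
  set N := NN V r with hNdef
  have e1 : 2 * l + 1 - 1 = 2 + (l - 1) + (l - 1) := by omega
  rw [e1]
  have hfin : (E.card : ℝ) * (s * N ^ (l - 1) * (s * N ^ (l - 1))) ≤
      (AM r c ^ (2 * l + 1)) u w := by
    have h0 : AM r c ^ (2 * l + 1) = AM r c ^ l * (AM r c * AM r c ^ l) := by
      rw [← pow_succ', ← pow_add]; congr 1; omega
    rw [h0, Matrix.mul_apply]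
    calc (E.card : ℝ) * (s * N ^ (l - 1) * (s * N ^ (l - 1)))
        = ∑ p ∈ E, (s * N ^ (l - 1) * (s * N ^ (l - 1))) := by rw [sum_const, nsmul_eq_mul]
      _ ≤ ∑ p ∈ E, (AM r c ^ l) u p.1 * (AM r c p.1 p.2 * (AM r c ^ l) p.2 w) := by
          refine sum_le_sum fun p hp => ?_
          obtain ⟨h1, h2, h3⟩ := hE p hp
          rw [AM_eq_one h1, one_mul]
          exact mul_le_mul h2 h3 (by positivity) (AMpow_nonneg _ _ _)
      _ ≤ ∑ p : (Fin r → V) × (Fin r → V),
            (AM r c ^ l) u p.1 * (AM r c p.1 p.2 * (AM r c ^ l) p.2 w) := by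
          refine sum_le_sum_of_subset_of_nonneg (subset_univ _) fun p _ _ => ?_
          exact mul_nonneg (AMpow_nonneg _ _ _) (mul_nonneg (AM_nonneg _ _) (AMpow_nonneg _ _ _))
      _ = ∑ z, (AM r c ^ l) u z * (AM r c * AM r c ^ l) z w := by
          rw [Fintype.sum_prod_type]
          refine sum_congr rfl fun z _ => ?_
          rw [Matrix.mul_apply, mul_sum]
  calc t * s ^ 2 * N ^ (2 + (l - 1) + (l - 1))
      = (t * N ^ 2) * (s * N ^ (l - 1) * (s * N ^ (l - 1))) := by ring
    _ ≤ (E.card : ℝ) * (s * N ^ (l - 1) * (s * N ^ (l - 1))) :=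
        mul_le_mul_of_nonneg_right hcard (by positivity)
    _ ≤ _ := hfin

open Classical in
/-- The number of neighbours. -/
noncomputable def dg (c : Finset V → Bool) (x : Fin r → V) : ℕ :=
  (univ.filter fun y : Fin r → V => Adj c x y).card

lemma sum_AM (x : Fin r → V) : ∑ y, AM r c x y = dg c x := by
  classical
  unfold AM dg
  rw [sum_boole]

/-- Few tuples have small degree. -/
lemma few_small_degree (hV : 0 < Fintype.card V) (κ : Bool) {η : ℝ} (hη : 0 < η)
    (B : Finset (Fin r → V))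
    (hB : ∀ x ∈ B, Col c κ x ∧ (dg c x : ℝ) < η ^ 2 ^ r * NN V r) :
    (B.card : ℝ) ≤ η * NN V r := by
  classical
  have hN := NN_pos (r := r) hV
  have hcube := cube_ineq hV r B
  rw [NN_sq] at hcube
  set N := NN V r with hNdef
  by_contra hcon
  push Not at hcon
  have h1 : η < (B.card : ℝ) / (Fintype.card V : ℝ) ^ r := by
    rw [lt_div_iff₀ (by positivity)]; exact hcon
  have h2 : η ^ 2 ^ r * N ^ 2 ≤ ((B.card : ℝ) / (Fintype.card V : ℝ) ^ r) ^ (2 ^ r) * N ^ 2 := by
    gcongr
  have h3 : ((univ.filter fun p : (Fin r → V) × (Fin r → V) => ∀ I, mix p.1 p.2 I ∈ B).card : ℝ)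
      ≤ ∑ x ∈ B, (dg c x : ℝ) := by
    rw [card_filter, Nat.cast_sum, Fintype.sum_prod_type]
    have h4 : ∀ x : Fin r → V, ∑ y : Fin r → V,
        ((if ∀ I, mix (x, y).1 (x, y).2 I ∈ B then 1 else 0 : ℕ) : ℝ) ≤
        if x ∈ B then (dg c x : ℝ) else 0 := by
      intro x
      by_cases hx : x ∈ B
      · rw [if_pos hx, ← sum_AM]
        refine sum_le_sum fun y _ => ?_
        by_cases hy : ∀ I, mix x y I ∈ B
        · have hadj : Adj c x y := ⟨κ, fun I => (hB _ (hy I)).1⟩
          rw [AM_eq_one hadj]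
          simp only
          rw [if_pos hy]; simp
        · simp only
          rw [if_neg hy]
          simpa using AM_nonneg (c := c) x y
      · rw [if_neg hx]
        apply le_of_eq
        apply sum_eq_zero
        intro y _
        simp only
        rw [if_neg, Nat.cast_zero]
        intro hy
        have := hy ∅
        rw [mix_empty] at this
        exact hx this
    refine (sum_le_sum fun x _ => h4 x).trans (le_of_eq ?_)
    rw [sum_ite_mem, univ_inter]
  have hBne : B.Nonempty := by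
    rw [← card_pos]
    have : (0 : ℝ) < B.card := lt_trans (by positivity) hcon
    exact_mod_cast this
  have h4 : ∑ x ∈ B, (dg c x : ℝ) < ∑ x ∈ B, η ^ 2 ^ r * N :=
    sum_lt_sum_of_nonempty hBne fun x hx => (hB x hx).2
  rw [sum_const, nsmul_eq_mul] at h4
  have h5 : (B.card : ℝ) ≤ N := by
    rw [hNdef, ← card_tup (V := V) (r := r)]
    exact_mod_cast card_le_card (subset_univ B)
  have h6 : (B.card : ℝ) * (η ^ 2 ^ r * N) ≤ N * (η ^ 2 ^ r * N) :=
    mul_le_mul_of_nonneg_right h5 (by positivity)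
  have h7 : η ^ 2 ^ r * N ^ 2 < N * (η ^ 2 ^ r * N) := by linarith
  have h8 : η ^ 2 ^ r * N ^ 2 = N * (η ^ 2 ^ r * N) := by ring
  linarith

/-- A family of tuples of large degree that are pairwise not related by paths of length two is
small. -/
lemma card_indep_le (hV : 0 < Fintype.card V) {a : ℝ} (ha : 0 < a)
    (F : Finset (Fin r → V)) (hF : ∀ x ∈ F, a * NN V r ≤ dg c x)
    (hind : ∀ x ∈ F, ∀ y ∈ F, x ≠ y → ¬ Rel c 2 (a ^ 2 / 2) x y) :
    (F.card : ℝ) ≤ 2 / a ^ 2 := by
  classical
  have hN := NN_pos (r := r) hV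
  set N := NN V r with hNdef
  let f : (Fin r → V) → ℝ := fun w => ∑ x ∈ F, AM r c x w
  have h1 : (F.card : ℝ) * (a * N) ≤ ∑ w, f w := by
    simp only [f]
    rw [sum_comm]
    calc (F.card : ℝ) * (a * N) = ∑ x ∈ F, a * N := by rw [sum_const, nsmul_eq_mul]
      _ ≤ ∑ x ∈ F, ∑ w, AM r c x w := by
          refine sum_le_sum fun x hx => ?_
          rw [sum_AM]; exact hF x hx
  have h2 : ∑ w, f w ^ 2 ≤ F.card * N + F.card ^ 2 * (a ^ 2 / 2 * N) := by
    have h3 : ∑ w, f w ^ 2 = ∑ x ∈ F, ∑ y ∈ F, (AM r c ^ 2) x y := by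
      simp only [f, sq, sum_mul_sum]
      rw [sum_comm]
      refine sum_congr rfl fun x _ => ?_
      rw [sum_comm]
      refine sum_congr rfl fun y _ => ?_
      rw [Matrix.mul_apply]
      refine sum_congr rfl fun w _ => ?_
      rw [AM_symm y w]
    rw [h3]
    calc ∑ x ∈ F, ∑ y ∈ F, (AM r c ^ 2) x y
        ≤ ∑ x ∈ F, ∑ y ∈ F, ((if x = y then N else 0) + a ^ 2 / 2 * N) := by
          refine sum_le_sum fun x hx => sum_le_sum fun y hy => ?_
          by_cases hxy : x = y
          · rw [if_pos hxy]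
            have h4 := AMpow_le (c := c) 1 x y
            rw [pow_one] at h4
            have h5 : 0 ≤ a ^ 2 / 2 * N := by positivity
            norm_num at h4
            linarith
          · rw [if_neg hxy, zero_add]
            have h4 := hind x hx y hy hxy
            unfold Rel at h4
            push Not at h4
            norm_num at h4
            linarith
      _ = F.card * N + F.card ^ 2 * (a ^ 2 / 2 * N) := by
          simp only [sum_add_distrib, sum_const, nsmul_eq_mul, sum_ite_eq]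
          rw [sum_ite_mem, inter_self, sum_const, nsmul_eq_mul]
          ring
  have h3 : (∑ w, f w) ^ 2 ≤ N * ∑ w, f w ^ 2 := by
    have := sq_sum_le_card_mul_sum_sq (s := (univ : Finset (Fin r → V))) (f := f)
    rwa [card_tup] at this
  have h4 : ((F.card : ℝ) * (a * N)) ^ 2 ≤ (∑ w, f w) ^ 2 :=
    pow_le_pow_left₀ (by positivity) h1 2
  have h5 : ((F.card : ℝ) * (a * N)) ^ 2 ≤ N * (F.card * N + F.card ^ 2 * (a ^ 2 / 2 * N)) :=
    h4.trans (h3.trans (mul_le_mul_of_nonneg_left h2 hN.le))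
  have h6 : (F.card : ℝ) ^ 2 * (a ^ 2 / 2) * N ^ 2 ≤ F.card * N ^ 2 := by nlinarith
  have h7 : (F.card : ℝ) ^ 2 * (a ^ 2 / 2) ≤ F.card :=
    le_of_mul_le_mul_right h6 (by positivity)
  rcases Nat.eq_zero_or_pos F.card with h0 | h0
  · rw [h0]; simp only [Nat.cast_zero]; positivity
  · have h0' : (0 : ℝ) < F.card := by exact_mod_cast h0
    rw [le_div_iff₀ (by positivity)]
    nlinarith

end

end Pool.Agent.Lib.MP_952639_co
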