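import Pool.Agent.Lib.MP_952639_co.Classes

/-!
# Existence of robust classes
-/

namespace Pool.Agent.Lib.MP_952639_co

open Finset

set_option linter.unusedSectionVars false

section

variable {V : Type*} [Fintype V] [DecidableEq V] {r : ℕ} {c : Finset V → Bool}

lemma AMpow_pos_col (l : ℕ) : ∀ x y : Fin r → V, 0 < (AM r c ^ (l + 1)) x y →
    ∃ κ, Col c κ x ∧ Col c κ y := by
  induction l with
  | zero =>
    intro x y h
    rw [zero_add, pow_one] at h
    have hadj : Adj c x y := by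
      by_contra h'
      unfold AM at h
      rw [if_neg h'] at h
      exact lt_irrefl _ h
    exact hadj.col
  | succ l ih =>
    intro x y h
    rw [pow_succ', Matrix.mul_apply] at h
    obtain ⟨w, _, hw⟩ := exists_ne_zero_of_sum_ne_zero h.ne'
    have h1 : AM r c x w ≠ 0 := left_ne_zero_of_mul hw
    have h2 : (AM r c ^ (l + 1)) w y ≠ 0 := right_ne_zero_of_mul hw
    have hadj : Adj c x w := by
      by_contra h'
      unfold AM at h1
      rw [if_neg h'] at h1
      exact h1 rfl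
    obtain ⟨κ, hκ1, hκ2⟩ := hadj.col
    obtain ⟨κ', hκ1', hκ2'⟩ := ih w y (lt_of_le_of_ne (AMpow_nonneg _ _ _) h2.symm)
    rw [← hκ2.unique hκ1'] at hκ2'
    exact ⟨κ, hκ1, hκ2'⟩

lemma Rel.col (hV : 0 < Fintype.card V) {l : ℕ} (hl : 1 ≤ l) {s : ℝ} (hs : 0 < s)
    {x y : Fin r → V} (h : Rel c l s x y) : ∃ κ, Col c κ x ∧ Col c κ y := by
  obtain ⟨m, rfl⟩ : ∃ m, l = m + 1 := ⟨l - 1, by omega⟩
  have hN := NN_pos (r := r) hV
  unfold Rel at h
  exact AMpow_pos_col m x y (lt_of_lt_of_le (by positivity) h)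

/-- The padding function. -/
noncomputable def padf (r : ℕ) (s : ℝ) : ℝ := (s / 2) ^ (2 ^ r + 1)

lemma padf_pos {s : ℝ} (hs : 0 < s) : 0 < padf r s := by unfold padf; positivity

lemma padf_iter_pos {s : ℝ} (hs : 0 < s) (k : ℕ) : 0 < (padf r)^[k] s := by
  induction k with
  | zero => exact hs
  | succ k ih => rw [Function.iterate_succ_apply']; exact padf_pos ih

lemma Rel.pad_iter (hV : 0 < Fintype.card V) {l : ℕ} (hl : 2 ≤ l) {s : ℝ} (hs : 0 < s)
    {x y : Fin r → V} (h : Rel c l s x y) (k : ℕ) :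
    Rel c (l + k) ((padf r)^[k] s) x y := by
  induction k with
  | zero => exact h
  | succ k ih =>
    rw [Function.iterate_succ_apply', ← add_assoc]
    exact Rel.pad hV (by omega) (padf_iter_pos hs k) ih

/-- Lengths. -/
def len : ℕ → ℕ
  | 0 => 2
  | i + 1 => 2 * len i + 1

/-- Densities. -/
noncomputable def sq' (r : ℕ) (θ s₀ : ℝ) : ℕ → ℝ
  | 0 => s₀
  | i + 1 => min (θ * sq' r θ s₀ i ^ 2) ((padf r)^[len i + 1] (sq' r θ s₀ i))

lemma two_le_len (i : ℕ) : 2 ≤ len i := by
  induction i with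
  | zero => exact le_refl _
  | succ i ih => unfold len; omega

lemma sq'_pos {θ s₀ : ℝ} (hθ : 0 < θ) (hs : 0 < s₀) (i : ℕ) : 0 < sq' r θ s₀ i := by
  induction i with
  | zero => exact hs
  | succ i ih =>
    unfold sq'
    exact lt_min (by positivity) (padf_iter_pos ih _)

/-- The `i`-th relation. -/
def RR (c : Finset V → Bool) (θ s₀ : ℝ) (i : ℕ) (x y : Fin r → V) : Prop :=
  Rel c (len i) (sq' r θ s₀ i) x y

lemma RR.succ (hV : 0 < Fintype.card V) {θ s₀ : ℝ} (hθ : 0 < θ) (hs : 0 < s₀) {i : ℕ}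
    {x y : Fin r → V} (h : RR c θ s₀ i x y) : RR c θ s₀ (i + 1) x y := by
  have h1 := Rel.pad_iter hV (two_le_len i) (sq'_pos (r := r) hθ hs i) h (len i + 1)
  have h2 : len i + (len i + 1) = len (i + 1) := by
    rw [show len (i + 1) = 2 * len i + 1 from rfl]; omega
  rw [h2] at h1
  exact h1.mono (min_le_right _ _)

lemma RR.comp {θ s₀ : ℝ} (hθ : 0 < θ) (hs : 0 < s₀) {i : ℕ} {u w : Fin r → V}
    (E : Finset ((Fin r → V) × (Fin r → V)))
    (hE : ∀ p ∈ E, Adj c p.1 p.2 ∧ RR c θ s₀ i u p.1 ∧ RR c θ s₀ i p.2 w)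
    (hcard : θ * NN V r ^ 2 ≤ E.card) : RR c θ s₀ (i + 1) u w :=
  (Rel.comp (by have := two_le_len i; omega) (sq'_pos (r := r) hθ hs i).le E hE hcard).mono
    (min_le_left _ _)

lemma RR.symm {θ s₀ : ℝ} {i : ℕ} {x y : Fin r → V} (h : RR c θ s₀ i x y) :
    RR c θ s₀ i y x := Rel.symm h

lemma RR.self (hV : 0 < Fintype.card V) {θ a : ℝ} (hθ : 0 < θ) (ha : 0 < a) {x : Fin r → V}
    (hx : a * NN V r ≤ dg c x) (i : ℕ) : RR c θ (a ^ 2 / 2) i x x := by
  induction i with
  | zero =>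
    have hN := NN_pos (r := r) hV
    unfold RR Rel
    rw [show len 0 = 2 from rfl, show sq' r θ (a ^ 2 / 2) 0 = a ^ 2 / 2 from rfl]
    have h1 : (AM r c ^ 2) x x = dg c x := by
      rw [sq, Matrix.mul_apply, ← sum_AM]
      refine sum_congr rfl fun w _ => ?_
      rw [AM_symm w x]
      unfold AM
      split_ifs <;> simp
    rw [h1]
    have h2 : (dg c x : ℝ) ≤ NN V r := by
      rw [← sum_AM, ← card_tup (V := V) (r := r)]
      calc ∑ y, AM r c x y ≤ ∑ _y : Fin r → V, (1 : ℝ) := sum_le_sum fun y _ => AM_le_one _ _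
        _ = _ := by simp
    have h3 : a ≤ 1 := by
      by_contra h
      push Not at h
      nlinarith
    norm_num
    nlinarith
  | succ i ih => exact RR.succ hV hθ (by positivity) ih

/-- Two different tuples of an `i+1`-independent family are joined by few edges. -/
lemma few_edges {θ s₀ : ℝ} (hθ : 0 < θ) (hs : 0 < s₀) {i : ℕ} {v v' : Fin r → V}
    (h : ¬ RR c θ s₀ (i + 1) v v') (E : Finset ((Fin r → V) × (Fin r → V)))
    (hE : ∀ p ∈ E, Adj c p.1 p.2 ∧ RR c θ s₀ i p.1 v ∧ RR c θ s₀ i p.2 v') :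
    (E.card : ℝ) ≤ θ * NN V r ^ 2 := by
  by_contra hcon
  push Not at hcon
  exact h (RR.comp hθ hs E (fun p hp => ⟨(hE p hp).1, (hE p hp).2.1.symm, (hE p hp).2.2⟩) hcon.le)

lemma RR.col (hV : 0 < Fintype.card V) {θ s₀ : ℝ} (hθ : 0 < θ) (hs : 0 < s₀) {i : ℕ}
    {x y : Fin r → V} (h : RR c θ s₀ i x y) : ∃ κ, Col c κ x ∧ Col c κ y :=
  Rel.col hV (by have := two_le_len i; omega) (sq'_pos (r := r) hθ hs i) h

/-- The intersection of two different classes is small. -/
lemma small_inter (hV : 0 < Fintype.card V) {θ' s₀ : ℝ} (hθ : 0 < θ') (hs : 0 < s₀) {i : ℕ}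
    {v v' : Fin r → V} (h : ¬ RR c (θ' ^ 2 ^ r) s₀ (i + 1) v v') (O : Finset (Fin r → V))
    (hO : ∀ x ∈ O, RR c (θ' ^ 2 ^ r) s₀ i x v ∧ RR c (θ' ^ 2 ^ r) s₀ i x v') :
    (O.card : ℝ) ≤ θ' * NN V r := by
  classical
  have hN := NN_pos (r := r) hV
  have hθ2 : 0 < θ' ^ 2 ^ r := by positivity
  have hcube := cube_ineq hV r O
  rw [NN_sq] at hcube
  set N := NN V r with hNdef
  have h1 := few_edges hθ2 hs h (univ.filter fun p : (Fin r → V) × (Fin r → V) =>
    ∀ I, mix p.1 p.2 I ∈ O) (by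
      intro p hp
      have hp' := (mem_filter.mp hp).2
      have h1 : p.1 ∈ O := by have := hp' ∅; rwa [mix_empty] at this
      have h2 : p.2 ∈ O := by have := hp' univ; rwa [mix_univ] at this
      refine ⟨?_, (hO _ h1).1, (hO _ h2).2⟩
      obtain ⟨κ, _, hκ⟩ := (hO _ h1).1.col hV hθ2 hs
      refine ⟨κ, fun I => ?_⟩
      obtain ⟨κ', hκ1, hκ'⟩ := (hO _ (hp' I)).1.col hV hθ2 hs
      rw [hκ.unique hκ']
      exact hκ1)
  have h2 := hcube.trans h1
  have h3 : ((O.card : ℝ) / (Fintype.card V : ℝ) ^ r) ^ 2 ^ r ≤ θ' ^ 2 ^ r :=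
    le_of_mul_le_mul_right h2 (by positivity)
  have h4 : (O.card : ℝ) / (Fintype.card V : ℝ) ^ r ≤ θ' :=
    le_of_pow_le_pow_left₀ (by positivity) hθ.le h3
  rwa [div_le_iff₀ (by positivity)] at h4

/-- Few cross pairs between two different classes. -/
lemma few_cross (hV : 0 < Fintype.card V) {θ' s₀ : ℝ} (hθ : 0 < θ') (hs : 0 < s₀) {i : ℕ}
    {v v' : Fin r → V} (h : ¬ RR c (θ' ^ 2 ^ r) s₀ (i + 1) v v') (i₀ : Fin r)
    (C : Finset ((Fin r → V) × V))
    (hC : ∀ p ∈ C, RR c (θ' ^ 2 ^ r) s₀ i p.1 v ∧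
      RR c (θ' ^ 2 ^ r) s₀ i (Function.update p.1 i₀ p.2) v' ∧
      c (univ.image p.1) = c (univ.image (Function.update p.1 i₀ p.2))) :
    (C.card : ℝ) ≤ θ' * (Fintype.card V : ℝ) ^ (r + 1) := by
  classical
  have hN := NN_pos (r := r) hV
  have hn : (0 : ℝ) < Fintype.card V := by exact_mod_cast hV
  have hθ2 : 0 < θ' ^ 2 ^ r := by positivity
  have : Nonempty V := Fintype.card_pos_iff.mp hV
  set N := NN V r with hNdef
  set n : ℝ := (Fintype.card V : ℝ) with hndef
  -- slices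
  let D : V → Finset (Fin r → V) := fun t => univ.filter fun x => (x, t) ∈ C
  let E : Finset ((Fin r → V) × (Fin r → V)) := univ.filter fun p =>
    Adj c p.1 p.2 ∧ RR c (θ' ^ 2 ^ r) s₀ i p.1 v ∧ RR c (θ' ^ 2 ^ r) s₀ i p.2 v'
  have hE : (E.card : ℝ) ≤ θ' ^ 2 ^ r * N ^ 2 :=
    few_edges hθ2 hs h E fun p hp => (mem_filter.mp hp).2
  let Et : V → Finset ((Fin r → V) × (Fin r → V)) := fun t => E.filter fun p => p.2 i₀ = t
  have hEt : ∑ t, ((Et t).card : ℝ) = E.card := by
    rw [← Nat.cast_sum]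
    congr 1
    exact (card_eq_sum_card_fiberwise (f := fun p : (Fin r → V) × (Fin r → V) => p.2 i₀)
      (s := E) (t := univ) (fun _ _ => mem_coe.mpr (mem_univ _))).symm
  have hCD : (C.card : ℝ) = ∑ t, ((D t).card : ℝ) := by
    rw [← Nat.cast_sum]
    congr 1
    rw [card_eq_sum_card_fiberwise (f := fun p : (Fin r → V) × V => p.2) (s := C) (t := univ)
      (fun _ _ => mem_coe.mpr (mem_univ _))]
    refine sum_congr rfl fun t _ => ?_
    refine card_bij' (fun p _ => p.1) (fun x _ => (x, t)) ?_ ?_ ?_ ?_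
    · intro p hp
      rw [mem_filter] at hp
      simp only [D, mem_filter, mem_univ, true_and]
      rw [← hp.2]; exact hp.1
    · intro x hx
      simp only [D, mem_filter, mem_univ, true_and] at hx
      rw [mem_filter]
      exact ⟨hx, rfl⟩
    · intro p hp
      rw [mem_filter] at hp
      simp only [← hp.2]
    · intro x _; rfl
  -- the cube of a slice gives edges
  have hslice : ∀ t, ((univ.filter fun p : (Fin r → V) × (Fin r → V) =>
      ∀ I, mix p.1 p.2 I ∈ D t).card : ℝ) ≤ (Et t).card * n := by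
    intro t
    have h1 : (univ.filter fun p : (Fin r → V) × (Fin r → V) => ∀ I, mix p.1 p.2 I ∈ D t).card ≤
        ((Et t) ×ˢ (univ : Finset V)).card := by
      apply card_le_card_of_injOn (fun p => ((p.1, Function.update p.2 i₀ t), p.2 i₀))
      · intro p hp
        rw [mem_coe, mem_filter] at hp
        have hp' := hp.2
        have hmem : ∀ I, RR c (θ' ^ 2 ^ r) s₀ i (mix p.1 p.2 I) v ∧
            RR c (θ' ^ 2 ^ r) s₀ i (Function.update (mix p.1 p.2 I) i₀ t) v' ∧
            c (univ.image (mix p.1 p.2 I)) =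
              c (univ.image (Function.update (mix p.1 p.2 I) i₀ t)) := by
          intro I
          have h2 : (mix p.1 p.2 I, t) ∈ C := (mem_filter.mp (hp' I)).2
          exact hC _ h2
        rw [mem_coe, mem_product]
        refine ⟨?_, mem_univ _⟩
        simp only [Et, E, mem_filter, mem_univ, true_and, Function.update_self, and_true]
        have h0 := hmem ∅
        have h1 := hmem univ
        rw [mix_empty] at h0
        rw [mix_univ] at h1
        refine ⟨?_, h0.1, h1.2.1⟩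
        obtain ⟨κ, hκ, hκv⟩ := h0.1.col hV hθ2 hs
        refine ⟨κ, fun I => ?_⟩
        obtain ⟨hI1, hI2, hI3⟩ := hmem I
        obtain ⟨κ1, hκ1, hκ1v⟩ := hI1.col hV hθ2 hs
        obtain ⟨κ2, hκ2, _⟩ := hI2.col hV hθ2 hs
        have e1 : κ1 = κ := hκ1v.unique hκv
        have e2 : κ2 = κ1 := by rw [← hκ1.2, ← hκ2.2, hI3]
        by_cases hi : i₀ ∈ I
        · have : mix p.1 (Function.update p.2 i₀ t) I = Function.update (mix p.1 p.2 I) i₀ t := by
            funext j
            by_cases hj : j = i₀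
            · subst hj; simp [mix, hi]
            · simp [mix, Function.update_of_ne hj]
          rw [this, ← e1, ← e2]
          exact hκ2
        · have : mix p.1 (Function.update p.2 i₀ t) I = mix p.1 p.2 I := by
            funext j
            by_cases hj : j = i₀
            · subst hj; simp [mix, hi]
            · simp [mix, Function.update_of_ne hj]
          rw [this, ← e1]
          exact hκ1
      · intro p _ q _ hpq
        simp only [Prod.mk.injEq] at hpq
        obtain ⟨⟨h2, h3⟩, h4⟩ := hpq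
        refine Prod.ext h2 ?_
        funext j
        by_cases hj : j = i₀
        · rw [hj]; exact h4
        · have h5 := congrFun h3 j
          simpa [Function.update_of_ne hj] using h5
    rw [card_product, card_univ] at h1
    have h2 : ((univ.filter fun p : (Fin r → V) × (Fin r → V) =>
        ∀ I, mix p.1 p.2 I ∈ D t).card : ℝ) ≤ (((Et t).card * Fintype.card V : ℕ) : ℝ) :=
      Nat.cast_le.mpr h1
    rw [Nat.cast_mul] at h2
    exact h2
  have hsum : (∑ t, (((D t).card : ℝ) / N) ^ 2 ^ r) * N ^ 2 ≤ θ' ^ 2 ^ r * N ^ 2 * n := by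
    rw [sum_mul]
    calc ∑ t, (((D t).card : ℝ) / N) ^ 2 ^ r * N ^ 2 ≤ ∑ t, ((Et t).card : ℝ) * n := by
          refine sum_le_sum fun t _ => ?_
          have hcube := cube_ineq hV r (D t)
          rw [NN_sq] at hcube
          exact hcube.trans (hslice t)
      _ = (E.card : ℝ) * n := by rw [← sum_mul, hEt]
      _ ≤ _ := mul_le_mul_of_nonneg_right hE hn.le
  have hj := jensen (fun t => ((D t).card : ℝ) / N) (fun t => by positivity) (2 ^ r)
  rw [← hndef] at hj
  have h2 : ((∑ t, ((D t).card : ℝ) / N) / n) ^ 2 ^ r ≤ θ' ^ 2 ^ r := by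
    have h3 : ((∑ t, ((D t).card : ℝ) / N) / n) ^ 2 ^ r * (n * N ^ 2) ≤
        θ' ^ 2 ^ r * (n * N ^ 2) := by
      calc ((∑ t, ((D t).card : ℝ) / N) / n) ^ 2 ^ r * (n * N ^ 2)
          = (((∑ t, ((D t).card : ℝ) / N) / n) ^ 2 ^ r * n) * N ^ 2 := by ring
        _ ≤ (∑ t, (((D t).card : ℝ) / N) ^ 2 ^ r) * N ^ 2 :=
            mul_le_mul_of_nonneg_right hj (by positivity)
        _ ≤ θ' ^ 2 ^ r * N ^ 2 * n := hsum
        _ = _ := by ring
    exact le_of_mul_le_mul_right h3 (by positivity)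
  have h3 : (∑ t, ((D t).card : ℝ) / N) / n ≤ θ' :=
    le_of_pow_le_pow_left₀ (by positivity) hθ.le h2
  rw [← sum_div, ← hCD, div_div, div_le_iff₀ (by positivity)] at h3
  rw [pow_succ]
  exact h3

end

end Pool.Agent.Lib.MP_952639_co
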