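import Pool.Agent.Lib.MP_952639_co.Classes2

/-!
# Existence of robust classes: assembly
-/

namespace Pool.Agent.Lib.MP_952639_co

open Finset

set_option linter.unusedSectionVars false

section

variable {V : Type*} [Fintype V] [DecidableEq V] {r : ℕ} {c : Finset V → Bool}

/-- Independent families of tuples of large degree. -/
def Ind (c : Finset V → Bool) (θ a : ℝ) (i : ℕ) (F : Finset (Fin r → V)) : Prop :=
  (∀ x ∈ F, a * NN V r ≤ dg c x) ∧
    ∀ x ∈ F, ∀ y ∈ F, x ≠ y → ¬ RR c θ (a ^ 2 / 2) i x y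

lemma Ind.succ (hV : 0 < Fintype.card V) {θ a : ℝ} (hθ : 0 < θ) (ha : 0 < a) {i : ℕ}
    {F : Finset (Fin r → V)} (h : Ind c θ a (i + 1) F) : Ind c θ a i F :=
  ⟨h.1, fun x hx y hy hxy hR => h.2 x hx y hy hxy (hR.succ hV hθ (by positivity))⟩

lemma Ind.card_le (hV : 0 < Fintype.card V) {θ a : ℝ} (hθ : 0 < θ) (ha : 0 < a) {i : ℕ}
    {F : Finset (Fin r → V)} (h : Ind c θ a i F) : (F.card : ℝ) ≤ 2 / a ^ 2 := by
  have h0 : Ind c θ a 0 F := by
    induction i with
    | zero => exact h
    | succ i ih => exact ih (h.succ hV hθ ha)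
  exact card_indep_le hV ha F h0.1 fun x hx y hy hxy => h0.2 x hx y hy hxy

/-- A good scale. -/
lemma exists_scale (hV : 0 < Fintype.card V) (c : Finset V → Bool) {θ a : ℝ} (hθ : 0 < θ)
    (ha : 0 < a) (K : ℕ) (hK : 2 / a ^ 2 ≤ K) :
    ∃ i ≤ K, ∃ F : Finset (Fin r → V), Ind c θ a (i + 1) F ∧
      ∀ F' : Finset (Fin r → V), Ind c θ a i F' → F'.card ≤ F.card := by
  classical
  have hmax : ∀ i, ∃ F : Finset (Fin r → V), Ind c θ a i F ∧
      ∀ F' : Finset (Fin r → V), Ind c θ a i F' → F'.card ≤ F.card := by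
    intro i
    have hne : (univ.filter fun F : Finset (Fin r → V) => Ind c θ a i F).Nonempty :=
      ⟨∅, by
        rw [mem_filter]
        exact ⟨mem_univ _, fun x hx => absurd hx (notMem_empty _),
          fun x hx => absurd hx (notMem_empty _)⟩⟩
    obtain ⟨F, hF, hF'⟩ := exists_max_image _ (fun F : Finset (Fin r → V) => F.card) hne
    rw [mem_filter] at hF
    exact ⟨F, hF.2, fun F' h => hF' F' (mem_filter.mpr ⟨mem_univ _, h⟩)⟩
  choose Fm hFm hFm' using hmax
  by_contra hcon
  push Not at hcon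
  have hdec : ∀ i ≤ K, (Fm (i + 1)).card < (Fm i).card := by
    intro i hi
    obtain ⟨F', h1, h2⟩ := hcon i hi (Fm (i + 1)) (hFm (i + 1))
    exact lt_of_lt_of_le h2 (hFm' i F' h1)
  have hlin : ∀ i ≤ K + 1, (Fm i).card + i ≤ (Fm 0).card := by
    intro i
    induction i with
    | zero => intro _; simp
    | succ i ih =>
      intro hi
      have h1 := ih (by omega)
      have h2 := hdec i (by omega)
      omega
  have h1 := hlin (K + 1) le_rfl
  have h2 : (Fm 0).card ≤ K := by
    have := (hFm 0).card_le hV hθ ha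
    exact_mod_cast this.trans hK
  omega

end

theorem exists_classes (r : ℕ) (_hr : 1 ≤ r) (δ : ℝ) (hδ : 0 < δ) :
    ∃ (cc : ℝ) (L : ℕ), 0 < cc ∧ ∀ (V : Type) [Fintype V] [DecidableEq V] [Nonempty V]
      (c : Finset V → Bool), ∃ (cls : (Fin r → V) → ℕ) (l : ℕ), 1 ≤ l ∧ l ≤ L ∧
      (∀ x, cls x ≠ 0 → Function.Injective x) ∧
      ((excCount cls : ℝ) ≤ δ * (Fintype.card V : ℝ) ^ r) ∧
      (∀ i, (crossCount c cls i : ℝ) ≤ δ * (Fintype.card V : ℝ) ^ (r + 1)) ∧
      (∀ x y, cls x ≠ 0 → cls x = cls y →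
        cc * (Fintype.card V : ℝ) ^ (r * (l - 1)) ≤ (AM r c ^ l) x y) := by
  classical
  -- constants
  set η : ℝ := δ / 4 with hη
  have hη0 : 0 < η := by positivity
  set a : ℝ := η ^ 2 ^ r with ha
  have ha0 : 0 < a := by positivity
  obtain ⟨K, hK⟩ := exists_nat_ge (2 / a ^ 2)
  set θ' : ℝ := δ / (2 * (K + 1) ^ 2) with hθ'
  have hθ'0 : 0 < θ' := by positivity
  set θ : ℝ := θ' ^ 2 ^ r with hθ
  have hθ0 : 0 < θ := by positivity
  have hs0 : (0 : ℝ) < a ^ 2 / 2 := by positivity
  have hKθ : (K : ℝ) ^ 2 * θ' ≤ δ / 2 := by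
    rw [hθ', mul_div_assoc', div_le_div_iff₀ (by positivity) (by positivity)]
    have : (K : ℝ) ^ 2 ≤ (K + 1) ^ 2 := by gcongr; linarith
    nlinarith
  obtain ⟨i₁, _, hi₁⟩ := exists_min_image (range (K + 1)) (sq' r θ (a ^ 2 / 2)) ⟨0, by simp⟩
  obtain ⟨i₂, _, hi₂⟩ := exists_max_image (range (K + 1)) len ⟨0, by simp⟩
  refine ⟨sq' r θ (a ^ 2 / 2) i₁, len i₂, sq'_pos hθ0 hs0 _, ?_⟩
  intro V _ _ _ c
  have hV : 0 < Fintype.card V := Fintype.card_pos
  obtain ⟨i, hiK, F, hF, hFmax⟩ := exists_scale (r := r) hV c hθ0 ha0 K hK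
  have hFi : Ind c θ a i F := hF.succ hV hθ0 ha0
  have hFcard : (F.card : ℝ) ≤ K := (hFi.card_le hV hθ0 ha0).trans hK
  have hself : ∀ x : Fin r → V, a * NN V r ≤ dg c x → RR c θ (a ^ 2 / 2) i x x :=
    fun x hx => RR.self hV hθ0 ha0 hx i
  -- every tuple of large degree is related to some member of `F`
  have hex : ∀ u : Fin r → V, a * NN V r ≤ dg c u → ∃ v ∈ F, RR c θ (a ^ 2 / 2) i u v := by
    intro u hu
    by_cases huF : u ∈ F
    · exact ⟨u, huF, hself u hu⟩
    · by_contra hno
      push Not at hno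
      have hInd : Ind c θ a i (insert u F) := by
        refine ⟨?_, ?_⟩
        · intro x hx
          rcases mem_insert.mp hx with rfl | hx
          · exact hu
          · exact hFi.1 x hx
        · intro x hx y hy hxy hR
          rcases mem_insert.mp hx with hx1 | hx1
          · rcases mem_insert.mp hy with hy1 | hy1
            · exact hxy (hx1.trans hy1.symm)
            · rw [hx1] at hR; exact hno y hy1 hR
          · rcases mem_insert.mp hy with hy1 | hy1
            · rw [hy1] at hR; exact hno x hx1 hR.symm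
            · exact hFi.2 x hx1 y hy1 hxy hR
      have := hFmax _ hInd
      rw [card_insert_of_notMem huF] at this
      omega
  -- the labels
  let lab : (Fin r → V) → ℕ := fun v => (Fintype.equivFin (Fin r → V) v : ℕ) + 1
  have hlab : Function.Injective lab := by
    intro x y hxy
    simp only [lab, add_left_inj] at hxy
    exact (Fintype.equivFin (Fin r → V)).injective (Fin.ext hxy)
  let good : (Fin r → V) → Prop := fun u => a * NN V r ≤ dg c u ∧
    ∃ v ∈ F, RR c θ (a ^ 2 / 2) i u v ∧ ∀ v' ∈ F, RR c θ (a ^ 2 / 2) i u v' → v' = v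
  let cls : (Fin r → V) → ℕ := fun u => if h : good u then lab h.2.choose else 0
  have hcls : ∀ u, cls u ≠ 0 → a * NN V r ≤ dg c u ∧
      ∃ v ∈ F, cls u = lab v ∧ RR c θ (a ^ 2 / 2) i u v ∧
        ∀ v' ∈ F, RR c θ (a ^ 2 / 2) i u v' → v' = v := by
    intro u hu
    by_cases h : good u
    · refine ⟨h.1, h.2.choose, h.2.choose_spec.1, ?_, h.2.choose_spec.2.1, h.2.choose_spec.2.2⟩
      simp only [cls, dif_pos h]
    · simp only [cls, dif_neg h] at hu
      exact absurd rfl hu
  have hcls0 : ∀ u, cls u = 0 → a * NN V r ≤ dg c u →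
      ∃ v ∈ F, ∃ v' ∈ F, v ≠ v' ∧ RR c θ (a ^ 2 / 2) i u v ∧ RR c θ (a ^ 2 / 2) i u v' := by
    intro u hu hdg
    have hng : ¬ good u := by
      intro h
      simp only [cls, dif_pos h, lab] at hu
      omega
    obtain ⟨v, hv, hR⟩ := hex u hdg
    by_contra hno
    push Not at hno
    apply hng
    refine ⟨hdg, v, hv, hR, fun v' hv' hR' => ?_⟩
    by_contra hne
    exact hno v' hv' v hv hne hR' hR
  refine ⟨cls, len i, by have := two_le_len i; omega, hi₂ i (by simp; omega), ?_, ?_, ?_, ?_⟩
  · -- injectivity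
    intro x hx
    obtain ⟨_, v, _, _, hR, _⟩ := hcls x hx
    obtain ⟨κ, hκ, _⟩ := hR.col hV hθ0 hs0
    exact hκ.1
  · -- exceptional tuples
    have hexc : excCount cls =
        (univ.filter fun x : Fin r → V => Function.Injective x ∧ cls x = 0).card := by
      unfold excCount
      congr
    rw [hexc]
    have hsub : (univ.filter fun x : Fin r → V => Function.Injective x ∧ cls x = 0) ⊆
        ((univ.filter fun x : Fin r → V => Col c true x ∧ (dg c x : ℝ) < η ^ 2 ^ r * NN V r) ∪
        (univ.filter fun x : Fin r → V => Col c false x ∧ (dg c x : ℝ) < η ^ 2 ^ r * NN V r)) ∪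
        (F ×ˢ F).biUnion fun p => if p.1 = p.2 then ∅ else
          univ.filter fun x : Fin r → V => RR c θ (a ^ 2 / 2) i x p.1 ∧
            RR c θ (a ^ 2 / 2) i x p.2 := by
      intro x hx
      rw [mem_filter] at hx
      rw [mem_union, mem_union, mem_filter, mem_filter]
      by_cases hdg : a * NN V r ≤ dg c x
      · right
        obtain ⟨v, hv, v', hv', hne, hR, hR'⟩ := hcls0 x hx.2.2 hdg
        rw [mem_biUnion]
        refine ⟨(v, v'), mem_product.mpr ⟨hv, hv'⟩, ?_⟩
        simp only
        rw [if_neg hne, mem_filter]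
        exact ⟨mem_univ _, hR, hR'⟩
      · left
        push Not at hdg
        cases hcx : c (univ.image x) with
        | true => left; exact ⟨mem_univ _, ⟨hx.2.1, hcx⟩, hdg⟩
        | false => right; exact ⟨mem_univ _, ⟨hx.2.1, hcx⟩, hdg⟩
    have h1 := (card_le_card hsub).trans ((card_union_le _ _).trans
      (add_le_add (card_union_le _ _) card_biUnion_le))
    refine (Nat.cast_le (α := ℝ).mpr h1).trans ?_
    rw [Nat.cast_add, Nat.cast_add, Nat.cast_sum]
    have h2 := few_small_degree (c := c) (r := r) hV true hη0 (univ.filter fun x : Fin r → V =>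
      Col c true x ∧ (dg c x : ℝ) < η ^ 2 ^ r * NN V r) (fun x hx => (mem_filter.mp hx).2)
    have h3 := few_small_degree (c := c) (r := r) hV false hη0 (univ.filter fun x : Fin r → V =>
      Col c false x ∧ (dg c x : ℝ) < η ^ 2 ^ r * NN V r) (fun x hx => (mem_filter.mp hx).2)
    have hN := NN_pos (r := r) hV
    have h4 : ∑ p ∈ F ×ˢ F, (((if p.1 = p.2 then ∅ else
          univ.filter fun x : Fin r → V => RR c θ (a ^ 2 / 2) i x p.1 ∧
            RR c θ (a ^ 2 / 2) i x p.2 : Finset (Fin r → V)).card : ℕ) : ℝ) ≤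
        ∑ p ∈ F ×ˢ F, θ' * NN V r := by
      refine sum_le_sum fun p hp => ?_
      rw [mem_product] at hp
      split_ifs with hpp
      · simp only [card_empty, Nat.cast_zero]; positivity
      · exact small_inter hV hθ'0 hs0 (hF.2 p.1 hp.1 p.2 hp.2 hpp) _
          (fun x hx => (mem_filter.mp hx).2)
    rw [sum_const, card_product, nsmul_eq_mul, Nat.cast_mul] at h4
    have h5 : (F.card : ℝ) * F.card * (θ' * NN V r) ≤ δ / 2 * NN V r := by
      have h6 : (F.card : ℝ) * F.card ≤ (K : ℝ) ^ 2 := by
        rw [sq]; exact mul_le_mul hFcard hFcard (by positivity) (by positivity)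
      calc (F.card : ℝ) * F.card * (θ' * NN V r) ≤ (K : ℝ) ^ 2 * (θ' * NN V r) :=
            mul_le_mul_of_nonneg_right h6 (by positivity)
        _ = (K : ℝ) ^ 2 * θ' * NN V r := by ring
        _ ≤ _ := mul_le_mul_of_nonneg_right hKθ hN.le
    have h6 : (Fintype.card V : ℝ) ^ r = NN V r := rfl
    rw [h6]
    have h7 : η * NN V r = δ / 4 * NN V r := by rw [hη]
    linarith
  · -- cross pairs
    intro i₀
    unfold crossCount
    have hsub : (univ.filter fun p : (Fin r → V) × V =>
        cls p.1 ≠ 0 ∧ cls (Function.update p.1 i₀ p.2) ≠ 0 ∧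
          c (univ.image p.1) = c (univ.image (Function.update p.1 i₀ p.2)) ∧
          cls p.1 ≠ cls (Function.update p.1 i₀ p.2)) ⊆
        (F ×ˢ F).biUnion fun q => if q.1 = q.2 then ∅ else
          univ.filter fun p : (Fin r → V) × V => RR c θ (a ^ 2 / 2) i p.1 q.1 ∧
            RR c θ (a ^ 2 / 2) i (Function.update p.1 i₀ p.2) q.2 ∧
            c (univ.image p.1) = c (univ.image (Function.update p.1 i₀ p.2)) := by
      intro p hp
      rw [mem_filter] at hp
      obtain ⟨_, h1, h2, h3, h4⟩ := hp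
      obtain ⟨_, v, hv, hv1, hv2, _⟩ := hcls _ h1
      obtain ⟨_, v', hv', hv1', hv2', _⟩ := hcls _ h2
      rw [mem_biUnion]
      refine ⟨(v, v'), mem_product.mpr ⟨hv, hv'⟩, ?_⟩
      have hne : v ≠ v' := by
        rintro rfl
        exact h4 (hv1.trans hv1'.symm)
      simp only
      rw [if_neg hne, mem_filter]
      exact ⟨mem_univ _, hv2, hv2', h3⟩
    have h1 := (card_le_card hsub).trans card_biUnion_le
    have h1' : ((univ.filter fun p : (Fin r → V) × V =>
        cls p.1 ≠ 0 ∧ cls (Function.update p.1 i₀ p.2) ≠ 0 ∧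
          c (univ.image p.1) = c (univ.image (Function.update p.1 i₀ p.2)) ∧
          cls p.1 ≠ cls (Function.update p.1 i₀ p.2)).card : ℝ) ≤ _ := Nat.cast_le.mpr h1
    refine h1'.trans ?_
    rw [Nat.cast_sum]
    have h4 : ∑ q ∈ F ×ˢ F, (((if q.1 = q.2 then ∅ else
          univ.filter fun p : (Fin r → V) × V => RR c θ (a ^ 2 / 2) i p.1 q.1 ∧
            RR c θ (a ^ 2 / 2) i (Function.update p.1 i₀ p.2) q.2 ∧
            c (univ.image p.1) = c (univ.image (Function.update p.1 i₀ p.2)) :
              Finset ((Fin r → V) × V)).card : ℕ) : ℝ) ≤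
        ∑ q ∈ F ×ˢ F, θ' * (Fintype.card V : ℝ) ^ (r + 1) := by
      refine sum_le_sum fun q hq => ?_
      rw [mem_product] at hq
      split_ifs with hpp
      · simp only [card_empty, Nat.cast_zero]; positivity
      · exact few_cross hV hθ'0 hs0 (hF.2 q.1 hq.1 q.2 hq.2 hpp) i₀ _
          (fun p hp => (mem_filter.mp hp).2)
    refine h4.trans ?_
    rw [sum_const, card_product, nsmul_eq_mul, Nat.cast_mul]
    have h6 : (F.card : ℝ) * F.card ≤ (K : ℝ) ^ 2 := by
      rw [sq]; exact mul_le_mul hFcard hFcard (by positivity) (by positivity)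
    have hp : (0 : ℝ) < (Fintype.card V : ℝ) ^ (r + 1) := by
      have : (0 : ℝ) < Fintype.card V := by exact_mod_cast hV
      positivity
    calc (F.card : ℝ) * F.card * (θ' * (Fintype.card V : ℝ) ^ (r + 1))
        ≤ (K : ℝ) ^ 2 * (θ' * (Fintype.card V : ℝ) ^ (r + 1)) :=
          mul_le_mul_of_nonneg_right h6 (by positivity)
      _ = (K : ℝ) ^ 2 * θ' * (Fintype.card V : ℝ) ^ (r + 1) := by ring
      _ ≤ δ / 2 * (Fintype.card V : ℝ) ^ (r + 1) := mul_le_mul_of_nonneg_right hKθ hp.le
      _ ≤ δ * (Fintype.card V : ℝ) ^ (r + 1) := by nlinarith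
  · -- same class
    intro x y hx hxy
    obtain ⟨hdx, v, hv, hv1, hv2, hv3⟩ := hcls x hx
    obtain ⟨hdy, v', hv', hv1', hv2', hv3'⟩ := hcls y (hxy ▸ hx)
    have hvv : v = v' := hlab (by rw [← hv1, ← hv1', hxy])
    subst hvv
    have hRxy : RR c θ (a ^ 2 / 2) i x y := by
      by_cases hne : x = y
      · rw [← hne]; exact hself x hdx
      · by_contra hnot
        have hxF : x ∉ F.erase v := by
          intro h
          rw [mem_erase] at h
          exact h.1 (hv3 x h.2 (hself x hdx))
        have hyF : y ∉ F.erase v := by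
          intro h
          rw [mem_erase] at h
          exact h.1 (hv3' y h.2 (hself y hdy))
        have hInd : Ind c θ a i (insert x (insert y (F.erase v))) := by
          refine ⟨?_, ?_⟩
          · intro z hz
            rcases mem_insert.mp hz with rfl | hz
            · exact hdx
            rcases mem_insert.mp hz with rfl | hz
            · exact hdy
            · exact hFi.1 z (mem_of_mem_erase hz)
          · have key1 : ∀ z ∈ F.erase v, ¬ RR c θ (a ^ 2 / 2) i x z := by
              intro z hz hR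
              rw [mem_erase] at hz
              exact hz.1 (hv3 z hz.2 hR)
            have key2 : ∀ z ∈ F.erase v, ¬ RR c θ (a ^ 2 / 2) i y z := by
              intro z hz hR
              rw [mem_erase] at hz
              exact hz.1 (hv3' z hz.2 hR)
            intro z hz w hw hzw hR
            rcases mem_insert.mp hz with hz1 | hz1
            · rw [hz1] at hR hzw
              rcases mem_insert.mp hw with hw1 | hw1
              · exact hzw hw1.symm
              rcases mem_insert.mp hw1 with hw2 | hw2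
              · rw [hw2] at hR; exact hnot hR
              · exact key1 w hw2 hR
            rcases mem_insert.mp hz1 with hz2 | hz2
            · rw [hz2] at hR hzw
              rcases mem_insert.mp hw with hw1 | hw1
              · rw [hw1] at hR; exact hnot hR.symm
              rcases mem_insert.mp hw1 with hw2 | hw2
              · exact hzw hw2.symm
              · exact key2 w hw2 hR
            · rcases mem_insert.mp hw with hw1 | hw1
              · rw [hw1] at hR; exact key1 z hz2 hR.symm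
              rcases mem_insert.mp hw1 with hw2 | hw2
              · rw [hw2] at hR; exact key2 z hz2 hR.symm
              · exact hFi.2 z (mem_of_mem_erase hz2) w (mem_of_mem_erase hw2) hzw hR
        have h1 := hFmax _ hInd
        rw [card_insert_of_notMem, card_insert_of_notMem hyF, card_erase_of_mem hv] at h1
        · have : 0 < F.card := card_pos.mpr ⟨v, hv⟩
          omega
        · rw [mem_insert]
          push Not
          exact ⟨hne, hxF⟩
    have h1 : Rel c (len i) (sq' r θ (a ^ 2 / 2) i₁) x y :=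
      Rel.mono hRxy (hi₁ i (by simp; omega))
    unfold Rel at h1
    have h2 : (Fintype.card V : ℝ) ^ (r * (len i - 1)) = NN V r ^ (len i - 1) := by
      unfold NN; rw [← pow_mul]
    rw [h2]
    exact h1

end Pool.Agent.Lib.MP_952639_co
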