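import Pool.Agent.Lib.MP_952639_co.Defs

/-!
# The Johnson graph has no `ZMod 2`-cohomology in degree one
-/

namespace Pool.Agent.Lib.MP_952639_co

open Finset

section

variable {S : Type*} [DecidableEq S]

lemma JAdj.symm {r : ℕ} {a b : Finset S} (h : JAdj r a b) : JAdj r b a := by
  obtain ⟨ha, hb, x, hx, y, hy, rfl⟩ := h
  refine ⟨hb, ha, y, mem_insert_self _ _, x, ?_, ?_⟩
  · intro h
    rcases mem_insert.mp h with h | h
    · exact hy (h ▸ hx)
    · exact absurd h (notMem_erase _ _)
  · rw [erase_insert (fun h => hy (mem_of_mem_erase h)), insert_erase hx]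

lemma JAdj.card_left {r : ℕ} {a b : Finset S} (h : JAdj r a b) : a.card = r := h.1

lemma JAdj.card_right {r : ℕ} {a b : Finset S} (h : JAdj r a b) : b.card = r := h.2.1

lemma JAdj.ne {r : ℕ} {a b : Finset S} (h : JAdj r a b) : a ≠ b := by
  obtain ⟨_, _, x, hx, y, hy, rfl⟩ := h
  intro h
  exact hy (h ▸ mem_insert_self _ _)

/-- Two sets obtained by adding one element to a common `r`-set are adjacent. -/
lemma jadj_insert {r : ℕ} {g : Finset S} (hg : g.card = r) {x y : S} (hx : x ∉ g) (hy : y ∉ g)
    (hxy : x ≠ y) : JAdj (r + 1) (insert x g) (insert y g) := by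
  refine ⟨by rw [card_insert_of_notMem hx, hg], by rw [card_insert_of_notMem hy, hg], x,
    mem_insert_self _ _, y, ?_, by rw [erase_insert hx]⟩
  intro h
  rcases mem_insert.mp h with h | h
  · exact hxy h.symm
  · exact hy h

/-- Two sets obtained by deleting one element of a common `r+1`-set are adjacent. -/
lemma jadj_erase {r : ℕ} {g : Finset S} (hg : g.card = r + 1) {x y : S} (hx : x ∈ g)
    (hy : y ∈ g) (hxy : x ≠ y) : JAdj r (g.erase x) (g.erase y) := by
  refine ⟨by rw [card_erase_of_mem hx, hg]; rfl, by rw [card_erase_of_mem hy, hg]; rfl, y,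
    mem_erase.mpr ⟨hxy.symm, hy⟩, x, notMem_erase _ _, ?_⟩
  ext z
  simp only [mem_erase, mem_insert]
  constructor
  · rintro ⟨hzy, hz⟩
    by_cases hzx : z = x
    · exact Or.inl hzx
    · exact Or.inr ⟨hzy, hzx, hz⟩
  · rintro (rfl | ⟨hzy, hzx, hz⟩)
    · exact ⟨hxy, hx⟩
    · exact ⟨hzy, hz⟩

/-- A `ZMod 2`-cocycle on the Johnson graph of `r`-subsets of `s` is a coboundary. -/
theorem exists_potential (r : ℕ) : ∀ (s : Finset S) (χ : Finset S → Finset S → ZMod 2),
    (∀ a b, χ a b = χ b a) →
    (∀ a b d, a ⊆ s → b ⊆ s → d ⊆ s → JAdj r a b → JAdj r b d → JAdj r a d →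
      χ a b + χ b d + χ a d = 0) →
    ∃ φ : Finset S → ZMod 2, ∀ a b, a ⊆ s → b ⊆ s → JAdj r a b → φ a + φ b = χ a b := by
  induction r with
  | zero =>
    intro s χ _ _
    refine ⟨fun _ => 0, fun a b _ _ h => ?_⟩
    obtain ⟨ha, _, x, hx, _⟩ := h
    rw [card_eq_zero] at ha
    subst ha
    exact absurd hx (notMem_empty _)
  | succ r ih =>
    intro s χ hsymm htri
    rcases s.eq_empty_or_nonempty with rfl | ⟨v, hv⟩
    · refine ⟨fun _ => 0, fun a b ha _ h => ?_⟩
      obtain ⟨_, _, x, hx, _⟩ := h
      exact absurd (ha hx) (notMem_empty _)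
    have hsub : ∀ g : Finset S, g ⊆ s.erase v → v ∉ g := fun g hg h =>
      notMem_erase v s (hg h)
    have hsub' : ∀ g : Finset S, g ⊆ s.erase v → insert v g ⊆ s := fun g hg =>
      insert_subset hv (hg.trans (erase_subset _ _))
    have hadj : ∀ g h : Finset S, g ⊆ s.erase v → h ⊆ s.erase v → JAdj r g h →
        JAdj (r + 1) (insert v g) (insert v h) := by
      intro g h hg hh hgh
      obtain ⟨hgc, hhc, x, hx, y, hy, rfl⟩ := hgh
      have hvg := hsub g hg
      have hvy : v ≠ y := by
        intro h
        exact hsub _ hh (h ▸ mem_insert_self _ _)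
      refine ⟨by rw [card_insert_of_notMem hvg, hgc],
        by rw [card_insert_of_notMem (hsub _ hh), hhc], x, mem_insert_of_mem hx, y, ?_, ?_⟩
      · intro h
        rcases mem_insert.mp h with h | h
        · exact hvy h.symm
        · exact hy h
      · have hvx : v ≠ x := by rintro rfl; exact hvg hx
        rw [erase_insert_of_ne hvx, insert_comm]
    obtain ⟨ψ, hψ⟩ := ih (s.erase v) (fun g h => χ (insert v g) (insert v h))
      (fun a b => hsymm _ _) (fun a b d ha hb hd hab hbd had =>
        htri _ _ _ (hsub' _ ha) (hsub' _ hb) (hsub' _ hd) (hadj _ _ ha hb hab)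
          (hadj _ _ hb hd hbd) (hadj _ _ ha hd had))
    have two : ∀ x : ZMod 2, x + x = 0 := CharTwo.add_self_eq_zero
    -- the value does not depend on the erased element
    have hindep : ∀ e : Finset S, e ⊆ s.erase v → e.card = r + 1 → ∀ x ∈ e, ∀ y ∈ e,
        ψ (e.erase x) + χ e (insert v (e.erase x)) = ψ (e.erase y) + χ e (insert v (e.erase y)) := by
      intro e he hec x hx y hy
      by_cases hxy : x = y
      · rw [hxy]
      have hve := hsub e he
      have hex : e.erase x ⊆ s.erase v := (erase_subset _ _).trans he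
      have hey : e.erase y ⊆ s.erase v := (erase_subset _ _).trans he
      have h1 := hψ _ _ hex hey (jadj_erase hec hx hy hxy)
      have hexv : ∀ z ∈ e, JAdj (r + 1) e (insert v (e.erase z)) := by
        intro z hz
        refine ⟨hec, ?_, z, hz, v, hve, rfl⟩
        rw [card_insert_of_notMem (fun h => hve (mem_of_mem_erase h)), card_erase_of_mem hz, hec]
        rfl
      have h2 := htri e (insert v (e.erase x)) (insert v (e.erase y))
        (he.trans (erase_subset _ _)) (hsub' _ hex) (hsub' _ hey) (hexv x hx)
        (hadj _ _ hex hey (jadj_erase hec hx hy hxy)) (hexv y hy)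
      rw [← h1] at h2
      linear_combination h2 - two (ψ (e.erase y)) - two (χ e (insert v (e.erase y)))
    classical
    let φ : Finset S → ZMod 2 := fun e =>
      if v ∈ e then ψ (e.erase v) else
        if h : e.Nonempty then ψ (e.erase h.choose) + χ e (insert v (e.erase h.choose)) else 0
    have hφ1 : ∀ g : Finset S, g ⊆ s.erase v → φ (insert v g) = ψ g := by
      intro g hg
      simp only [φ]
      rw [if_pos (mem_insert_self _ _), erase_insert (hsub g hg)]
    have hφ2 : ∀ e : Finset S, e ⊆ s.erase v → e.card = r + 1 → ∀ x ∈ e,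
        φ e = ψ (e.erase x) + χ e (insert v (e.erase x)) := by
      intro e he hec x hx
      have hne : e.Nonempty := ⟨x, hx⟩
      simp only [φ]
      rw [if_neg (hsub e he), dif_pos hne]
      exact hindep e he hec _ hne.choose_spec x hx
    refine ⟨φ, ?_⟩
    -- reduce to three cases
    have hcase : ∀ a b, a ⊆ s → b ⊆ s → JAdj (r + 1) a b → v ∉ b → φ a + φ b = χ a b := by
      intro a b ha hb hab hvb
      obtain ⟨hac, hbc, x, hx, y, hy, rfl⟩ := hab
      have hb' : insert y (a.erase x) ⊆ s.erase v := fun z hz =>
        mem_erase.mpr ⟨fun h => hvb (h ▸ hz), hb hz⟩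
      have hg : a.erase x ⊆ s.erase v := (subset_insert _ _).trans hb'
      have hya : y ∉ a.erase x := fun h => hy (mem_of_mem_erase h)
      have hb2 := hφ2 _ hb' hbc y (mem_insert_self _ _)
      rw [erase_insert hya] at hb2
      by_cases hva : v ∈ a
      · -- then `x = v`
        have hxv : x = v := by
          by_contra h
          exact hsub _ hg (mem_erase.mpr ⟨fun h' => h h'.symm, hva⟩)
        subst hxv
        have h1 := hφ1 _ hg
        rw [insert_erase hx] at h1 hb2
        rw [h1, hb2, hsymm a]
        linear_combination two (ψ (a.erase x))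
      · have ha' : a ⊆ s.erase v := fun z hz => mem_erase.mpr ⟨fun h => hva (h ▸ hz), ha hz⟩
        have ha2 := hφ2 _ ha' hac x hx
        have hvb' : JAdj (r + 1) (insert y (a.erase x)) (insert v (a.erase x)) := by
          apply jadj_insert _ hya (hsub _ hg)
          · rintro rfl
            exact hvb (mem_insert_self _ _)
          · rw [card_erase_of_mem hx, hac]; rfl
        have hva' : JAdj (r + 1) a (insert v (a.erase x)) :=
          ⟨hac, hvb'.2.1, x, hx, v, hva, rfl⟩
        have h3 := htri a (insert y (a.erase x)) (insert v (a.erase x)) ha hb (hsub' _ hg)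
          ⟨hac, hbc, x, hx, y, hy, rfl⟩ hvb' hva'
        rw [ha2, hb2]
        linear_combination h3 + two (ψ (a.erase x)) - two (χ a (insert y (a.erase x)))
    intro a b ha hb hab
    by_cases hvb : v ∈ b
    · by_cases hva : v ∈ a
      · -- both contain `v`
        obtain ⟨hac, hbc, x, hx, y, hy, rfl⟩ := hab
        have hvy : v ≠ y := by rintro rfl; exact hy hva
        have hvx : v ≠ x := by
          rintro rfl
          rcases mem_insert.mp hvb with h | h
          · exact hvy h
          · exact absurd h (notMem_erase _ _)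
        have ha1 : a = insert v (a.erase v) := (insert_erase hva).symm
        have hg : a.erase v ⊆ s.erase v := erase_subset_erase _ ha
        have hb1 : insert y (a.erase x) = insert v ((insert y (a.erase x)).erase v) :=
          (insert_erase hvb).symm
        have hh : (insert y (a.erase x)).erase v ⊆ s.erase v := erase_subset_erase _ hb
        have hadj2 : JAdj r (a.erase v) ((insert y (a.erase x)).erase v) := by
          refine ⟨by rw [card_erase_of_mem hva, hac]; rfl,
            by rw [card_erase_of_mem hvb, hbc]; rfl, x, mem_erase.mpr ⟨hvx.symm, hx⟩, y,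
            fun h => hy (mem_of_mem_erase h), ?_⟩
          rw [erase_insert_of_ne hvy.symm, erase_right_comm]
        have h1 := hφ1 _ hg
        have h2 := hφ1 _ hh
        have h3 := hψ _ _ hg hh hadj2
        rw [← ha1] at h1
        rw [← hb1] at h2
        rw [h1, h2, h3, ← ha1, ← hb1]
      · have := hcase b a hb ha hab.symm hva
        rw [add_comm, this, hsymm]
    · exact hcase a b ha hb hab hvb

end

end Pool.Agent.Lib.MP_952639_co
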