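import Pool.Agent.Lib.MP_952639_co.ConnectB

/-!
# Connecting the blocks to two monochromatic tight cycles
-/

namespace Pool.Agent.Lib.MP_952639_co

open Finset

/-- A cyclic `Adj`-walk of tuples. -/
def IsCyc {V : Type*} [DecidableEq V] {r : ℕ} (c : Finset V → Bool) (P : List (Fin r → V)) :
    Prop :=
  P.IsChain (Adj c) ∧ ∀ h : P ≠ [], Adj c (P.getLast h) (P.head h)

lemma chain_flatMap {α J : Type*} {R : α → α → Prop} (f : J → List α) (st : J → α) (nx : J → J)
    (hf : ∀ j, (f j ++ [st (nx j)]).IsChain R) (hh : ∀ j, ∃ l, f j = st j :: l) :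
    ∀ (ts : List J) (hts : ts ≠ []), ts.IsChain (fun a b => nx a = b) →
      (ts.flatMap f ++ [st (nx (ts.getLast hts))]).IsChain R := by
  intro ts
  induction ts with
  | nil => intro h; exact absurd rfl h
  | cons a ts ih =>
    intro _ hch
    cases ts with
    | nil => simpa using hf a
    | cons a' ts =>
      rw [List.isChain_cons_cons] at hch
      have h1 := ih (by simp) hch.2
      obtain ⟨l, hl⟩ := hh a'
      have e : (a :: a' :: ts).flatMap f ++ [st (nx ((a :: a' :: ts).getLast (by simp)))] =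
          f a ++ st a' :: (l ++ ts.flatMap f ++
            [st (nx ((a' :: ts).getLast (by simp)))]) := by
        simp [List.flatMap_cons, hl]
      have e' : (a' :: ts).flatMap f ++ [st (nx ((a' :: ts).getLast (by simp)))] =
          st a' :: (l ++ ts.flatMap f ++ [st (nx ((a' :: ts).getLast (by simp)))]) := by
        simp [List.flatMap_cons, hl]
      rw [e, List.isChain_split]
      refine ⟨?_, ?_⟩
      · have := hf a
        rwa [hch.1] at this
      · rw [← e']; exact h1

lemma isCyc_of_chain {V : Type*} [DecidableEq V] {r : ℕ} {c : Finset V → Bool}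
    {P : List (Fin r → V)} {y : Fin r → V} (h : (P ++ [y]).IsChain (Adj c))
    (hy : ∀ h : P ≠ [], P.head h = y) : IsCyc c P := by
  refine ⟨h.left_of_append, fun hP => ?_⟩
  rw [hy hP]
  exact h.rel_getLast_head_of_append hP (by simp)

variable {V : Type*} [Fintype V] [DecidableEq V] {r : ℕ}

theorem cycles_of_good (hr : 1 ≤ r) (cc : ℝ) (hcc : 0 < cc) (c : Finset V → Bool)
    (A : Bool → Finset (Fin r → V)) (l : ℕ) (hV : 0 < Fintype.card V)
    (h1 : ∀ b, ∀ x ∈ A b, ∃ κ, Col c κ x)
    (h2 : ∀ b, ∀ x ∈ A b, ∀ y ∈ A b, c (univ.image x) = c (univ.image y))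
    (h3 : ∀ b, ∀ x ∈ A b, ∀ y ∈ A b,
      cc * (Fintype.card V : ℝ) ^ (r * l) ≤ (AM r c ^ (l + 1)) x y)
    {J : Type} [Fintype J] [DecidableEq J] (b : J → Bool) (D : J → Fin r → Finset V) (m : J → ℕ)
    (hm2 : ∀ j, 2 ≤ m j) (hDm : ∀ j i, (D j i).card = m j)
    (hD : ∀ j i j' i', (j, i) ≠ (j', i') → Disjoint (D j i) (D j' i'))
    (hDA : ∀ j (x : Fin r → V), (∀ i, x i ∈ D j i) → x ∈ A (b j))
    (hF : r * ((2 * r * Fintype.card J : ℝ) + r * l * Fintype.card J + r * (l + 1)) ≤
      (Fintype.card V : ℝ) * cc / 2 ^ (l + 1)) :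
    ∃ P : Bool → List (Fin r → V),
        (∀ b, IsCyc c (P b)) ∧
        (∀ b, ∀ h : P b ≠ [], (P b).head h ∈ A b ∧ 2 ≤ (P b).length) ∧
        ((P true ++ P false).flatMap List.ofFn).Nodup ∧
        ∑ j, r * m j ≤
          ((P true ++ P false).flatMap List.ofFn).length + r * (Fintype.card J * (r * l)) := by
  -- start and end tuples
  have hex : ∀ j i, ∃ p : V × V, p.1 ∈ D j i ∧ p.2 ∈ D j i ∧ p.1 ≠ p.2 := by
    intro j i
    have : 1 < (D j i).card := by rw [hDm]; exact hm2 j
    obtain ⟨a, ha, a', ha', haa⟩ := Finset.one_lt_card.mp this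
    exact ⟨(a, a'), ha, ha', haa⟩
  choose p hp1 hp2 hp3 using hex
  set s : J → Fin r → V := fun j i => (p j i).1 with hs
  set e : J → Fin r → V := fun j i => (p j i).2 with he
  have hsA : ∀ j, s j ∈ A (b j) := fun j => hDA j _ (fun i => hp1 j i)
  have heA : ∀ j, e j ∈ A (b j) := fun j => hDA j _ (fun i => hp2 j i)
  -- successor
  set ts : Bool → List J := fun β => (univ.filter fun j => b j = β).toList with hts
  have htsn : ∀ β, (ts β).Nodup := fun β => Finset.nodup_toList _
  have htsm : ∀ β j, j ∈ ts β ↔ b j = β := by intro β j; simp [hts]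
  set nx : J → J := fun j => (ts (b j)).formPerm j with hnx
  have hnxb : ∀ j, b (nx j) = b j := by
    intro j
    rw [← htsm (b j) (nx j)]
    exact List.formPerm_apply_mem_of_mem ((htsm _ _).mpr rfl)
  -- connectors
  set F0 : Finset V := univ.biUnion (fun j => univ.image (s j) ∪ univ.image (e j)) with hF0
  have hF0c : (F0.card : ℝ) ≤ 2 * r * Fintype.card J := by
    have : F0.card ≤ Fintype.card J * (2 * r) := by
      rw [hF0, ← card_univ (α := J)]
      apply card_biUnion_le_card_mul
      intro j _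
      refine (card_union_le _ _).trans ?_
      have h1 : (univ.image (s j)).card ≤ r := by simpa using card_image_le (s := univ) (f := s j)
      have h2 : (univ.image (e j)).card ≤ r := by simpa using card_image_le (s := univ) (f := e j)
      omega
    have h' : (F0.card : ℝ) ≤ ((Fintype.card J * (2 * r) : ℕ) : ℝ) := by exact_mod_cast this
    refine h'.trans (le_of_eq ?_)
    push_cast; ring
  obtain ⟨W, hW1, hW2⟩ := connectors c l cc hcc e (fun j => s (nx j)) F0 hV univ
    (fun j _ => h3 (b j) _ (heA j) _ (by rw [← hnxb j]; exact hsA (nx j))) (by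
      refine le_trans ?_ hF
      apply mul_le_mul_of_nonneg_left _ (Nat.cast_nonneg r)
      rw [card_univ]
      linarith)
  set X : Finset V := univ.biUnion (fun j => (vs (W j)).toFinset) with hX
  have hWX : ∀ j, ∀ v ∈ vs (W j), v ∈ X := fun j v hv =>
    mem_biUnion.mpr ⟨j, mem_univ j, List.mem_toFinset.mpr hv⟩
  have hXF : ∀ v ∈ X, v ∉ F0 := by
    intro v hv
    obtain ⟨j, -, hj⟩ := mem_biUnion.mp hv
    exact (hW1 j (mem_univ j)).2.2.2 v (List.mem_toFinset.mp hj)
  have hXc : X.card ≤ Fintype.card J * (r * l) := by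
    rw [hX, ← card_univ (α := J)]
    apply card_biUnion_le_card_mul
    intro j _
    refine (List.toFinset_card_le _).trans ?_
    rw [length_vs, (hW1 j (mem_univ j)).1]
  -- paths
  have hpath : ∀ j, ∃ I : List (Fin r → V), (∀ x ∈ s j :: (I ++ [e j]), ∀ i, x i ∈ D j i ∧ x i ∉ X) ∧
      (vs (s j :: (I ++ [e j]))).Nodup ∧
      m j ≤ I.length + 2 + (X ∩ univ.biUnion (D j)).card := by
    intro j
    refine exists_path (D j) (fun i i' hii => hD j i j i' (by simpa using hii)) (m j) (hDm j) X
      (s j) (e j) (fun i => hp1 j i) (fun i => hp2 j i) (fun i => hp3 j i) ?_ ?_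
    · intro i hi
      exact hXF _ hi (mem_biUnion.mpr ⟨j, mem_univ j,
        mem_union_left _ (mem_image_of_mem _ (mem_univ i))⟩)
    · intro i hi
      exact hXF _ hi (mem_biUnion.mpr ⟨j, mem_univ j,
        mem_union_right _ (mem_image_of_mem _ (mem_univ i))⟩)
  choose I hI1 hI2 hI3 using hpath
  set f : J → List (Fin r → V) := fun j => s j :: (I j ++ e j :: W j) with hf
  have hfe : ∀ j, f j = (s j :: (I j ++ [e j])) ++ W j := by intro j; simp [hf]
  -- chains
  have hadj : ∀ j (x y : Fin r → V), (∀ i, x i ∈ D j i) → (∀ i, y i ∈ D j i) → Adj c x y := by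
    intro j x y hx hy
    refine ⟨c (univ.image x), fun K => ?_⟩
    have hmix : mix x y K ∈ A (b j) := hDA j _ (fun i => by
      rw [mix]; split_ifs
      · exact hy i
      · exact hx i)
    obtain ⟨κ, hκ⟩ := h1 _ _ hmix
    exact ⟨hκ.1, h2 _ _ hmix _ (hDA j x hx)⟩
  have hfc : ∀ j, (f j ++ [s (nx j)]).IsChain (Adj c) := by
    intro j
    have e1 : f j ++ [s (nx j)] = (s j :: I j) ++ e j :: (W j ++ [s (nx j)]) := by simp [hf]
    rw [e1, List.isChain_split]
    refine ⟨?_, (hW1 j (mem_univ j)).2.1⟩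
    have e2 : (s j :: I j) ++ [e j] = s j :: (I j ++ [e j]) := by simp
    rw [e2]
    apply List.Pairwise.isChain
    have : (s j :: (I j ++ [e j])).Pairwise (fun _ _ => True) := by
      apply List.pairwise_of_forall
      simp
    refine this.imp_of_mem ?_
    intro x y hx hy _
    exact hadj j x y (fun i => (hI1 j x hx i).1) (fun i => (hI1 j y hy i).1)
  have hchain : ∀ β, (ts β).IsChain (fun a a' => nx a = a') := by
    intro β
    rw [List.isChain_iff_getElem]
    intro i hi
    have hb : b (ts β)[i] = β := (htsm β _).mp (List.getElem_mem _)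
    simp only [hnx]
    rw [hb]
    exact List.formPerm_apply_lt_getElem _ (htsn β) i hi
  set P : Bool → List (Fin r → V) := fun β => (ts β).flatMap f with hP
  set L := ts true ++ ts false with hL
  have hLn : L.Nodup := by
    rw [hL, List.nodup_append]
    refine ⟨htsn _, htsn _, ?_⟩
    intro j hj j' hj' hjj
    rw [htsm] at hj hj'
    rw [hjj, hj'] at hj
    exact absurd hj (by simp)
  have hLm : ∀ j, j ∈ L := by
    intro j
    rw [hL, List.mem_append, htsm, htsm]
    cases b j <;> simp
  have e0 : (P true ++ P false).flatMap List.ofFn = L.flatMap (fun j => vs (f j)) := by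
    rw [hP, hL]
    simp only []
    rw [← List.flatMap_append, List.flatMap_assoc]
  have hvsf : ∀ j, vs (f j) = vs (s j :: (I j ++ [e j])) ++ vs (W j) := by
    intro j
    rw [hfe, vs, List.flatMap_append]
  refine ⟨P, ?_, ?_, ?_, ?_⟩
  · intro β
    by_cases hne : ts β = []
    · have : P β = [] := by simp [hP, hne]
      rw [this]
      exact ⟨by simp, fun h => absurd rfl h⟩
    · have hc := chain_flatMap (R := Adj c) f s nx hfc (fun j => ⟨_, rfl⟩) (ts β) hne (hchain β)
      apply isCyc_of_chain hc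
      intro hPne
      have hb : b ((ts β).getLast hne) = β := (htsm β _).mp (List.getLast_mem hne)
      obtain ⟨t0, tl, htl⟩ := List.exists_cons_of_ne_nil hne
      have h5 : nx ((ts β).getLast hne) = t0 := by
        simp only [hnx]
        rw [hb]
        have := List.formPerm_apply_getLast t0 tl
        simp only [← htl] at this
        exact this
      rw [h5]
      simp [hP, htl, hf]
  · intro β hPne
    have hne : ts β ≠ [] := by
      intro h
      exact hPne (by simp [hP, h])
    obtain ⟨t0, tl, htl⟩ := List.exists_cons_of_ne_nil hne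
    have hb : b t0 = β := (htsm β _).mp (by rw [htl]; simp)
    constructor
    · have : (P β).head hPne = s t0 := by simp [hP, htl, hf]
      rw [this, ← hb]; exact hsA t0
    · simp only [hP, htl, List.flatMap_cons, hf, List.length_append, List.length_cons]
      omega
  · rw [e0, List.nodup_flatMap]
    refine ⟨fun j _ => ?_, ?_⟩
    · rw [hvsf, List.nodup_append]
      refine ⟨hI2 j, (hW1 j (mem_univ j)).2.2.1, ?_⟩
      intro v hv v' hv' hvv
      subst hvv
      obtain ⟨x, hx, i, rfl⟩ := mem_vs.mp hv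
      exact (hI1 j x hx i).2 (hWX j _ hv')
    · have : L.Pairwise (fun a a' => a ≠ a') := hLn
      refine this.imp ?_
      intro j j' hjj v hv hv'
      simp only [] at hv hv'
      rw [hvsf, List.mem_append] at hv hv'
      rcases hv with hv | hv
      · obtain ⟨x, hx, i, rfl⟩ := mem_vs.mp hv
        rcases hv' with hv' | hv'
        · obtain ⟨x', hx', i', hxx⟩ := mem_vs.mp hv'
          have h5 := hD j i j' i' (by simp [hjj])
          rw [Finset.disjoint_left] at h5
          exact h5 (hI1 j x hx i).1 (hxx ▸ (hI1 j' x' hx' i').1)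
        · exact (hI1 j x hx i).2 (hWX j' _ hv')
      · rcases hv' with hv' | hv'
        · obtain ⟨x', hx', i', rfl⟩ := mem_vs.mp hv'
          exact (hI1 j' x' hx' i').2 (hWX j _ hv)
        · exact hW2 j (mem_univ j) j' (mem_univ j') hjj v hv hv'
  · rw [e0, List.length_flatMap]
    have hsum : (L.map (fun j => (vs (f j)).length)).sum = ∑ j, (vs (f j)).length := by
      rw [← List.sum_toFinset _ hLn]
      congr 1
      ext j; simp [hLm j]
    rw [hsum]
    have hone : ∀ j, r * m j ≤ (vs (f j)).length + r * (X ∩ univ.biUnion (D j)).card := by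
      intro j
      rw [length_vs]
      have h6 : m j ≤ (f j).length + (X ∩ univ.biUnion (D j)).card := by
        have := hI3 j
        simp only [hf, List.length_cons, List.length_append]
        omega
      calc r * m j ≤ r * ((f j).length + (X ∩ univ.biUnion (D j)).card) :=
            Nat.mul_le_mul_left _ h6
        _ = _ := by ring
    have hXs : ∑ j, (X ∩ univ.biUnion (D j)).card ≤ X.card := by
      rw [← card_biUnion]
      · apply card_le_card
        intro v hv
        obtain ⟨j, -, hj⟩ := mem_biUnion.mp hv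
        exact (mem_inter.mp hj).1
      · intro j _ j' _ hjj
        rw [Function.onFun, Finset.disjoint_left]
        intro v hv hv'
        obtain ⟨i, -, hi⟩ := mem_biUnion.mp (mem_inter.mp hv).2
        obtain ⟨i', -, hi'⟩ := mem_biUnion.mp (mem_inter.mp hv').2
        exact (Finset.disjoint_left.mp (hD j i j' i' (by simp [hjj]))) hi hi'
    calc ∑ j, r * m j ≤ ∑ j, ((vs (f j)).length + r * (X ∩ univ.biUnion (D j)).card) :=
          Finset.sum_le_sum fun j _ => hone j
      _ = ∑ j, (vs (f j)).length + r * ∑ j, (X ∩ univ.biUnion (D j)).card := by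
          rw [Finset.sum_add_distrib, Finset.mul_sum]
      _ ≤ _ := by
          apply Nat.add_le_add_left
          exact Nat.mul_le_mul_left _ (hXs.trans hXc)

/-- MODULE Connect -/
theorem exists_cycles (r : ℕ) (hr : 1 ≤ r) (cc : ℝ) (hcc : 0 < cc) (L : ℕ) (ε : ℝ) (hε : 0 < ε) :
    ∃ (ν : ℝ) (n₀ : ℕ), 0 < ν ∧ ∀ (V : Type) [Fintype V] [DecidableEq V], n₀ ≤ Fintype.card V →
      ∀ (c : Finset V → Bool) (A : Bool → Finset (Fin r → V)) (l : ℕ), 1 ≤ l → l ≤ L →
      (∀ b, ∀ x ∈ A b, ∃ κ, Col c κ x) →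
      (∀ b, ∀ x ∈ A b, ∀ y ∈ A b, c (univ.image x) = c (univ.image y)) →
      (∀ b, ∀ x ∈ A b, ∀ y ∈ A b,
        cc * (Fintype.card V : ℝ) ^ (r * (l - 1)) ≤ (AM r c ^ l) x y) →
      ∀ (T : ℕ) (b : Fin T → Bool) (D : Fin T → Fin r → Finset V) (m : Fin T → ℕ),
        (T : ℝ) ≤ ν * Fintype.card V →
        (∀ t i, (D t i).card = m t) →
        (∀ t i t' i', (t, i) ≠ (t', i') → Disjoint (D t i) (D t' i')) →
        (∀ t (x : Fin r → V), (∀ i, x i ∈ D t i) → x ∈ A (b t)) →
      ∃ P : Bool → List (Fin r → V),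
        (∀ b, IsCyc c (P b)) ∧
        (∀ b, ∀ h : P b ≠ [], (P b).head h ∈ A b ∧ 2 ≤ (P b).length) ∧
        ((P true ++ P false).flatMap List.ofFn).Nodup ∧
        ∑ t, (r : ℝ) * m t - ε * Fintype.card V ≤
          (((P true ++ P false).flatMap List.ofFn).length : ℝ) := by
  set a1 : ℝ := r + r * (r * L) + 1 with ha1
  set a2 : ℝ := 2 ^ (L + 1) * (r * (2 * r + r * L) + 1) with ha2
  have ha1p : 0 < a1 := by positivity
  have ha2p : 0 < a2 := by positivity
  refine ⟨min (ε / a1) (cc / a2), ⌈(r * (r * L) : ℝ) * 2 ^ (L + 1) / cc⌉₊ + 1, by positivity, ?_⟩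
  intro V _ _ hn c A l hl1 hlL h1 h2 h3 T b D m hT hDm hD hDA
  obtain ⟨l, rfl⟩ : ∃ k, l = k + 1 := ⟨l - 1, by omega⟩
  simp only [Nat.add_sub_cancel] at h3
  set n : ℝ := (Fintype.card V : ℝ) with hndef
  have hn1 : (r * (r * L) : ℝ) * 2 ^ (L + 1) / cc ≤ n := by
    have h5 := Nat.le_ceil ((r * (r * L) : ℝ) * 2 ^ (L + 1) / cc)
    have h6 : ((⌈(r * (r * L) : ℝ) * 2 ^ (L + 1) / cc⌉₊ : ℕ) : ℝ) ≤ n := by
      rw [hndef]
      exact_mod_cast (by omega : ⌈(r * (r * L) : ℝ) * 2 ^ (L + 1) / cc⌉₊ ≤ Fintype.card V)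
    linarith
  have hVpos : 0 < Fintype.card V := by omega
  have hn0 : 0 < n := by rw [hndef]; exact_mod_cast hVpos
  set J := {t : Fin T // 2 ≤ m t} with hJ
  have hJT : (Fintype.card J : ℝ) ≤ T := by
    have : Fintype.card J ≤ T := by
      simpa using Fintype.card_subtype_le (fun t : Fin T => 2 ≤ m t)
    exact_mod_cast this
  have hT1 : (T : ℝ) * a1 ≤ ε * n := by
    have : (T : ℝ) ≤ ε / a1 * n :=
      hT.trans (mul_le_mul_of_nonneg_right (min_le_left _ _) hn0.le)
    calc (T : ℝ) * a1 ≤ (ε / a1 * n) * a1 := mul_le_mul_of_nonneg_right this ha1p.le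
      _ = ε * n := by field_simp
  have hT2 : (T : ℝ) * a2 ≤ cc * n := by
    have : (T : ℝ) ≤ cc / a2 * n :=
      hT.trans (mul_le_mul_of_nonneg_right (min_le_right _ _) hn0.le)
    calc (T : ℝ) * a2 ≤ (cc / a2 * n) * a2 := mul_le_mul_of_nonneg_right this ha2p.le
      _ = cc * n := by field_simp
  have hlL' : (l : ℝ) + 1 ≤ L := by exact_mod_cast hlL
  have hTn : (0 : ℝ) ≤ T := Nat.cast_nonneg T
  have hcJ : (0 : ℝ) ≤ Fintype.card J := Nat.cast_nonneg _
  have hrn : (0 : ℝ) ≤ r := Nat.cast_nonneg r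
  have hF : r * ((2 * r * Fintype.card J : ℝ) + r * l * Fintype.card J + r * (l + 1)) ≤
      n * cc / 2 ^ (l + 1) := by
    have hA : n * cc / 2 ^ L ≤ n * cc / 2 ^ (l + 1) := by
      apply div_le_div_of_nonneg_left (by positivity) (by positivity)
      exact pow_le_pow_right₀ (by norm_num) hlL
    have hB : r * ((2 * r * Fintype.card J : ℝ) + r * l * Fintype.card J + r * (l + 1)) ≤
        (r * (2 * r + r * L)) * T + r * (r * L) := by
      have hb1 : (2 * r + r * l : ℝ) * Fintype.card J ≤ (2 * r + r * L) * T := by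
        apply mul_le_mul _ hJT hcJ (by positivity)
        have : (r : ℝ) * l ≤ r * L := mul_le_mul_of_nonneg_left (by linarith) hrn
        linarith
      have hb2 : (r : ℝ) * (l + 1) ≤ r * L := mul_le_mul_of_nonneg_left hlL' hrn
      calc r * ((2 * r * Fintype.card J : ℝ) + r * l * Fintype.card J + r * (l + 1))
          = r * ((2 * r + r * l : ℝ) * Fintype.card J + r * (l + 1)) := by ring
        _ ≤ r * ((2 * r + r * L) * T + r * L) :=
            mul_le_mul_of_nonneg_left (by linarith) hrn
        _ = _ := by ring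
    have hC : 2 * ((r * (2 * r + r * L)) * T) ≤ n * cc / 2 ^ L := by
      rw [le_div_iff₀ (by positivity)]
      have : (T : ℝ) * a2 = 2 * (r * (2 * r + r * L) * T) * 2 ^ L + T * 2 ^ (L + 1) := by
        rw [ha2, pow_succ]; ring
      have h0 : (0 : ℝ) ≤ T * 2 ^ (L + 1) := by positivity
      linarith
    have hE : 2 * (r * (r * L) : ℝ) ≤ n * cc / 2 ^ L := by
      rw [le_div_iff₀ (by positivity)]
      rw [div_le_iff₀ hcc] at hn1
      rw [pow_succ] at hn1
      linarith
    linarith
  obtain ⟨P, hP1, hP2, hP3, hP4⟩ := cycles_of_good hr cc hcc c A l hVpos h1 h2 h3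
    (J := J) (fun j => b j.1) (fun j => D j.1) (fun j => m j.1) (fun j => j.2)
    (fun j i => hDm j.1 i)
    (fun j i j' i' hne => hD j.1 i j'.1 i' (by
      intro h
      apply hne
      rw [Prod.mk.injEq] at h ⊢
      exact ⟨Subtype.ext h.1, h.2⟩))
    (fun j x hx => hDA j.1 x hx) hF
  refine ⟨P, hP1, hP2, hP3, ?_⟩
  have hsum : ∑ t, (r : ℝ) * m t ≤ ∑ j : J, (r : ℝ) * m j.1 + r * T := by
    have e1 : ∑ j : J, (r : ℝ) * m j.1 = ∑ t ∈ univ.filter (fun t => 2 ≤ m t), (r : ℝ) * m t :=
      (Finset.sum_subtype (univ.filter (fun t => 2 ≤ m t)) (by intro x; simp)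
        (fun t => (r : ℝ) * m t)).symm
    rw [e1, ← Finset.sum_filter_add_sum_filter_not univ (fun t => 2 ≤ m t)]
    have e2 : ∑ t ∈ univ.filter (fun t => ¬ 2 ≤ m t), (r : ℝ) * m t ≤ r * T := by
      calc ∑ t ∈ univ.filter (fun t => ¬ 2 ≤ m t), (r : ℝ) * m t
          ≤ ∑ t ∈ univ.filter (fun t => ¬ 2 ≤ m t), (r : ℝ) * 1 := by
            apply Finset.sum_le_sum
            intro t ht
            apply mul_le_mul_of_nonneg_left _ hrn
            have : m t ≤ 1 := by
              have := (mem_filter.mp ht).2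
              omega
            exact_mod_cast this
        _ = ((univ.filter (fun t => ¬ 2 ≤ m t)).card : ℝ) * r := by
            rw [Finset.sum_const, nsmul_eq_mul]; ring
        _ ≤ (T : ℝ) * r := by
            apply mul_le_mul_of_nonneg_right _ hrn
            have := card_filter_le (univ : Finset (Fin T)) (fun t => ¬ 2 ≤ m t)
            rw [card_univ, Fintype.card_fin] at this
            exact_mod_cast this
        _ = r * T := by ring
    linarith
  have h4' : ∑ j : J, (r : ℝ) * m j.1 ≤
      (((P true ++ P false).flatMap List.ofFn).length : ℝ) +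
        r * (Fintype.card J * (r * l)) := by exact_mod_cast hP4
  have h5 : r * (Fintype.card J * (r * l) : ℝ) + r * T ≤ T * a1 := by
    have h6 : (Fintype.card J : ℝ) * (r * l) ≤ T * (r * L) := by
      apply mul_le_mul hJT _ (by positivity) hTn
      exact mul_le_mul_of_nonneg_left (by linarith) hrn
    have h7 := mul_le_mul_of_nonneg_left h6 hrn
    rw [ha1]
    nlinarith
  linarith

end Pool.Agent.Lib.MP_952639_co
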