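import Pool.Agent.Lib.MP_952639_co.Defs

/-!
# Connector lemma
-/

namespace Pool.Agent.Lib.MP_952639_co

open Finset

/-- the vertices of a list of tuples. -/
abbrev vs {V : Type*} {r : ℕ} (l : List (Fin r → V)) : List V := l.flatMap List.ofFn

lemma mem_vs {V : Type*} {r : ℕ} {l : List (Fin r → V)} {v : V} :
    v ∈ vs l ↔ ∃ x ∈ l, ∃ i, x i = v := by
  simp [vs, List.mem_flatMap, List.mem_ofFn]

lemma nodup_vs_iff {V : Type*} {r : ℕ} {l : List (Fin r → V)} :
    (vs l).Nodup ↔ (∀ x ∈ l, Function.Injective x) ∧
      l.Pairwise (fun x y => ∀ i j, x i ≠ y j) := by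
  rw [vs, List.nodup_flatMap]
  constructor
  · rintro ⟨h1, h2⟩
    refine ⟨fun x hx => List.nodup_ofFn.mp (h1 x hx), h2.imp ?_⟩
    intro x y hxy i j h
    exact hxy (List.mem_ofFn.mpr ⟨i, rfl⟩) (List.mem_ofFn.mpr ⟨j, h.symm⟩)
  · rintro ⟨h1, h2⟩
    refine ⟨fun x hx => List.nodup_ofFn.mpr (h1 x hx), h2.imp ?_⟩
    intro x y hxy v hv hv'
    obtain ⟨i, hi⟩ := List.mem_ofFn.mp hv
    obtain ⟨j, hj⟩ := List.mem_ofFn.mp hv'
    exact hxy i j (hi.trans hj.symm)

lemma length_vs {V : Type*} {r : ℕ} (l : List (Fin r → V)) : (vs l).length = r * l.length := by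
  induction l with
  | nil => simp [vs]
  | cons a l ih =>
    have : vs (a :: l) = List.ofFn a ++ vs l := by simp [vs]
    rw [this, List.length_append, ih, List.length_ofFn, List.length_cons]; ring

variable {V : Type*} [Fintype V] [DecidableEq V] {r : ℕ}

omit [Fintype V] in
lemma Adj.right_inj {c : Finset V → Bool} {x y : Fin r → V} (h : Adj c x y) :
    Function.Injective y := by
  obtain ⟨κ, hκ⟩ := h
  have := (hκ univ).1
  have e : mix x y univ = y := by ext i; simp [mix]
  rwa [e] at this

lemma AM_pow_nonneg (c : Finset V → Bool) (l : ℕ) (x y : Fin r → V) :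
    0 ≤ (AM r c ^ l) x y := by
  induction l generalizing x with
  | zero => rw [pow_zero, Matrix.one_apply]; split_ifs <;> norm_num
  | succ l ih =>
    rw [pow_succ', Matrix.mul_apply]
    apply Finset.sum_nonneg
    intro w _
    apply mul_nonneg _ (ih w)
    rw [AM]; split_ifs <;> norm_num

lemma AM_pow_le (c : Finset V → Bool) (l : ℕ) (x y : Fin r → V) :
    (AM r c ^ (l + 1)) x y ≤ (Fintype.card V : ℝ) ^ (r * l) := by
  induction l generalizing x with
  | zero =>
    rw [zero_add, pow_one, mul_zero, pow_zero, AM]
    split_ifs <;> norm_num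
  | succ l ih =>
    rw [pow_succ', Matrix.mul_apply]
    calc ∑ w, AM r c x w * (AM r c ^ (l + 1)) w y
        ≤ ∑ _w : Fin r → V, (Fintype.card V : ℝ) ^ (r * l) := by
          apply Finset.sum_le_sum
          intro w _
          have h1 : AM r c x w ≤ 1 := by rw [AM]; split_ifs <;> norm_num
          calc AM r c x w * (AM r c ^ (l + 1)) w y ≤ 1 * (AM r c ^ (l + 1)) w y :=
                mul_le_mul_of_nonneg_right h1 (AM_pow_nonneg c _ _ _)
            _ ≤ _ := by rw [one_mul]; exact ih w
      _ = (Fintype.card V : ℝ) ^ (r * (l + 1)) := by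
          rw [Finset.sum_const, card_univ, Fintype.card_fun, Fintype.card_fin, nsmul_eq_mul]
          push_cast
          rw [← pow_add]; congr 1; ring

lemma card_touch (F : Finset V) :
    ((univ.filter fun w : Fin r → V => ∃ i, w i ∈ F).card : ℝ) * Fintype.card V ≤
      r * F.card * (Fintype.card V : ℝ) ^ r := by
  have h1 : ∀ i : Fin r, ((univ.filter fun w : Fin r → V => w i ∈ F).card) * Fintype.card V =
      F.card * (Fintype.card V) ^ r := by
    intro i
    have e : (univ.filter fun w : Fin r → V => w i ∈ F) =
        Fintype.piFinset (fun j => if j = i then F else univ) := by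
      ext w
      simp only [mem_filter, mem_univ, true_and, Fintype.mem_piFinset]
      constructor
      · intro h j
        by_cases hj : j = i
        · subst hj; simpa using h
        · simp [hj]
      · intro h
        simpa using h i
    rw [e, Fintype.card_piFinset, ← Finset.mul_prod_erase univ _ (mem_univ i)]
    have e2 : ∏ x ∈ univ.erase i, (if x = i then F else univ : Finset V).card =
        (Fintype.card V) ^ (r - 1) := by
      rw [Finset.prod_congr rfl (g := fun _ => Fintype.card V)]
      · rw [Finset.prod_const, card_erase_of_mem (mem_univ i), card_univ, Fintype.card_fin]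
      · intro x hx
        rw [if_neg (Finset.ne_of_mem_erase hx), card_univ]
    rw [e2, if_pos rfl, mul_assoc, ← pow_succ]
    have : r - 1 + 1 = r := Nat.succ_pred_eq_of_pos (i.pos)
    rw [this]
  have h2 : (univ.filter fun w : Fin r → V => ∃ i, w i ∈ F) ⊆
      univ.biUnion fun i => (univ.filter fun w : Fin r → V => w i ∈ F) := by
    intro w hw
    simp only [mem_filter, mem_univ, true_and, mem_biUnion] at hw ⊢
    exact hw
  have h3 : (univ.filter fun w : Fin r → V => ∃ i, w i ∈ F).card * Fintype.card V ≤
      r * F.card * (Fintype.card V) ^ r := by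
    calc _ ≤ (∑ i : Fin r, (univ.filter fun w : Fin r → V => w i ∈ F).card) * Fintype.card V := by
          apply Nat.mul_le_mul_right
          exact (card_le_card h2).trans card_biUnion_le
      _ = ∑ i : Fin r, F.card * (Fintype.card V) ^ r := by
          rw [Finset.sum_mul]; exact Finset.sum_congr rfl fun i _ => h1 i
      _ = _ := by simp; ring
  exact_mod_cast h3

/-- Connector lemma. -/
theorem connector (c : Finset V → Bool) (l : ℕ) :
    ∀ (c' : ℝ) (F : Finset V) (x y : Fin r → V), 0 < c' →
      c' * (Fintype.card V : ℝ) ^ (r * l) ≤ (AM r c ^ (l + 1)) x y →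
      r * ((F.card : ℝ) + r * (l + 1)) ≤ (Fintype.card V : ℝ) * c' / 2 ^ (l + 1) →
      0 < Fintype.card V →
      ∃ W : List (Fin r → V), W.length = l ∧ (x :: (W ++ [y])).IsChain (Adj c) ∧
        (vs W).Nodup ∧ ∀ v ∈ vs W, v ∉ F := by
  induction l with
  | zero =>
    intro c' F x y hc' h _ _
    refine ⟨[], rfl, ?_, by simp [vs], by simp [vs]⟩
    rw [mul_zero, pow_zero, mul_one, zero_add, pow_one, AM] at h
    have : Adj c x y := by
      by_contra hcon
      rw [if_neg hcon] at h
      linarith
    simpa using this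
  | succ l ih =>
    intro c' F x y hc' h hF hn
    set n : ℝ := (Fintype.card V : ℝ) with hndef
    have hn0 : 0 < n := by rw [hndef]; exact_mod_cast hn
    -- find `w`
    obtain ⟨w, hw1, hw2, hw3⟩ : ∃ w : Fin r → V, (∀ i, w i ∉ F) ∧ Adj c x w ∧
        c' / 2 * n ^ (r * l) ≤ (AM r c ^ (l + 1)) w y := by
      by_contra hcon
      push Not at hcon
      rw [pow_succ', Matrix.mul_apply] at h
      have hle : ∀ w : Fin r → V, AM r c x w * (AM r c ^ (l + 1)) w y ≤
          (if ∃ i, w i ∈ F then n ^ (r * l) else 0) + c' / 2 * n ^ (r * l) := by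
        intro w
        by_cases hw : ∃ i, w i ∈ F
        · rw [if_pos hw]
          have h1 : AM r c x w ≤ 1 := by rw [AM]; split_ifs <;> norm_num
          have h2 : AM r c x w * (AM r c ^ (l + 1)) w y ≤ n ^ (r * l) :=
            calc AM r c x w * (AM r c ^ (l + 1)) w y ≤ 1 * (AM r c ^ (l + 1)) w y :=
                  mul_le_mul_of_nonneg_right h1 (AM_pow_nonneg c _ _ _)
              _ ≤ _ := by rw [one_mul]; exact AM_pow_le c l w y
          have h3 : 0 ≤ c' / 2 * n ^ (r * l) := by positivity
          linarith
        · rw [if_neg hw, zero_add]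
          by_cases ha : Adj c x w
          · have := hcon w (by simpa using hw) ha
            have h1 : AM r c x w = 1 := by rw [AM, if_pos ha]
            rw [h1, one_mul]; exact this.le
          · have h1 : AM r c x w = 0 := by rw [AM, if_neg ha]
            rw [h1, zero_mul]; positivity
      have hsum := h.trans (Finset.sum_le_sum fun w _ => hle w)
      rw [Finset.sum_add_distrib, ← Finset.sum_filter, Finset.sum_const, Finset.sum_const,
        card_univ, Fintype.card_fun, Fintype.card_fin, nsmul_eq_mul, nsmul_eq_mul] at hsum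
      push_cast at hsum
      rw [← hndef] at hsum
      set K : ℝ := ((univ.filter fun w : Fin r → V => ∃ i, w i ∈ F).card : ℝ) with hK
      have hK1 : K * n ≤ r * F.card * n ^ r := card_touch F
      have hrF : (r : ℝ) * F.card ≤ n * c' / 4 := by
        have h4 : (4 : ℝ) ≤ 2 ^ (l + 1 + 1) := by
          have : (1 : ℝ) ≤ 2 ^ l := one_le_pow₀ (by norm_num)
          rw [pow_succ, pow_succ]; linarith
        have h5 : n * c' / 2 ^ (l + 1 + 1) ≤ n * c' / 4 :=
          div_le_div_of_nonneg_left (by positivity) (by norm_num) h4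
        have h6 : (r : ℝ) * F.card ≤ r * ((F.card : ℝ) + r * (((l + 1 : ℕ) : ℝ) + 1)) := by
          apply mul_le_mul_of_nonneg_left _ (Nat.cast_nonneg r)
          have : (0 : ℝ) ≤ r * (((l + 1 : ℕ) : ℝ) + 1) := by positivity
          linarith
        linarith
      have hK2 : K ≤ c' / 4 * n ^ r := by
        have h7 : K * n ≤ (c' / 4 * n ^ r) * n := by
          refine hK1.trans ?_
          calc (r : ℝ) * F.card * n ^ r ≤ (n * c' / 4) * n ^ r :=
                mul_le_mul_of_nonneg_right hrF (by positivity)
            _ = _ := by ring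
        exact le_of_mul_le_mul_right h7 hn0
      have hX : 0 < n ^ r * n ^ (r * l) := by positivity
      have h8 : n ^ (r * (l + 1)) = n ^ r * n ^ (r * l) := by rw [← pow_add]; congr 1; ring
      rw [h8] at hsum
      have h9 : K * n ^ (r * l) ≤ c' / 4 * (n ^ r * n ^ (r * l)) := by
        calc K * n ^ (r * l) ≤ (c' / 4 * n ^ r) * n ^ (r * l) :=
              mul_le_mul_of_nonneg_right hK2 (by positivity)
          _ = _ := by ring
      nlinarith
    have hwinj : Function.Injective w := hw2.right_inj
    obtain ⟨W, hWl, hWc, hWn, hWF⟩ := ih (c' / 2) (F ∪ univ.image w) w y (by linarith) hw3 (by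
      have h1 : ((F ∪ univ.image w).card : ℝ) ≤ F.card + r := by
        have : (F ∪ univ.image w).card ≤ F.card + r := by
          refine (card_union_le _ _).trans ?_
          have : (univ.image w).card ≤ r := by
            simpa using card_image_le (s := univ) (f := w)
          omega
        exact_mod_cast this
      push_cast at hF
      have h2 : (r : ℝ) * (((F ∪ univ.image w).card : ℝ) + r * (l + 1)) ≤
          r * ((F.card : ℝ) + r * (l + 1 + 1)) := by
        apply mul_le_mul_of_nonneg_left _ (Nat.cast_nonneg r)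
        linarith
      refine h2.trans (hF.trans (le_of_eq ?_))
      rw [pow_succ 2 (l + 1)]
      field_simp) hn
    refine ⟨w :: W, by simp [hWl], ?_, ?_, ?_⟩
    · rw [List.cons_append, List.isChain_cons_cons]
      exact ⟨hw2, hWc⟩
    · rw [nodup_vs_iff] at hWn ⊢
      refine ⟨?_, ?_⟩
      · intro z hz
        rcases List.mem_cons.mp hz with rfl | hz
        · exact hwinj
        · exact hWn.1 z hz
      · rw [List.pairwise_cons]
        refine ⟨?_, hWn.2⟩
        intro z hz i j hij
        apply hWF (w i) (mem_vs.mpr ⟨z, hz, j, hij.symm⟩)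
        simp
    · intro v hv
      rw [mem_vs] at hv
      obtain ⟨z, hz, i, rfl⟩ := hv
      rcases List.mem_cons.mp hz with rfl | hz
      · exact hw1 i
      · intro hF'
        exact hWF (z i) (mem_vs.mpr ⟨z, hz, i, rfl⟩) (mem_union_left _ hF')

end Pool.Agent.Lib.MP_952639_co
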