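import Pool.Agent.Lib.MP_952639_co.ConnectA

/-!
# Greedy choice of connectors; covering paths in blocks
-/

namespace Pool.Agent.Lib.MP_952639_co

open Finset

variable {V : Type*} [Fintype V] [DecidableEq V] {r : ℕ}

theorem connectors (c : Finset V → Bool) (l : ℕ) (cc : ℝ) (hcc : 0 < cc) {J : Type*}
    [DecidableEq J] (x y : J → Fin r → V) (F0 : Finset V) (hV : 0 < Fintype.card V)
    (s : Finset J)
    (hJ : ∀ j ∈ s, cc * (Fintype.card V : ℝ) ^ (r * l) ≤ (AM r c ^ (l + 1)) (x j) (y j))
    (hF : r * ((F0.card : ℝ) + r * l * s.card + r * (l + 1)) ≤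
      (Fintype.card V : ℝ) * cc / 2 ^ (l + 1)) :
    ∃ W : J → List (Fin r → V), (∀ j ∈ s, (W j).length = l ∧
      (x j :: (W j ++ [y j])).IsChain (Adj c) ∧ (vs (W j)).Nodup ∧ ∀ v ∈ vs (W j), v ∉ F0) ∧
      ∀ j ∈ s, ∀ j' ∈ s, j ≠ j' → ∀ v ∈ vs (W j), v ∉ vs (W j') := by
  induction s using Finset.induction_on with
  | empty => exact ⟨fun _ => [], by simp, by simp⟩
  | insert a s ha ih =>
    rw [card_insert_of_notMem ha] at hF
    push_cast at hF
    obtain ⟨W, hW1, hW2⟩ := ih (fun j hj => hJ j (mem_insert_of_mem hj)) (by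
      refine le_trans ?_ hF
      apply mul_le_mul_of_nonneg_left _ (Nat.cast_nonneg r)
      have : (0 : ℝ) ≤ r * l := by positivity
      nlinarith)
    set F := F0 ∪ s.biUnion (fun j => (vs (W j)).toFinset) with hFdef
    have hFc : (F.card : ℝ) ≤ F0.card + r * l * s.card := by
      have h1 : F.card ≤ F0.card + s.card * (r * l) := by
        refine (card_union_le _ _).trans ?_
        apply Nat.add_le_add_left
        apply card_biUnion_le_card_mul
        intro j hj
        refine (List.toFinset_card_le _).trans ?_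
        rw [length_vs, (hW1 j hj).1]
      have h2 : (F.card : ℝ) ≤ ((F0.card + s.card * (r * l) : ℕ) : ℝ) := by exact_mod_cast h1
      refine h2.trans (le_of_eq ?_)
      push_cast; ring
    obtain ⟨Wa, h1, h2, h3, h4⟩ := connector c l cc F (x a) (y a) hcc
      (hJ a (mem_insert_self a s)) (by
        refine le_trans ?_ hF
        apply mul_le_mul_of_nonneg_left _ (Nat.cast_nonneg r)
        have : (0 : ℝ) ≤ r * l := by positivity
        nlinarith) hV
    refine ⟨fun j => if j = a then Wa else W j, ?_, ?_⟩
    · intro j hj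
      by_cases hja : j = a
      · subst hja
        simp only [if_true]
        refine ⟨h1, h2, h3, fun v hv hF0 => h4 v hv (mem_union_left _ hF0)⟩
      · simp only [if_neg hja]
        exact hW1 j ((mem_insert.mp hj).resolve_left hja)
    · have key : ∀ j ∈ s, ∀ v ∈ vs Wa, v ∉ vs (W j) := by
        intro j hj v hv hvj
        exact h4 v hv (mem_union_right _ (mem_biUnion.mpr ⟨j, hj, List.mem_toFinset.mpr hvj⟩))
      intro j hj j' hj' hjj v hv
      by_cases hja : j = a
      · subst hja
        simp only [if_true] at hv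
        simp only [if_neg (Ne.symm hjj)]
        exact key j' ((mem_insert.mp hj').resolve_left (Ne.symm hjj)) v hv
      · simp only [if_neg hja] at hv
        have hj2 := (mem_insert.mp hj).resolve_left hja
        by_cases hja' : j' = a
        · subst hja'
          simp only [if_true]
          intro hv'
          exact key j hj2 v hv' hv
        · simp only [if_neg hja']
          exact hW2 j hj2 j' ((mem_insert.mp hj').resolve_left hja') hjj v hv

omit [Fintype V] in
theorem exists_path (D : Fin r → Finset V) (hD : ∀ i i', i ≠ i' → Disjoint (D i) (D i'))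
    (m : ℕ) (hm : ∀ i, (D i).card = m) (X : Finset V) (s e : Fin r → V)
    (hs : ∀ i, s i ∈ D i) (he : ∀ i, e i ∈ D i) (hse : ∀ i, s i ≠ e i)
    (hsX : ∀ i, s i ∉ X) (heX : ∀ i, e i ∉ X) :
    ∃ I : List (Fin r → V), (∀ x ∈ s :: (I ++ [e]), ∀ i, x i ∈ D i ∧ x i ∉ X) ∧
      (vs (s :: (I ++ [e]))).Nodup ∧
      m ≤ I.length + 2 + (X ∩ univ.biUnion D).card := by
  set p := m - 2 - (X ∩ univ.biUnion D).card with hp
  set D' : Fin r → Finset V := fun i => (D i \ {s i, e i}) \ X with hD'
  have hcard : ∀ i, p ≤ (D' i).card := by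
    intro i
    have h1 : D i ⊆ D' i ∪ ({s i, e i} ∪ (X ∩ univ.biUnion D)) := by
      intro v hv
      simp only [hD', mem_union, mem_sdiff, mem_insert, mem_singleton, mem_inter, mem_biUnion,
        mem_univ, true_and]
      by_cases h1 : v = s i ∨ v = e i
      · exact Or.inr (Or.inl h1)
      · by_cases h2 : v ∈ X
        · exact Or.inr (Or.inr ⟨h2, i, hv⟩)
        · exact Or.inl ⟨⟨hv, h1⟩, h2⟩
    have h2 := (card_le_card h1).trans ((card_union_le _ _).trans
      (Nat.add_le_add_left ((card_union_le _ _).trans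
        (Nat.add_le_add_right (card_le_two) _)) _))
    rw [hm i] at h2
    omega
  set u : Fin p → Fin r → V := fun k i =>
    ((D' i).equivFin.symm ⟨k, lt_of_lt_of_le k.2 (hcard i)⟩ : V) with hu
  have huD : ∀ k i, u k i ∈ D' i := fun k i => ((D' i).equivFin.symm _).2
  have hui : ∀ k k' i, u k i = u k' i → k = k' := by
    intro k k' i h
    have := (D' i).equivFin.symm.injective (Subtype.ext h)
    simpa [Fin.ext_iff] using this
  have huDi : ∀ k i, u k i ∈ D i ∧ u k i ≠ s i ∧ u k i ≠ e i ∧ u k i ∉ X := by
    intro k i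
    have := huD k i
    simp only [hD', mem_sdiff, mem_insert, mem_singleton, not_or] at this
    exact ⟨this.1.1, this.1.2.1, this.1.2.2, this.2⟩
  have hall : ∀ x ∈ s :: (List.ofFn u ++ [e]), ∀ i, x i ∈ D i ∧ x i ∉ X := by
    intro x hx i
    simp only [List.mem_cons, List.mem_append, List.mem_ofFn, List.not_mem_nil,
      or_false] at hx
    rcases hx with rfl | ⟨k, rfl⟩ | rfl
    · exact ⟨hs i, hsX i⟩
    · exact ⟨(huDi k i).1, (huDi k i).2.2.2⟩
    · exact ⟨he i, heX i⟩
  refine ⟨List.ofFn u, hall, ?_, ?_⟩
  · rw [nodup_vs_iff]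
    have hdis : ∀ i j v, v ∈ D i → v ∈ D j → i = j := by
      intro i j v h1 h2
      by_contra h
      exact (Finset.disjoint_left.mp (hD i j h)) h1 h2
    refine ⟨?_, ?_⟩
    · intro x hx i j hij
      exact hdis i j (x i) (hall x hx i).1 (hij ▸ (hall x hx j).1)
    · have hpw : (s :: (List.ofFn u ++ [e])).Pairwise (fun x y => ∀ i, x i ≠ y i) := by
        rw [List.pairwise_cons, List.pairwise_append, List.pairwise_ofFn]
        refine ⟨?_, ?_, ?_, ?_⟩
        · intro x hx i
          simp only [List.mem_append, List.mem_ofFn, List.mem_cons, List.not_mem_nil,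
            or_false] at hx
          rcases hx with ⟨k, rfl⟩ | rfl
          · exact (huDi k i).2.1.symm
          · exact hse i
        · intro k k' hkk i h
          exact absurd (hui k k' i h) (ne_of_lt hkk)
        · simp
        · intro x hx y hy i
          rw [List.mem_ofFn] at hx
          rw [List.mem_singleton] at hy
          obtain ⟨k, rfl⟩ := hx
          subst hy
          exact (huDi k i).2.2.1
      refine hpw.imp_of_mem ?_
      intro x y hx hy hxy i j hij
      have : i = j := hdis i j (x i) (hall x hx i).1 (hij ▸ (hall y hy j).1)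
      subst this
      exact hxy i hij
  · rw [List.length_ofFn]; omega

end Pool.Agent.Lib.MP_952639_co
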