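import Pool.Agent.Lib.MP_952639_co.Connect
import Pool.Agent.Lib.MP_952639_co.Classes

/-!
# From cyclic walks of tuples to tight cycles
-/

namespace Pool.Agent.Lib.MP_952639_co

open Finset

set_option linter.unusedSectionVars false

section

variable {V : Type*} [DecidableEq V] {r : ℕ}

/-- The vertex sequence of a list of tuples. -/
def flat (P : List (Fin r → V)) : List V := P.flatMap List.ofFn

lemma flat_cons (x : Fin r → V) (P : List (Fin r → V)) : flat (x :: P) = List.ofFn x ++ flat P := by
  simp [flat]

lemma flat_append (P Q : List (Fin r → V)) : flat (P ++ Q) = flat P ++ flat Q := by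
  simp [flat]

lemma flat_length (P : List (Fin r → V)) : (flat P).length = P.length * r := by
  induction P with
  | nil => simp [flat]
  | cons x P ih => rw [flat_cons, List.length_append, ih, List.length_ofFn, List.length_cons]; ring

lemma isCyc_rotate_one {c : Finset V → Bool} {P : List (Fin r → V)} (h : IsCyc c P) :
    IsCyc c (P.rotate 1) := by
  cases P with
  | nil => simpa using h
  | cons a l =>
    rw [List.rotate_cons_succ, List.rotate_zero]
    obtain ⟨h1, h2⟩ := h
    cases l with
    | nil => exact ⟨h1, h2⟩
    | cons b l =>
      have h3 := h2 (by simp)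
      rw [List.head_cons, List.getLast_cons (by simp : b :: l ≠ [])] at h3
      rw [List.isChain_cons_cons] at h1
      refine ⟨?_, ?_⟩
      · rw [List.isChain_append]
        refine ⟨h1.2, List.isChain_singleton _, ?_⟩
        intro x hx y hy
        rw [List.head?_cons, Option.mem_some_iff] at hy
        rw [List.getLast?_eq_getLast_of_ne_nil (by simp : b :: l ≠ []), Option.mem_some_iff] at hx
        rw [← hx, ← hy]
        exact h3
      · intro h
        rw [List.getLast_append_of_ne_nil _ (by simp), List.getLast_singleton]
        simp only [List.cons_append, List.head_cons]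
        exact h1.1

lemma isCyc_rotate {c : Finset V → Bool} {P : List (Fin r → V)} (h : IsCyc c P) (q : ℕ) :
    IsCyc c (P.rotate q) := by
  induction q with
  | zero => simpa using h
  | succ q ih => rw [← List.rotate_rotate]; exact isCyc_rotate_one ih

lemma flat_rotate (P : List (Fin r → V)) (q : ℕ) :
    (flat P).rotate (q * r) = flat (P.rotate q) := by
  induction q with
  | zero => simp
  | succ q ih =>
    rw [Nat.succ_mul, ← List.rotate_rotate, ih, ← List.rotate_rotate P q 1]
    generalize P.rotate q = Q
    cases Q with
    | nil => simp [flat]
    | cons a l =>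
      rw [List.rotate_cons_succ, List.rotate_zero, flat_append, flat_cons]
      have h1 : flat [a] = List.ofFn a := by simp [flat]
      rw [h1]
      have h2 := List.rotate_append_length_eq (List.ofFn a) (flat l)
      rw [List.length_ofFn] at h2
      exact h2

/-- The windows of the concatenation of two tuples are mixtures. -/
lemma window_toFinset (x y : Fin r → V) (j : ℕ) (_hj : j ≤ r) :
    ((List.ofFn x).drop j ++ (List.ofFn y).take j).toFinset =
      univ.image (mix x y (univ.filter fun t : Fin r => (t : ℕ) < j)) := by
  ext v
  simp only [List.mem_toFinset, List.mem_append, mem_image, mem_univ, true_and]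
  constructor
  · rintro (h | h)
    · rw [List.mem_drop_iff_getElem] at h
      obtain ⟨i, hi, rfl⟩ := h
      rw [List.length_ofFn] at hi
      refine ⟨⟨j + i, by omega⟩, ?_⟩
      simp [mix]
    · rw [List.mem_take_iff_getElem] at h
      obtain ⟨i, hi, rfl⟩ := h
      rw [List.length_ofFn, lt_min_iff] at hi
      refine ⟨⟨i, hi.2⟩, ?_⟩
      simp [mix, hi.1]
  · rintro ⟨t, rfl⟩
    unfold mix
    split_ifs with h
    · right
      rw [mem_filter] at h
      rw [List.mem_take_iff_getElem]
      refine ⟨t, ?_, ?_⟩
      · rw [List.length_ofFn, lt_min_iff]; exact ⟨h.2, t.2⟩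
      · simp
    · left
      rw [mem_filter] at h
      push Not at h
      have h' := h (mem_univ _)
      rw [List.mem_drop_iff_getElem]
      refine ⟨t - j, ?_, ?_⟩
      · rw [List.length_ofFn]; have := t.2; omega
      · simp only [List.getElem_ofFn]
        congr 1
        ext
        simp only
        omega

lemma isCyc_col [Fintype V] {c : Finset V → Bool} {κ : Bool} {P : List (Fin r → V)}
    (h : IsCyc c P) (hP : ∀ h : P ≠ [], Col c κ (P.head h)) : ∀ x ∈ P, Col c κ x := by
  have h1 := h.1
  clear h
  induction P with
  | nil => intro x hx; simp at hx
  | cons a l ih =>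
    have ha : Col c κ a := hP (by simp)
    intro x hx
    rcases List.mem_cons.mp hx with rfl | hx
    · exact ha
    · cases l with
      | nil => simp at hx
      | cons b l =>
        rw [List.isChain_cons_cons] at h1
        refine ih ?_ h1.2 x hx
        · intro _
          rw [List.head_cons]
          obtain ⟨κ', hκa, hκb⟩ := h1.1.col
          rw [ha.unique hκa]
          exact hκb

/-- All cyclic windows of the vertex sequence of a cyclic walk have the colour of the walk. -/
theorem windows_of_isCyc [Fintype V] {c : Finset V → Bool} {κ : Bool} {P : List (Fin r → V)}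
    (h : IsCyc c P) (hP : ∀ h : P ≠ [], Col c κ (P.head h)) (i : ℕ) (hi : i < (flat P).length) :
    c (((flat P).rotate i).take r).toFinset = κ := by
  have hcol := isCyc_col h hP
  rw [flat_length] at hi
  have hr : 0 < r := by
    rcases Nat.eq_zero_or_pos r with h0 | h0
    · exfalso
      have h1 : P.length * r = 0 := by simp [h0]
      omega
    · exact h0
  -- write `i = q r + j`
  have hij : i = (i / r) * r + i % r := by rw [mul_comm]; exact (Nat.div_add_mod i r).symm
  have hj : i % r < r := Nat.mod_lt _ hr
  rw [hij, ← List.rotate_rotate, flat_rotate]
  have hcyc := isCyc_rotate h (i / r)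
  have hcol' : ∀ x ∈ P.rotate (i / r), Col c κ x := fun x hx => hcol x (List.mem_rotate.mp hx)
  have hne : P.rotate (i / r) ≠ [] := by
    intro h0
    rw [List.rotate_eq_nil_iff] at h0
    rw [h0] at hi
    simp at hi
  generalize i % r = j at hj
  generalize P.rotate (i / r) = Q at hcyc hcol' hne
  cases Q with
  | nil => exact absurd rfl hne
  | cons x L =>
    -- the next tuple
    obtain ⟨y, hxy, hy⟩ : ∃ y, Adj c x y ∧
        (flat L ++ (List.ofFn x).take j).take j = (List.ofFn y).take j := by
      cases L with
      | nil =>
        refine ⟨x, ?_, ?_⟩
        · have := hcyc.2 (by simp)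
          simpa using this
        · simp [flat]
      | cons y L =>
        refine ⟨y, ?_, ?_⟩
        · have := hcyc.1
          rw [List.isChain_cons_cons] at this
          exact this.1
        · rw [flat_cons, List.append_assoc, List.take_append_of_le_length]
          rw [List.length_ofFn]; omega
    have hlen : (List.ofFn x).length = r := List.length_ofFn
    have hrot : (flat (x :: L)).rotate j =
        (List.ofFn x).drop j ++ (flat L ++ (List.ofFn x).take j) := by
      rw [flat_cons, List.rotate_eq_drop_append_take (by rw [List.length_append, hlen]; omega),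
        List.drop_append_of_le_length (by rw [hlen]; omega),
        List.take_append_of_le_length (by rw [hlen]; omega), List.append_assoc]
    have hdl : ((List.ofFn x).drop j).length = r - j := by rw [List.length_drop, hlen]
    rw [hrot, List.take_append, hdl, List.take_of_length_le (by rw [hdl]; omega),
      show r - (r - j) = j by omega, hy, window_toFinset x y j hj.le]
    obtain ⟨κ', hκ'⟩ := hxy
    have h1 : Col c κ x := hcol' x (by simp)
    have h2 := hκ' ∅
    rw [mix_empty] at h2
    have h3 := (hκ' (univ.filter fun t : Fin r => (t : ℕ) < j)).2
    rw [h3]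
    exact h2.unique h1

end

end Pool.Agent.Lib.MP_952639_co
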