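import Mathlib

/-!
# Two monochromatic tight cycles covering almost everything: basic definitions
-/

namespace Pool.Agent.Lib.MP_952639_co

open Finset

/-- `b` is obtained from the `r`-set `a` by exchanging one element. -/
def JAdj {S : Type*} [DecidableEq S] (r : ℕ) (a b : Finset S) : Prop :=
  a.card = r ∧ b.card = r ∧ ∃ x ∈ a, ∃ y, y ∉ a ∧ b = insert y (a.erase x)

/-- One step inside a monochromatic tight component. -/
def Step {S : Type*} [DecidableEq S] (c : Finset S → Bool) (r : ℕ) (a b : Finset S) : Prop :=
  JAdj r a b ∧ c a = c b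

/-- The `r`-sets `a` and `b` lie in the same monochromatic tight component. -/
def Conn {S : Type*} [DecidableEq S] (c : Finset S → Bool) (r : ℕ) (a b : Finset S) : Prop :=
  Relation.ReflTransGen (Step c r) a b

/-- `x` with the coordinates in `I` replaced by those of `y`. -/
def mix {V : Type*} {r : ℕ} (x y : Fin r → V) (I : Finset (Fin r)) : Fin r → V :=
  fun i => if i ∈ I then y i else x i

/-- The injective `r`-tuples whose underlying set has colour `κ`. -/
def Col {V : Type*} [DecidableEq V] {r : ℕ} (c : Finset V → Bool) (κ : Bool)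
    (x : Fin r → V) : Prop :=
  Function.Injective x ∧ c (univ.image x) = κ

/-- Two tuples are adjacent if all their mixtures are injective and of one and the same colour. -/
def Adj {V : Type*} [DecidableEq V] {r : ℕ} (c : Finset V → Bool) (x y : Fin r → V) : Prop :=
  ∃ κ, ∀ I, Col c κ (mix x y I)

open Classical in
/-- The adjacency matrix of `Adj c`. -/
noncomputable def AM {V : Type*} [DecidableEq V] (r : ℕ) (c : Finset V → Bool) :
    Matrix (Fin r → V) (Fin r → V) ℝ :=
  fun x y => if Adj c x y then 1 else 0

open Classical in
/-- The number of cross pairs in direction `i`: `(x, v)` such that `x` and `x` with coordinate `i`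
replaced by `v` have the same colour but different nonzero classes. -/
noncomputable def crossCount {V : Type*} [Fintype V] [DecidableEq V] {r : ℕ}
    (c : Finset V → Bool) (cls : (Fin r → V) → ℕ) (i : Fin r) : ℕ :=
  (univ.filter fun p : (Fin r → V) × V =>
    cls p.1 ≠ 0 ∧ cls (Function.update p.1 i p.2) ≠ 0 ∧
      c (univ.image p.1) = c (univ.image (Function.update p.1 i p.2)) ∧
      cls p.1 ≠ cls (Function.update p.1 i p.2)).card

open Classical in
/-- The number of exceptional injective tuples. -/
noncomputable def excCount {V : Type*} [Fintype V] {r : ℕ} (cls : (Fin r → V) → ℕ) : ℕ :=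
  (univ.filter fun x : Fin r → V => Function.Injective x ∧ cls x = 0).card

/-- `(κ, β)`-robustness of the union of `A true` and `A false`: whenever `z : V → [0,1]` has
`∑ z ≤ κ |V|`, at least `β |V|^r` of the tuples have `∑ z (u i) < 1`. -/
def Robust {V : Type*} [Fintype V] [DecidableEq V] {r : ℕ} (κ β : ℝ)
    (A : Bool → Finset (Fin r → V)) : Prop :=
  ∀ z : V → ℝ, (∀ v, 0 ≤ z v) → (∀ v, z v ≤ 1) → ∑ v, z v ≤ κ * Fintype.card V →
    β * (Fintype.card V : ℝ) ^ r ≤
      (((A true ∪ A false).filter fun u => ∑ i, z (u i) < 1).card : ℝ)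

end Pool.Agent.Lib.MP_952639_co
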