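import Pool.Agent.Lib.MP_952639_co.SamplingB

/-!
# Sampling: there is a robust pair of classes
-/

namespace Pool.Agent.Lib.MP_952639_co

open Finset Filter

set_option linter.unusedSectionVars false

section

variable {V : Type*} [Fintype V] [DecidableEq V] {r s : ℕ}

lemma cnt_false {ι : Type*} [Fintype ι] [DecidableEq ι] {P : (ι → V) → Prop}
    (h : ∀ S, ¬ P S) : cnt P = 0 := by
  classical
  rw [cnt_eq]
  simp [h]

lemma cnt_E1 (hV : 0 < Fintype.card V) :
    cnt (E1 : (Fin s → V) → Prop) ≤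
      (s * s : ℝ) * ((1 / (Fintype.card V : ℝ)) * (Fintype.card V : ℝ) ^ s) := by
  have h := cnt_exists (V := V) (s := s) (ι := Fin s × Fin s)
    (fun p S => p.1 ≠ p.2 ∧ S p.1 = S p.2)
    ((1 / (Fintype.card V : ℝ)) * (Fintype.card V : ℝ) ^ s) (by
      intro p
      by_cases hp : p.1 = p.2
      · rw [cnt_false (fun S h => h.1 hp)]; positivity
      · exact (cnt_mono (fun S h => h.2)).trans (cnt_collision hV _ _ hp))
  refine le_trans (le_of_eq rfl) (h.trans (le_of_eq ?_))
  simp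

lemma cnt_E2 (hV : 0 < Fintype.card V) (cls : (Fin r → V) → ℕ) (δ : ℝ) (hδ : 0 ≤ δ)
    (hexc : (excCount cls : ℝ) ≤ δ * (Fintype.card V : ℝ) ^ r) :
    cnt (E2 cls : (Fin s → V) → Prop) ≤ (s : ℝ) ^ r * (δ * (Fintype.card V : ℝ) ^ s) := by
  classical
  have h := cnt_exists (V := V) (s := s) (ι := Fin r → Fin s)
    (fun a S => Function.Injective a ∧ Function.Injective (S ∘ a) ∧ cls (S ∘ a) = 0)
    (δ * (Fintype.card V : ℝ) ^ s) (by
      intro a
      by_cases ha : Function.Injective a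
      · refine cnt_cond' hV a ha _ _ ?_
        intro S
        refine le_trans ?_ hexc
        have h1 : (excCount cls : ℝ) = cnt (fun y : Fin r → V => Function.Injective y ∧
            cls y = 0) := by
          rw [cnt_eq]; unfold excCount; congr
        rw [h1]
        apply cnt_mono
        intro y hy
        rw [Function.extend_comp ha] at hy
        exact hy.2
      · rw [cnt_false (fun S h => ha h.1)]; positivity)
  refine le_trans (le_of_eq rfl) (h.trans (le_of_eq ?_))
  simp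

lemma cnt_E3 (hV : 0 < Fintype.card V) (c : Finset V → Bool) (cls : (Fin r → V) → ℕ) (δ : ℝ)
    (hδ : 0 ≤ δ) (hcr : ∀ i, (crossCount c cls i : ℝ) ≤ δ * (Fintype.card V : ℝ) ^ (r + 1)) :
    cnt (E3 c cls : (Fin s → V) → Prop) ≤
      ((s : ℝ) ^ r * (r * s)) * (δ * (Fintype.card V : ℝ) ^ s) := by
  classical
  have h := cnt_exists (V := V) (s := s) (ι := (Fin r → Fin s) × Fin r × Fin s)
    (fun q S => Function.Injective q.1 ∧ (∀ i, q.1 i ≠ q.2.2) ∧
      Cross c cls q.2.1 (S ∘ q.1) (S q.2.2))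
    (δ * (Fintype.card V : ℝ) ^ s) (by
      rintro ⟨a, i, k⟩
      simp only
      by_cases ha : Function.Injective a ∧ ∀ i, a i ≠ k
      · obtain ⟨ha, hak⟩ := ha
        have hinj : Function.Injective (Fin.snoc a k : Fin (r + 1) → Fin s) := by
          rw [Fin.snoc_injective_iff]
          refine ⟨ha, ?_⟩
          rintro ⟨j, hj⟩
          exact hak j hj
        refine cnt_cond' hV (Fin.snoc a k : Fin (r + 1) → Fin s) hinj _ _ ?_
        intro S
        refine le_trans ?_ (hcr i)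
        rw [cnt_eq]
        unfold crossCount
        norm_cast
        apply card_le_card_of_injOn (fun y => (fun j => y (Fin.castSucc j), y (Fin.last r)))
        · intro y hy
          rw [mem_coe, mem_filter] at hy ⊢
          refine ⟨mem_univ _, ?_⟩
          obtain ⟨_, _, _, hcross⟩ := hy
          have e1 : Function.extend (Fin.snoc a k : Fin (r + 1) → Fin s) y S ∘ a =
              fun j => y (Fin.castSucc j) := by
            funext j
            have := hinj.extend_apply y S (Fin.castSucc j)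
            rw [Fin.snoc_castSucc] at this
            exact this
          have e2 : Function.extend (Fin.snoc a k : Fin (r + 1) → Fin s) y S k =
              y (Fin.last r) := by
            have := hinj.extend_apply y S (Fin.last r)
            rw [Fin.snoc_last] at this
            exact this
          rw [e1, e2] at hcross
          exact hcross
        · intro y _ y' _ hyy'
          rw [Prod.mk.injEq] at hyy'
          funext j
          refine Fin.lastCases ?_ (fun j => ?_) j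
          · exact hyy'.2
          · exact congrFun hyy'.1 j
      · rw [cnt_false (fun S h => ha ⟨h.1, h.2.1⟩)]; positivity)
  refine le_trans (le_of_eq rfl) (h.trans (le_of_eq ?_))
  simp

/-- `z` witnesses that the pair of labels `(j, j')` is not robust. -/
def Witness (cls : (Fin r → V) → ℕ) (κ β : ℝ) (j j' : ℕ) (z : V → ℝ) : Prop :=
  (∀ v, 0 ≤ z v) ∧ (∀ v, z v ≤ 1) ∧ ∑ v, z v ≤ κ * Fintype.card V ∧
    cnt (fun u : Fin r → V => (cls u = j ∨ cls u = j') ∧ ∑ i, z (u i) < 1) ≤
      β * (Fintype.card V : ℝ) ^ r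

lemma extend_comp_of_disjoint {k : ℕ} {d : Fin k → Fin s} {a : Fin r → Fin s}
    (h : ∀ i j, d i ≠ a j) (y : Fin k → V) (S : Fin s → V) :
    Function.extend d y S ∘ a = S ∘ a := by
  funext j
  refine Function.extend_apply' _ _ _ ?_
  rintro ⟨i, hi⟩
  exact h i j hi

lemma not_mem_rest_left {a b : Fin r → Fin s} (j : Fin r) : a j ∉ rest a b := by
  unfold rest
  simp

lemma not_mem_rest_right {a b : Fin r → Fin s} (j : Fin r) : b j ∉ rest a b := by
  unfold rest
  simp

lemma cnt_E4 (hV : 0 < Fintype.card V) (cls : (Fin r → V) → ℕ) (Z : ℕ → ℕ → V → ℝ) (κ β : ℝ)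
    (hκ : 0 ≤ κ) (t τ : ℝ) (ht : 0 ≤ t) :
    cnt (E4 cls Z (fun j j' => Witness cls κ β j j' (Z j j')) τ : (Fin s → V) → Prop) ≤
      ((s : ℝ) ^ r * (s : ℝ) ^ r) *
        (Real.exp ((Real.exp t - 1) * κ * s - t * τ) * (Fintype.card V : ℝ) ^ s) := by
  classical
  have h := cnt_exists (V := V) (s := s) (ι := (Fin r → Fin s) × (Fin r → Fin s))
    (fun q S => (fun j j' => Witness cls κ β j j' (Z j j')) (cls (S ∘ q.1)) (cls (S ∘ q.2)) ∧
      τ ≤ ∑ k ∈ rest q.1 q.2, Z (cls (S ∘ q.1)) (cls (S ∘ q.2)) (S k))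
    (Real.exp ((Real.exp t - 1) * κ * s - t * τ) * (Fintype.card V : ℝ) ^ s) (by
      rintro ⟨a, b⟩
      simp only
      obtain ⟨k, hk⟩ : ∃ k, (rest a b).card = k := ⟨_, rfl⟩
      obtain ⟨d, hdinj, hdimg⟩ := exists_order hk
      have hdmem : ∀ i, d i ∈ rest a b := fun i => by
        rw [← hdimg]; exact mem_image_of_mem _ (mem_univ _)
      refine cnt_cond' hV d hdinj _ _ ?_
      intro S
      have e1 : ∀ y : Fin k → V, Function.extend d y S ∘ a = S ∘ a := fun y =>
        extend_comp_of_disjoint (fun i j h => not_mem_rest_left (a := a) (b := b) j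
          (by rw [← h]; exact hdmem i)) y S
      have e2 : ∀ y : Fin k → V, Function.extend d y S ∘ b = S ∘ b := fun y =>
        extend_comp_of_disjoint (fun i j h => not_mem_rest_right (a := a) (b := b) j
          (by rw [← h]; exact hdmem i)) y S
      by_cases hok : Witness cls κ β (cls (S ∘ a)) (cls (S ∘ b)) (Z (cls (S ∘ a)) (cls (S ∘ b)))
      · have h1 : cnt (fun y : Fin k → V =>
            Witness cls κ β (cls (Function.extend d y S ∘ a)) (cls (Function.extend d y S ∘ b))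
              (Z (cls (Function.extend d y S ∘ a)) (cls (Function.extend d y S ∘ b))) ∧
            τ ≤ ∑ k ∈ rest a b, Z (cls (Function.extend d y S ∘ a))
              (cls (Function.extend d y S ∘ b)) (Function.extend d y S k)) ≤
            cnt (fun y : Fin k → V => τ ≤ ∑ i, Z (cls (S ∘ a)) (cls (S ∘ b)) (y i)) := by
          apply cnt_mono
          intro y hy
          have h2 := hy.2
          rw [e1, e2, ← hdimg, sum_image (fun x _ y _ h => hdinj h)] at h2
          refine h2.trans (le_of_eq ?_)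
          refine sum_congr rfl fun i _ => ?_
          rw [hdinj.extend_apply]
        refine h1.trans ((chernoff _ hok.1 hok.2.1 κ hκ hok.2.2.1 t ht k τ).trans ?_)
        apply mul_le_mul_of_nonneg_right _ (by positivity)
        apply Real.exp_le_exp.mpr
        have hks : (k : ℝ) ≤ s := by
          have := card_le_univ (rest a b)
          rw [Fintype.card_fin, hk] at this
          exact_mod_cast this
        have h5 : 0 ≤ Real.exp t - 1 := by
          have := Real.add_one_le_exp t; linarith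
        have := mul_le_mul_of_nonneg_left hks (mul_nonneg h5 hκ)
        linarith
      · rw [cnt_false]
        · positivity
        · intro y hy
          rw [e1, e2] at hy
          exact hok hy.1)
  refine le_trans (le_of_eq rfl) (h.trans (le_of_eq ?_))
  simp

lemma cnt_E5 (hV : 0 < Fintype.card V) (cls : (Fin r → V) → ℕ) (Z : ℕ → ℕ → V → ℝ) (κ β : ℝ)
    (hβ : 0 ≤ β) :
    cnt (E5 cls Z (fun j j' => Witness cls κ β j j' (Z j j')) : (Fin s → V) → Prop) ≤
      ((s : ℝ) ^ r * ((s : ℝ) ^ r * (s : ℝ) ^ r)) * (β * (Fintype.card V : ℝ) ^ s) := by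
  classical
  have h := cnt_exists (V := V) (s := s)
    (ι := (Fin r → Fin s) × (Fin r → Fin s) × (Fin r → Fin s))
    (fun q S => Function.Injective q.2.2 ∧ (∀ i, q.2.2 i ∈ rest q.1 q.2.1) ∧
      (fun j j' => Witness cls κ β j j' (Z j j')) (cls (S ∘ q.1)) (cls (S ∘ q.2.1)) ∧
      (cls (S ∘ q.2.2) = cls (S ∘ q.1) ∨ cls (S ∘ q.2.2) = cls (S ∘ q.2.1)) ∧
      ∑ i, Z (cls (S ∘ q.1)) (cls (S ∘ q.2.1)) (S (q.2.2 i)) < 1)
    (β * (Fintype.card V : ℝ) ^ s) (by
      rintro ⟨a, b, d⟩
      simp only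
      by_cases hd : Function.Injective d ∧ ∀ i, d i ∈ rest a b
      · obtain ⟨hdinj, hdmem⟩ := hd
        refine cnt_cond' hV d hdinj _ _ ?_
        intro S
        have e1 : ∀ y : Fin r → V, Function.extend d y S ∘ a = S ∘ a := fun y =>
          extend_comp_of_disjoint (fun i j h => not_mem_rest_left (a := a) (b := b) j
            (by rw [← h]; exact hdmem i)) y S
        have e2 : ∀ y : Fin r → V, Function.extend d y S ∘ b = S ∘ b := fun y =>
          extend_comp_of_disjoint (fun i j h => not_mem_rest_right (a := a) (b := b) j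
            (by rw [← h]; exact hdmem i)) y S
        by_cases hok : Witness cls κ β (cls (S ∘ a)) (cls (S ∘ b))
            (Z (cls (S ∘ a)) (cls (S ∘ b)))
        · refine le_trans ?_ hok.2.2.2
          apply cnt_mono
          intro y hy
          obtain ⟨_, _, _, h1, h2⟩ := hy
          rw [e1, e2, Function.extend_comp hdinj] at h1
          rw [e1, e2] at h2
          refine ⟨h1, ?_⟩
          refine lt_of_le_of_lt (le_of_eq ?_) h2
          refine sum_congr rfl fun i _ => ?_
          rw [hdinj.extend_apply]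
        · rw [cnt_false]
          · positivity
          · intro y hy
            rw [e1, e2] at hy
            exact hok hy.2.2.1
      · rw [cnt_false (fun S h => hd ⟨h.1, h.2.1⟩)]; positivity)
  refine le_trans (le_of_eq rfl) (h.trans (le_of_eq ?_))
  simp

end

/-- Choice of the sample size. -/
lemma exists_sample_size (r : ℕ) (hr : 1 ≤ r) (κ : ℝ) (hκ : 0 < κ) (hκr : κ * r < 1) :
    ∃ (s : ℕ) (t : ℝ), r ≤ s ∧ 0 ≤ t ∧ ((s : ℝ) ^ r * (s : ℝ) ^ r) *
      Real.exp ((Real.exp t - 1) * κ * s - t * ((s : ℝ) / r - 2 - 2 * r)) ≤ 1 / 8 := by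
  have hr0 : (0 : ℝ) < r := by exact_mod_cast hr
  set ρ : ℝ := 1 / r - κ with hρ
  have hρ0 : 0 < ρ := by
    rw [hρ, sub_pos, lt_div_iff₀ hr0]; exact hκr
  set t : ℝ := min 1 (ρ / (2 * κ)) with ht
  have ht0 : 0 < t := lt_min one_pos (by positivity)
  have ht1 : t ≤ 1 := min_le_left _ _
  have htκ : t * κ ≤ ρ / 2 := by
    have : t ≤ ρ / (2 * κ) := min_le_right _ _
    calc t * κ ≤ ρ / (2 * κ) * κ := mul_le_mul_of_nonneg_right this hκ.le
      _ = ρ / 2 := by field_simp
  have hexp : Real.exp t - 1 ≤ t + t ^ 2 := by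
    have h := Real.abs_exp_sub_one_sub_id_le (x := t) (by rw [abs_of_pos ht0]; exact ht1)
    have := (abs_le.mp h).2
    linarith
  set q : ℝ := Real.exp (-(t * ρ / 2)) with hq
  have hq1 : |q| < 1 := by
    rw [abs_of_pos (Real.exp_pos _), Real.exp_lt_one_iff]
    have : 0 < t * ρ / 2 := by positivity
    linarith
  set C : ℝ := Real.exp (t * (2 + 2 * r)) with hC
  have hC0 : 0 < C := Real.exp_pos _
  have hlim := tendsto_pow_const_mul_const_pow_of_abs_lt_one (2 * r) hq1
  have hev : ∀ᶠ s : ℕ in atTop, (s : ℝ) ^ (2 * r) * q ^ s < 1 / (8 * C) :=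
    hlim.eventually (gt_mem_nhds (by positivity))
  obtain ⟨s, hs1, hs2⟩ := (hev.and (eventually_ge_atTop r)).exists
  refine ⟨s, t, hs2, ht0.le, ?_⟩
  have h1 : (Real.exp t - 1) * κ * s - t * ((s : ℝ) / r - 2 - 2 * r) ≤
      (s : ℝ) * (-(t * ρ / 2)) + t * (2 + 2 * r) := by
    have h2 : (Real.exp t - 1) * κ ≤ t * κ + t * (ρ / 2) := by
      calc (Real.exp t - 1) * κ ≤ (t + t ^ 2) * κ := mul_le_mul_of_nonneg_right hexp hκ.le
        _ = t * κ + t * (t * κ) := by ring
        _ ≤ _ := by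
          have := mul_le_mul_of_nonneg_left htκ ht0.le; linarith
    have h3 := mul_le_mul_of_nonneg_right h2 (Nat.cast_nonneg (α := ℝ) s)
    have h4 : t * κ + t * (ρ / 2) - t / r = -(t * ρ / 2) := by
      rw [hρ]; ring
    have h5 : (s : ℝ) * (-(t * ρ / 2)) = (t * κ + t * (ρ / 2)) * s - t * (s / r) := by
      rw [← h4]; ring
    rw [h5]
    linarith
  calc ((s : ℝ) ^ r * (s : ℝ) ^ r) *
      Real.exp ((Real.exp t - 1) * κ * s - t * ((s : ℝ) / r - 2 - 2 * r))
      ≤ ((s : ℝ) ^ r * (s : ℝ) ^ r) * Real.exp ((s : ℝ) * (-(t * ρ / 2)) + t * (2 + 2 * r)) :=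
        mul_le_mul_of_nonneg_left (Real.exp_le_exp.mpr h1) (by positivity)
    _ = ((s : ℝ) ^ (2 * r) * q ^ s) * C := by
        rw [Real.exp_add, Real.exp_nat_mul, ← hq, ← hC, two_mul, pow_add]; ring
    _ ≤ (1 / (8 * C)) * C := mul_le_mul_of_nonneg_right hs1.le hC0.le
    _ = 1 / 8 := by field_simp

theorem exists_robust_pair (r : ℕ) (hr : 1 ≤ r) (κ : ℝ) (hκ : 0 < κ) (hκr : κ * r < 1) :
    ∃ (δ β : ℝ) (n₀ : ℕ), 0 < δ ∧ 0 < β ∧ ∀ (V : Type) [Fintype V] [DecidableEq V],
      n₀ ≤ Fintype.card V → ∀ (c : Finset V → Bool) (cls : (Fin r → V) → ℕ),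
      (∀ x, cls x ≠ 0 → Function.Injective x) →
      ((excCount cls : ℝ) ≤ δ * (Fintype.card V : ℝ) ^ r) →
      (∀ i, (crossCount c cls i : ℝ) ≤ δ * (Fintype.card V : ℝ) ^ (r + 1)) →
      ∃ x y : Fin r → V, cls x ≠ 0 ∧ cls y ≠ 0 ∧
        (cls x = cls y ∨ c (univ.image x) ≠ c (univ.image y)) ∧
        Robust κ β (fun b => univ.filter fun u : Fin r → V =>
          cls u = if b then cls x else cls y) := by
  classical
  obtain ⟨s, t, hrs, ht, hst⟩ := exists_sample_size r hr κ hκ hκr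
  have hs1 : 1 ≤ s := hr.trans hrs
  have hs0 : (0 : ℝ) < s := by exact_mod_cast hs1
  have hr0 : (0 : ℝ) < r := by exact_mod_cast hr
  set δ : ℝ := 1 / (8 * ((s : ℝ) ^ r + (s : ℝ) ^ r * (r * s))) with hδ
  have hδ0 : 0 < δ := by positivity
  set β : ℝ := 1 / (8 * ((s : ℝ) ^ r * ((s : ℝ) ^ r * (s : ℝ) ^ r))) with hβ
  have hβ0 : 0 < β := by positivity
  refine ⟨δ, β, 8 * (s * s), hδ0, hβ0, ?_⟩
  intro V _ _ hn c cls hinj hexc hcr
  have hV : 0 < Fintype.card V := lt_of_lt_of_le (by positivity) hn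
  have hn0 : (0 : ℝ) < Fintype.card V := by exact_mod_cast hV
  have hn' : (8 : ℝ) * (s * s) ≤ Fintype.card V := by exact_mod_cast hn
  by_contra hcon
  push Not at hcon
  -- witnesses
  let Z : ℕ → ℕ → V → ℝ := fun j j' =>
    if h : ∃ z, Witness cls κ β j j' z then h.choose else fun _ => 0
  have hZ : ∀ j j', (∃ z, Witness cls κ β j j' z) → Witness cls κ β j j' (Z j j') := by
    intro j j' h
    simp only [Z, dif_pos h]
    exact h.choose_spec
  have hZ0 : ∀ j j' v, 0 ≤ Z j j' v := by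
    intro j j' v
    by_cases h : ∃ z, Witness cls κ β j j' z
    · exact (hZ j j' h).1 v
    · simp only [Z, dif_neg h]; exact le_rfl
  have hok : ∀ x y : Fin r → V, cls x ≠ 0 → cls y ≠ 0 →
      (cls x = cls y ∨ c (univ.image x) ≠ c (univ.image y)) →
      Witness cls κ β (cls x) (cls y) (Z (cls x) (cls y)) := by
    intro x y hx hy hxy
    apply hZ
    have h := hcon x y hx hy hxy
    unfold Robust at h
    push Not at h
    obtain ⟨z, hz0, hz1, hz2, hz3⟩ := h
    refine ⟨z, hz0, hz1, hz2, ?_⟩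
    refine le_trans (le_of_eq ?_) hz3.le
    rw [cnt_eq]
    congr 2
    ext u
    simp
  have hb1 := cnt_E1 (V := V) (s := s) hV
  have hb2 := cnt_E2 (s := s) hV cls δ hδ0.le hexc
  have hb3 := cnt_E3 (s := s) hV c cls δ hδ0.le hcr
  have hb4 := cnt_E4 (s := s) hV cls Z κ β hκ.le t ((s : ℝ) / r - 2 - 2 * r) ht
  have hb5 := cnt_E5 (s := s) hV cls Z κ β hβ0.le
  set N : ℝ := (Fintype.card V : ℝ) ^ s with hN
  have hN0 : 0 < N := by positivity
  have c1 : (s * s : ℝ) * ((1 / (Fintype.card V : ℝ)) * N) ≤ 1 / 8 * N := by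
    have : (s * s : ℝ) * (1 / (Fintype.card V : ℝ)) ≤ 1 / 8 := by
      rw [mul_one_div, div_le_div_iff₀ hn0 (by norm_num)]; linarith
    calc _ = ((s * s : ℝ) * (1 / (Fintype.card V : ℝ))) * N := by ring
      _ ≤ _ := mul_le_mul_of_nonneg_right this hN0.le
  have c23 : (s : ℝ) ^ r * (δ * N) + ((s : ℝ) ^ r * (r * s)) * (δ * N) ≤ 1 / 8 * N := by
    have : ((s : ℝ) ^ r + (s : ℝ) ^ r * (r * s)) * δ = 1 / 8 := by
      rw [hδ]; field_simp
    calc _ = (((s : ℝ) ^ r + (s : ℝ) ^ r * (r * s)) * δ) * N := by ring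
      _ = _ := by rw [this]
      _ ≤ _ := le_rfl
  have c4 : ((s : ℝ) ^ r * (s : ℝ) ^ r) *
        (Real.exp ((Real.exp t - 1) * κ * s - t * ((s : ℝ) / r - 2 - 2 * r)) * N) ≤
        1 / 8 * N := by
    calc _ = (((s : ℝ) ^ r * (s : ℝ) ^ r) *
        Real.exp ((Real.exp t - 1) * κ * s - t * ((s : ℝ) / r - 2 - 2 * r))) * N := by ring
      _ ≤ _ := mul_le_mul_of_nonneg_right hst hN0.le
  have c5 : ((s : ℝ) ^ r * ((s : ℝ) ^ r * (s : ℝ) ^ r)) * (β * N) ≤ 1 / 8 * N := by
    have : ((s : ℝ) ^ r * ((s : ℝ) ^ r * (s : ℝ) ^ r)) * β = 1 / 8 := by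
      rw [hβ]; field_simp
    calc _ = (((s : ℝ) ^ r * ((s : ℝ) ^ r * (s : ℝ) ^ r)) * β) * N := by ring
      _ = _ := by rw [this]
      _ ≤ _ := le_rfl
  -- a good sample
  have hgood : ∃ S : Fin s → V, ¬ (E1 S ∨ E2 cls S ∨ E3 c cls S ∨
      E4 cls Z (fun j j' => Witness cls κ β j j' (Z j j')) ((s : ℝ) / r - 2 - 2 * r) S ∨
      E5 cls Z (fun j j' => Witness cls κ β j j' (Z j j')) S) := by
    by_contra hall
    push Not at hall
    have hall' : ∀ S : Fin s → V, (E1 S ∨ E2 cls S ∨ E3 c cls S ∨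
      E4 cls Z (fun j j' => Witness cls κ β j j' (Z j j')) ((s : ℝ) / r - 2 - 2 * r) S ∨
      E5 cls Z (fun j j' => Witness cls κ β j j' (Z j j')) S) := by
      intro S
      by_contra h
      push Not at h
      have := hall S
      tauto
    have h1 : N ≤ cnt (fun S : Fin s → V => E1 S ∨ E2 cls S ∨ E3 c cls S ∨
      E4 cls Z (fun j j' => Witness cls κ β j j' (Z j j')) ((s : ℝ) / r - 2 - 2 * r) S ∨
      E5 cls Z (fun j j' => Witness cls κ β j j' (Z j j')) S) := by
      rw [cnt_eq, filter_true_of_mem (fun S _ => hall' S)]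
      simp [hN]
    have h2 := h1.trans ((cnt_or _ _).trans (add_le_add le_rfl ((cnt_or _ _).trans
      (add_le_add le_rfl ((cnt_or _ _).trans (add_le_add le_rfl (cnt_or _ _)))))))
    linarith
  obtain ⟨S, hS⟩ := hgood
  push Not at hS
  exact core hr hrs c cls Z hZ0 (fun j j' => Witness cls κ β j j' (Z j j')) hok S
    hS.1 hS.2.1 hS.2.2.1 hS.2.2.2.1 hS.2.2.2.2

end Pool.Agent.Lib.MP_952639_co
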