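import Pool.Agent.Lib.MP_952639_co.TilingB

/-!
# The tiling theorem
-/

namespace Pool.Agent.Lib.MP_952639_co

open Finset

/-- rounding the loads to disjoint blocks. -/
theorem round_blocks {V : Type} [Fintype V] [DecidableEq V] {r M : ℕ} (hr : 1 ≤ r)
    (A : Bool → Finset (Fin r → V)) (b : ℕ → Bool) (U : ℕ → Fin r → Fin M → V)
    (hU : ∀ t, IsBlock A (b t) (U t)) (τ S : ℕ) (hτ : 0 < τ) (e : ℝ) (he : 0 < e)
    (hM : (τ : ℝ) ≤ e ^ 2 * M) (hM0 : 0 < M) :
    ∃ (D : Fin S → Fin r → Finset V) (m : Fin S → ℕ),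
      (∀ t i, (D t i).card = m t) ∧
      (∀ t i t' i', (t, i) ≠ (t', i') → Disjoint (D t i) (D t' i')) ∧
      (∀ t (x : Fin r → V), (∀ i, x i ∈ D t i) → x ∈ A (b t)) ∧
      (S : ℝ) * M / τ - ((∑ v, (load U S v - τ) : ℕ) : ℝ) / τ - S * r * e * M / τ ≤
        ∑ t, (m t : ℝ) := by
  have hτ0 : (0 : ℝ) < τ := by exact_mod_cast hτ
  have hM0' : (0 : ℝ) < M := by exact_mod_cast hM0
  set Bk : Fin S × Fin r → Finset V := fun k => univ.image (U k.1 k.2) with hBk
  have hBkc : ∀ k, (Bk k).card = M := by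
    intro k
    rw [hBk]
    simp only []
    rw [card_image_of_injective]
    · simp
    · intro m m' h
      have := (hU k.1).1 (a₁ := (k.2, m)) (a₂ := (k.2, m')) h
      simpa using this
  set G : Fin S × Fin r → Finset V := fun k => (Bk k).filter fun v => load U k.1 v < τ with hG
  set O : Fin S × Fin r → Finset V := fun k => (Bk k).filter fun v => τ ≤ load U k.1 v with hO
  have hGO : ∀ k, ((G k).card : ℝ) = M - (O k).card := by
    intro k
    have h1 : (G k).card + (O k).card = M := by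
      rw [← hBkc k, hG, hO]
      simp only []
      rw [← Finset.card_filter_add_card_filter_not (s := Bk k) (fun v => load U k.1 v < τ)]
      congr 2
      ext v
      simp
    have h2 : ((G k).card : ℝ) + (O k).card = M := by exact_mod_cast h1
    linarith
  obtain ⟨σ, hσ⟩ := exists_slots hτ G (fun k v => load U k.1 v) (fun k v hv =>
    (mem_filter.mp hv).2)
  set D0 : Fin S × Fin r → Finset V :=
    fun k => (G k).filter fun v => (σ v : ℕ) = load U k.1 v with hD0
  -- disjointness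
  have hmemB : ∀ k v, v ∈ D0 k → v ∈ Bk k ∧ load U k.1 v < τ ∧ (σ v : ℕ) = load U k.1 v := by
    intro k v hv
    have h1 := mem_filter.mp hv
    have h2 := mem_filter.mp h1.1
    exact ⟨h2.1, h2.2, h1.2⟩
  have hBimg : ∀ k v, v ∈ Bk k → v ∈ img (U k.1) := by
    intro k v hv
    obtain ⟨m, -, hm⟩ := mem_image.mp hv
    exact mem_img.mpr ⟨k.2, m, hm⟩
  have hlt : ∀ (t t' : Fin S) v, t < t' → v ∈ img (U t) → load U t v < load U t' v := by
    intro t t' v htt hv
    have h1 : load U (t + 1) v = load U t v + 1 := by rw [load_succ, if_pos hv]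
    have h2 : load U (t + 1) v ≤ load U t' v := load_mono U v htt
    omega
  have hdis0 : ∀ k k', k ≠ k' → ∀ v, v ∈ D0 k → v ∉ D0 k' := by
    intro k k' hkk v hv hv'
    obtain ⟨h1, h2, h3⟩ := hmemB k v hv
    obtain ⟨h1', h2', h3'⟩ := hmemB k' v hv'
    rcases lt_trichotomy k.1 k'.1 with h | h | h
    · have := hlt k.1 k'.1 v h (hBimg k v h1)
      omega
    · obtain ⟨m, -, hm⟩ := mem_image.mp h1
      obtain ⟨m', -, hm'⟩ := mem_image.mp h1'
      rw [← h] at hm'
      have := (hU k.1).1 (a₁ := (k.2, m)) (a₂ := (k'.2, m')) (hm.trans hm'.symm)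
      rw [Prod.mk.injEq] at this
      exact hkk (Prod.ext h this.1)
    · have := hlt k'.1 k.1 v h (hBimg k' v h1')
      omega
  -- trimming
  haveI : Nonempty (Fin r) := ⟨⟨0, hr⟩⟩
  have hmin : ∀ t : Fin S, ∃ i, ∀ i', (D0 (t, i)).card ≤ (D0 (t, i')).card := by
    intro t
    obtain ⟨i, -, hi⟩ := Finset.exists_min_image univ (fun i => (D0 (t, i)).card) univ_nonempty
    exact ⟨i, fun i' => hi i' (mem_univ i')⟩
  choose im him using hmin
  have htrim : ∀ (t : Fin S) (i : Fin r), ∃ D ⊆ D0 (t, i), D.card = (D0 (t, im t)).card :=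
    fun t i => exists_subset_card_eq (him t i)
  choose D hD1 hD2 using htrim
  refine ⟨D, fun t => (D0 (t, im t)).card, hD2, ?_, ?_, ?_⟩
  · intro t i t' i' hne
    rw [Finset.disjoint_left]
    intro v hv hv'
    exact hdis0 (t, i) (t', i') hne v (hD1 t i hv) (hD1 t' i' hv')
  · intro t x hx
    have h1 : ∀ i, ∃ m, U t i m = x i := by
      intro i
      obtain ⟨m, -, hm⟩ := mem_image.mp (hmemB (t, i) _ (hD1 t i (hx i))).1
      exact ⟨m, hm⟩
    choose j hj using h1
    have h2 := (hU t).2 j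
    have h3 : (fun i => U t i (j i)) = x := funext hj
    rwa [h3] at h2
  · -- the count
    set dev : Fin S × Fin r → ℝ := fun k => ((D0 k).card : ℝ) - (G k).card / τ with hdev
    have hdevs : ∑ k, (dev k) ^ 2 ≤ ∑ k, ((G k).card : ℝ) / τ := hσ
    set lam : ℝ := e * M / τ with hlam
    have hlam0 : 0 < lam := by positivity
    have habs : ∀ k, |dev k| ≤ (dev k) ^ 2 / (2 * lam) + lam / 2 := by
      intro k
      have h1 : 0 ≤ (|dev k| - lam) ^ 2 := sq_nonneg _
      have h2 : |dev k| ^ 2 = dev k ^ 2 := sq_abs _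
      rw [div_add_div _ _ (by positivity) (by norm_num), le_div_iff₀ (by positivity)]
      nlinarith
    have hcardG : ∀ k, ((G k).card : ℝ) / τ ≤ M / τ := by
      intro k
      rw [hGO k]
      apply div_le_div_of_nonneg_right _ hτ0.le
      have : (0 : ℝ) ≤ (O k).card := Nat.cast_nonneg _
      linarith
    have hsumdev : ∑ k, |dev k| ≤ S * r * e * M / τ := by
      have h1 : ∑ k, |dev k| ≤ (∑ k, (dev k) ^ 2) / (2 * lam) + S * r * (lam / 2) := by
        calc ∑ k, |dev k| ≤ ∑ k, ((dev k) ^ 2 / (2 * lam) + lam / 2) :=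
              Finset.sum_le_sum fun k _ => habs k
          _ = _ := by
              rw [Finset.sum_add_distrib, ← Finset.sum_div, Finset.sum_const, card_univ,
                Fintype.card_prod, Fintype.card_fin, Fintype.card_fin, nsmul_eq_mul]
              push_cast
              ring
      have h2 : ∑ k, (dev k) ^ 2 ≤ S * r * (M / τ) := by
        refine hdevs.trans ?_
        calc ∑ k, ((G k).card : ℝ) / τ ≤ ∑ _k : Fin S × Fin r, (M : ℝ) / τ :=
              Finset.sum_le_sum fun k _ => hcardG k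
          _ = _ := by
              rw [Finset.sum_const, card_univ, Fintype.card_prod, Fintype.card_fin,
                Fintype.card_fin, nsmul_eq_mul]
              push_cast; ring
      have h3 : (S * r * (M / τ) : ℝ) / (2 * lam) ≤ S * r * (lam / 2) := by
        rw [div_le_iff₀ (by positivity)]
        have h4 : (M : ℝ) / τ ≤ lam * lam := by
          rw [hlam]
          rw [div_mul_div_comm, div_le_div_iff₀ hτ0 (by positivity)]
          have h5 : (M * τ : ℝ) * τ ≤ (M * τ) * (e ^ 2 * M) :=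
            mul_le_mul_of_nonneg_left hM (by positivity)
          nlinarith
        have h6 : (S * r : ℝ) * (M / τ) ≤ (S * r) * (lam * lam) :=
          mul_le_mul_of_nonneg_left h4 (by positivity)
        nlinarith
      have h7 : (∑ k, (dev k) ^ 2) / (2 * lam) ≤ (S * r * (M / τ) : ℝ) / (2 * lam) :=
        div_le_div_of_nonneg_right h2 (by positivity)
      have h8 : (S : ℝ) * r * e * M / τ = S * r * (lam / 2) + S * r * (lam / 2) := by
        rw [hlam]; ring
      rw [h8]
      linarith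
    have hone : ∀ t : Fin S, (M : ℝ) / τ - (∑ i, ((O (t, i)).card : ℝ)) / τ -
        ∑ i, |dev (t, i)| ≤ ((D0 (t, im t)).card : ℝ) := by
      intro t
      have h1 : ((D0 (t, im t)).card : ℝ) = (M - (O (t, im t)).card) / τ + dev (t, im t) := by
        have h0 := hGO (t, im t)
        simp only [hdev]
        rw [h0]; ring
      have h2 : ((O (t, im t)).card : ℝ) ≤ ∑ i, ((O (t, i)).card : ℝ) :=
        Finset.single_le_sum (f := fun i => ((O (t, i)).card : ℝ))
          (fun i _ => Nat.cast_nonneg _) (mem_univ (im t))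
      have h3 : |dev (t, im t)| ≤ ∑ i, |dev (t, i)| :=
        Finset.single_le_sum (f := fun i => |dev (t, i)|)
          (fun i _ => abs_nonneg _) (mem_univ (im t))
      have h4 : ((O (t, im t)).card : ℝ) / τ ≤ (∑ i, ((O (t, i)).card : ℝ)) / τ :=
        div_le_div_of_nonneg_right h2 hτ0.le
      have h5 := neg_abs_le (dev (t, im t))
      rw [h1, sub_div]
      linarith
    have hOsum : ∑ t : Fin S, ∑ i, ((O (t, i)).card : ℝ) ≤
        ((∑ v, (load U S v - τ) : ℕ) : ℝ) := by
      rw [← overload_count U τ S, ← Fin.sum_univ_eq_sum_range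
        (fun t => ((img (U t)).filter fun v => τ ≤ load U t v).card) S]
      push_cast
      apply Finset.sum_le_sum
      intro t _
      have h1 : ∑ i, (O (t, i)).card ≤ ((img (U t)).filter fun v => τ ≤ load U t v).card := by
        rw [← card_biUnion]
        · apply card_le_card
          intro v hv
          obtain ⟨i, -, hi⟩ := mem_biUnion.mp hv
          have h2 := mem_filter.mp hi
          exact mem_filter.mpr ⟨hBimg _ _ h2.1, h2.2⟩
        · intro i _ i' _ hii
          rw [Function.onFun, Finset.disjoint_left]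
          intro v hv hv'
          obtain ⟨m, -, hm⟩ := mem_image.mp (mem_filter.mp hv).1
          obtain ⟨m', -, hm'⟩ := mem_image.mp (mem_filter.mp hv').1
          have := (hU t).1 (a₁ := (i, m)) (a₂ := (i', m')) (hm.trans hm'.symm)
          rw [Prod.mk.injEq] at this
          exact hii this.1
      exact_mod_cast h1
    have hdsum : ∑ t : Fin S, ∑ i, |dev (t, i)| = ∑ k, |dev k| := by
      rw [Fintype.sum_prod_type]
    calc (S : ℝ) * M / τ - ((∑ v, (load U S v - τ) : ℕ) : ℝ) / τ - S * r * e * M / τ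
        ≤ (S : ℝ) * M / τ - (∑ t : Fin S, ∑ i, ((O (t, i)).card : ℝ)) / τ -
            ∑ t : Fin S, ∑ i, |dev (t, i)| := by
          have := div_le_div_of_nonneg_right hOsum hτ0.le
          rw [hdsum]
          linarith
      _ = ∑ t : Fin S, ((M : ℝ) / τ - (∑ i, ((O (t, i)).card : ℝ)) / τ -
            ∑ i, |dev (t, i)|) := by
          rw [Finset.sum_sub_distrib, Finset.sum_sub_distrib, Finset.sum_const, card_univ,
            Fintype.card_fin, nsmul_eq_mul, ← Finset.sum_div]
          ring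
      _ ≤ _ := Finset.sum_le_sum fun t _ => hone t

/-- the numerical estimate of the overload (`a = 1 + e`). -/
lemma overload_real {e n r M : ℝ} {τ S : ℕ} (he0 : 0 < e) (hn0 : 0 < n) (hrM : 0 < r * M)
    (hS1 : (S : ℝ) * (r * M) ≤ τ / (1 + e) ^ 3 * n) (hτ : 0 < τ)
    (hτge : (1 + e) ^ 2 / e ^ 4 ≤ τ) :
    n * (1 + e * (M * ((1 + e) * r)) / n) ^ S / (e * (1 + e) ^ τ) ≤ e * n := by
  have hτ0 : (0 : ℝ) < τ := by exact_mod_cast hτ
  obtain ⟨a, ha⟩ : ∃ a : ℝ, a = 1 + e := ⟨_, rfl⟩
  rw [← ha] at hS1 hτge ⊢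
  have ha0 : 0 < a := by linarith
  obtain ⟨C, hC⟩ : ∃ C : ℝ, C = e * (M * (a * r)) / n := ⟨_, rfl⟩
  rw [← hC]
  have hC0 : 0 ≤ C := by
    have : C = e * a * (r * M) / n := by rw [hC]; ring
    rw [this]; positivity
  have h2 : (1 + C) ^ S ≤ Real.exp (e * τ / a ^ 2) := by
    calc (1 + C) ^ S ≤ (Real.exp C) ^ S := by
          apply pow_le_pow_left₀ (by linarith)
          have := Real.add_one_le_exp C
          linarith
      _ = Real.exp (S * C) := by rw [← Real.exp_nat_mul]
      _ ≤ Real.exp (e * τ / a ^ 2) := by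
          apply Real.exp_le_exp.mpr
          rw [hC]
          have h3 : (S : ℝ) * (e * (M * (a * r)) / n) = (S * (r * M)) * (e * a) / n := by ring
          rw [h3, div_le_iff₀ hn0]
          calc (S * (r * M) : ℝ) * (e * a) ≤ (τ / a ^ 3 * n) * (e * a) :=
                mul_le_mul_of_nonneg_right hS1 (by positivity)
            _ = e * τ / a ^ 2 * n := by field_simp
  have h4 : Real.exp (e * τ / a) ≤ a ^ τ := by
    have h5 : Real.exp (e / a) ≤ a := by
      have h6 : 1 - e / a ≤ Real.exp (-(e / a)) := by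
        have := Real.add_one_le_exp (-(e / a))
        linarith
      have h7 : 1 - e / a = a⁻¹ := by
        have : e = a - 1 := by linarith
        rw [this]; field_simp; ring
      rw [h7, Real.exp_neg] at h6
      exact (inv_le_inv₀ ha0 (Real.exp_pos _)).mp h6
    calc Real.exp (e * τ / a) = (Real.exp (e / a)) ^ τ := by
          rw [← Real.exp_nat_mul]; congr 1; ring
      _ ≤ a ^ τ := pow_le_pow_left₀ (Real.exp_pos _).le h5 τ
  have h8 : n * (1 + C) ^ S / (e * a ^ τ) ≤
      n * Real.exp (e * τ / a ^ 2) / (e * Real.exp (e * τ / a)) := by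
    apply div_le_div₀ (by positivity)
    · exact mul_le_mul_of_nonneg_left h2 hn0.le
    · positivity
    · exact mul_le_mul_of_nonneg_left h4 he0.le
  refine h8.trans ?_
  obtain ⟨x, hx⟩ : ∃ x : ℝ, x = e ^ 2 * τ / a ^ 2 := ⟨_, rfl⟩
  have hx0 : 0 < x := by rw [hx]; positivity
  have h9 : Real.exp (e * τ / a) = Real.exp (e * τ / a ^ 2) * Real.exp x := by
    rw [← Real.exp_add]
    congr 1
    have h7 : e * τ / a = e * τ * a / a ^ 2 := by field_simp
    rw [hx, h7, ← add_div]
    congr 1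
    rw [ha]; ring
  rw [h9]
  have h10 : n * Real.exp (e * τ / a ^ 2) / (e * (Real.exp (e * τ / a ^ 2) * Real.exp x)) =
      n / (e * Real.exp x) := by
    have h := (Real.exp_pos (e * τ / a ^ 2)).ne'
    rw [show e * (Real.exp (e * τ / a ^ 2) * Real.exp x) =
      (e * Real.exp x) * Real.exp (e * τ / a ^ 2) by ring]
    exact mul_div_mul_right _ _ h
  rw [h10, div_le_iff₀ (by positivity)]
  have h11 : x ≤ Real.exp x := by
    have := Real.add_one_le_exp x
    linarith
  have h12 : 1 ≤ e ^ 2 * x := by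
    rw [div_le_iff₀ (by positivity)] at hτge
    have h13 : e ^ 2 * x = (τ * e ^ 4) / a ^ 2 := by rw [hx]; ring
    rw [h13, le_div_iff₀ (by positivity)]
    linarith
  have h14 : e ^ 2 * x ≤ e ^ 2 * Real.exp x := mul_le_mul_of_nonneg_left h11 (by positivity)
  have h15 : n * 1 ≤ n * (e ^ 2 * Real.exp x) :=
    mul_le_mul_of_nonneg_left (by linarith) hn0.le
  calc n = n * 1 := (mul_one n).symm
    _ ≤ n * (e ^ 2 * Real.exp x) := h15
    _ = e * n * (e * Real.exp x) := by ring

/-- the final numerical estimate. -/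
lemma final_real {e n r M ε τ S Ov : ℝ} (he0 : 0 < e) (hn0 : 0 < n) (hr : 1 ≤ r) (hM : 0 < M)
    (hτ : 1 ≤ τ)
    (hS1 : S * (r * M) ≤ τ / (1 + e) ^ 3 * n) (hS2 : τ / (1 + e) ^ 3 * n - r * M ≤ S * (r * M))
    (hnM : r * M ≤ e * n) (hOv : Ov ≤ e * n) (he : e = ε / (4 + 2 * r)) :
    (1 - ε) * n ≤ r * (S * M / τ - Ov / τ - S * r * e * M / τ) := by
  have hr0 : 0 < r := by linarith
  have hτ0 : 0 < τ := by linarith
  have hen : 0 < e * n := by positivity
  obtain ⟨q, hq⟩ : ∃ q : ℝ, q = 1 / (1 + e) ^ 3 := ⟨_, rfl⟩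
  have hq0 : 0 < q := by rw [hq]; positivity
  have hq1 : q ≤ 1 := by
    rw [hq, div_le_iff₀ (by positivity), one_mul]
    exact one_le_pow₀ (by linarith)
  have hq3 : 1 - 3 * e ≤ q := by
    rw [hq, le_div_iff₀ (by positivity)]
    have h2 : 0 ≤ e ^ 2 := by positivity
    have h3 : 0 ≤ e ^ 3 := by positivity
    have h4 : 0 ≤ e ^ 4 := by positivity
    have : (1 - 3 * e) * (1 + e) ^ 3 = 1 - 6 * e ^ 2 - 8 * e ^ 3 - 3 * e ^ 4 := by ring
    rw [this]; linarith
  have e1 : τ / (1 + e) ^ 3 * n = τ * (q * n) := by rw [hq]; ring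
  rw [e1] at hS1 hS2
  have hA1 : q * n - e * n ≤ r * (S * M / τ) := by
    have h6 : r * (S * M / τ) = S * (r * M) / τ := by ring
    rw [h6, le_div_iff₀ hτ0]
    have h7 : e * n ≤ e * n * τ := by nlinarith
    nlinarith
  have hA2 : r * (Ov / τ) ≤ r * e * n := by
    have h2 : Ov / τ ≤ e * n := by
      rw [div_le_iff₀ hτ0]
      have h7 : e * n ≤ e * n * τ := by nlinarith
      linarith
    calc r * (Ov / τ) ≤ r * (e * n) := mul_le_mul_of_nonneg_left h2 hr0.le
      _ = _ := by ring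
  have hA3 : r * (S * r * e * M / τ) ≤ r * e * n := by
    have h2 : (S * (r * M)) / τ ≤ n := by
      rw [div_le_iff₀ hτ0]
      have h8 : τ * (q * n) ≤ τ * (1 * n) :=
        mul_le_mul_of_nonneg_left (mul_le_mul_of_nonneg_right hq1 hn0.le) hτ0.le
      linarith
    calc r * (S * r * e * M / τ) = (r * e) * (S * (r * M) / τ) := by ring
      _ ≤ (r * e) * n := mul_le_mul_of_nonneg_left h2 (by positivity)
  have hA5 : (1 - 3 * e) * n ≤ q * n := mul_le_mul_of_nonneg_right hq3 hn0.le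
  have hεe : ε = e * (4 + 2 * r) := by rw [he]; field_simp
  have hA6 : (1 - ε) * n = (1 - 3 * e) * n - e * n - 2 * (r * e * n) := by
    rw [hεe]; ring
  rw [hA6, mul_sub, mul_sub]
  linarith

/-- MODULE Tiling (uses `exists_block`) -/
theorem exists_tiling (r : ℕ) (hr : 1 ≤ r) (ε : ℝ) (hε : 0 < ε) :
    ∃ κ : ℝ, 0 < κ ∧ κ * r < 1 ∧ ∀ β : ℝ, 0 < β → ∀ ν : ℝ, 0 < ν → ∃ n₀ : ℕ,
      ∀ (V : Type) [Fintype V] [DecidableEq V], n₀ ≤ Fintype.card V →
      ∀ A : Bool → Finset (Fin r → V), (∀ b, ∀ x ∈ A b, Function.Injective x) →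
      Robust κ β A →
      ∃ (T : ℕ) (b : Fin T → Bool) (D : Fin T → Fin r → Finset V) (m : Fin T → ℕ),
        (T : ℝ) ≤ ν * Fintype.card V ∧
        (∀ t i, (D t i).card = m t) ∧
        (∀ t i t' i', (t, i) ≠ (t', i') → Disjoint (D t i) (D t' i')) ∧
        (∀ t (x : Fin r → V), (∀ i, x i ∈ D t i) → x ∈ A (b t)) ∧
        (1 - ε) * Fintype.card V ≤ ∑ t, (r : ℝ) * m t := by
  have hr0 : (0 : ℝ) < r := by exact_mod_cast hr
  have hr1 : (1 : ℝ) ≤ r := by exact_mod_cast hr
  set e : ℝ := ε / (4 + 2 * r) with he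
  have he0 : 0 < e := by positivity
  set a : ℝ := 1 + e with ha
  have ha1 : 1 < a := by linarith
  have ha0 : 0 < a := by linarith
  refine ⟨1 / (a * r), by positivity, ?_, ?_⟩
  · rw [one_div, mul_inv, mul_assoc, inv_mul_cancel₀ hr0.ne', mul_one]
    exact inv_lt_one_of_one_lt₀ ha1
  intro β hβ ν hν
  set τ : ℕ := ⌈a ^ 2 / e ^ 4⌉₊ + 1 with hτdef
  have hτpos : 0 < τ := by omega
  have hτ0 : (0 : ℝ) < τ := by exact_mod_cast hτpos
  have hτ1 : (1 : ℝ) ≤ τ := by exact_mod_cast hτpos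
  have hτge : a ^ 2 / e ^ 4 ≤ τ := by
    have := Nat.le_ceil (a ^ 2 / e ^ 4)
    rw [hτdef]; push_cast; linarith
  set M : ℕ := ⌈(τ : ℝ) / e ^ 2⌉₊ + ⌈(τ : ℝ) / ν⌉₊ + 1 with hMdef
  have hMpos : 0 < M := by omega
  have hM0 : (0 : ℝ) < M := by exact_mod_cast hMpos
  have hM1 : (τ : ℝ) ≤ e ^ 2 * M := by
    have h1 := Nat.le_ceil ((τ : ℝ) / e ^ 2)
    have h2 : (τ : ℝ) / e ^ 2 ≤ M := by
      rw [hMdef]; push_cast
      have : (0 : ℝ) ≤ ⌈(τ : ℝ) / ν⌉₊ := Nat.cast_nonneg _
      linarith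
    rw [div_le_iff₀ (by positivity)] at h2
    linarith
  have hM2 : (τ : ℝ) ≤ ν * M := by
    have h1 := Nat.le_ceil ((τ : ℝ) / ν)
    have h2 : (τ : ℝ) / ν ≤ M := by
      rw [hMdef]; push_cast
      have : (0 : ℝ) ≤ ⌈(τ : ℝ) / e ^ 2⌉₊ := Nat.cast_nonneg _
      linarith
    rw [div_le_iff₀ hν] at h2
    linarith
  obtain ⟨n₁, hn₁, hiter⟩ := blocks_iter r M hr a β ha1 hβ
  refine ⟨max n₁ ⌈(r * M : ℝ) / e⌉₊, ?_⟩
  intro V _ _ hn A hA hR
  obtain ⟨b, U, hU, hload⟩ := hiter V (le_trans (le_max_left _ _) hn) A hA hR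
  set n : ℝ := (Fintype.card V : ℝ) with hndef
  have hn0 : 0 < n := by
    have : 0 < Fintype.card V := lt_of_lt_of_le hn₁ (le_trans (le_max_left _ _) hn)
    rw [hndef]; exact_mod_cast this
  have hnM : (r * M : ℝ) ≤ e * n := by
    have h1 := Nat.le_ceil ((r * M : ℝ) / e)
    have h2 : ((⌈(r * M : ℝ) / e⌉₊ : ℕ) : ℝ) ≤ n := by
      rw [hndef]; exact_mod_cast le_trans (le_max_right _ _) hn
    have h3 : (r * M : ℝ) / e ≤ n := h1.trans h2
    rw [div_le_iff₀ he0] at h3
    linarith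
  set Lam : ℝ := τ / a ^ 3 with hLam
  have hLam0 : 0 < Lam := by positivity
  have hLamτ : Lam ≤ τ := by
    rw [hLam, div_le_iff₀ (by positivity)]
    have : 1 ≤ a ^ 3 := one_le_pow₀ ha1.le
    nlinarith
  set S : ℕ := ⌊Lam * n / (r * M)⌋₊ with hS
  have hrM : (0 : ℝ) < r * M := by positivity
  have hS1 : (S : ℝ) * (r * M) ≤ Lam * n := by
    have := Nat.floor_le (show 0 ≤ Lam * n / (r * M) by positivity)
    rw [← hS, le_div_iff₀ hrM] at this
    exact this
  have hS2 : Lam * n - r * M ≤ (S : ℝ) * (r * M) := by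
    have := (Nat.lt_floor_add_one (Lam * n / (r * M))).le
    rw [← hS, div_le_iff₀ hrM] at this
    linarith
  obtain ⟨D, m, hD1, hD2, hD3, hD4⟩ := round_blocks hr A b U hU τ S hτpos e he0 hM1 hMpos
  refine ⟨S, fun t => b t, D, m, ?_, hD1, hD2, hD3, ?_⟩
  · -- number of blocks
    have h1 : (S : ℝ) * M ≤ ν * n * M := by
      calc (S : ℝ) * M ≤ S * (r * M) := by
            have : (M : ℝ) ≤ r * M := by nlinarith
            exact mul_le_mul_of_nonneg_left this (Nat.cast_nonneg S)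
        _ ≤ Lam * n := hS1
        _ ≤ τ * n := mul_le_mul_of_nonneg_right hLamτ hn0.le
        _ ≤ ν * M * n := mul_le_mul_of_nonneg_right hM2 hn0.le
        _ = ν * n * M := by ring
    exact le_of_mul_le_mul_right h1 hM0
  · -- overload
    have hover : ((∑ v, (load U S v - τ) : ℕ) : ℝ) ≤ e * n := by
      have h1 := overload_le U a ha1 τ S _ (hload S)
      refine h1.trans ?_
      have hae : a - 1 = e := by rw [ha]; ring
      rw [hae]
      exact overload_real he0 hn0 hrM (by rw [← hLam]; exact hS1) hτpos hτge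
    rw [← Finset.mul_sum]
    have h1 := mul_le_mul_of_nonneg_left hD4 hr0.le
    refine le_trans ?_ h1
    exact final_real he0 hn0 hr1 hM0 hτ1 (by rw [← hLam]; exact hS1) (by rw [← hLam]; exact hS2)
      hnM hover he

end Pool.Agent.Lib.MP_952639_co
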