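import Pool.Agent.Lib.MP_952639_co.Tree

/-!
# Sampling: counting lemmas
-/

namespace Pool.Agent.Lib.MP_952639_co

open Finset

set_option linter.unusedSectionVars false

section

variable {V : Type*} [Fintype V] [DecidableEq V]

open Classical in
/-- Number of samples with a property. -/
noncomputable def cnt {ι : Type*} [Fintype ι] [DecidableEq ι] (P : (ι → V) → Prop) : ℝ :=
  ((univ.filter P).card : ℝ)

lemma cnt_eq {ι : Type*} [Fintype ι] [DecidableEq ι] (P : (ι → V) → Prop) [DecidablePred P] :
    cnt P = ((univ.filter P).card : ℝ) := by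
  unfold cnt
  congr

lemma cnt_nonneg {ι : Type*} [Fintype ι] [DecidableEq ι] (P : (ι → V) → Prop) : 0 ≤ cnt P := by
  unfold cnt; positivity

lemma cnt_mono {ι : Type*} [Fintype ι] [DecidableEq ι] {P Q : (ι → V) → Prop}
    (h : ∀ S, P S → Q S) : cnt P ≤ cnt Q := by
  classical
  unfold cnt
  exact_mod_cast card_le_card (monotone_filter_right _ (fun S _ hS => h S hS))

/-- The conditioning lemma. -/
lemma cnt_cond {s k : ℕ} (c : Fin k → Fin s) (hc : Function.Injective c)
    (P : (Fin s → V) → Prop) (B : ℝ)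
    (hB : ∀ S : Fin s → V, cnt (fun y : Fin k → V => P (Function.extend c y S)) ≤ B) :
    cnt P * (Fintype.card V : ℝ) ^ k ≤ (Fintype.card V : ℝ) ^ s * B := by
  classical
  have h1 : ((univ.filter P) ×ˢ (univ : Finset (Fin k → V))).card ≤
      (univ.filter fun q : (Fin s → V) × (Fin k → V) => P (Function.extend c q.2 q.1)).card := by
    apply card_le_card_of_injOn (fun q => (Function.extend c q.2 q.1, q.1 ∘ c))
    · intro q hq
      rw [mem_coe, mem_product, mem_filter] at hq
      rw [mem_coe, mem_filter]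
      refine ⟨mem_univ _, ?_⟩
      have : Function.extend c (q.1 ∘ c) (Function.extend c q.2 q.1) = q.1 := by
        funext j
        by_cases hj : ∃ i, c i = j
        · obtain ⟨i, rfl⟩ := hj
          rw [hc.extend_apply]; rfl
        · rw [Function.extend_apply' _ _ _ hj, Function.extend_apply' _ _ _ hj]
      simp only
      rw [this]
      exact hq.1.2
    · intro q _ q' _ hqq'
      rw [Prod.mk.injEq] at hqq'
      obtain ⟨h1, h2⟩ := hqq'
      have e2 : q.2 = q'.2 := by
        funext i
        have := congrFun h1 (c i)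
        rwa [hc.extend_apply, hc.extend_apply] at this
      have e1 : q.1 = q'.1 := by
        funext j
        by_cases hj : ∃ i, c i = j
        · obtain ⟨i, rfl⟩ := hj
          exact congrFun h2 i
        · have := congrFun h1 j
          rwa [Function.extend_apply' _ _ _ hj, Function.extend_apply' _ _ _ hj] at this
      exact Prod.ext e1 e2
  have h2 : ((univ.filter fun q : (Fin s → V) × (Fin k → V) =>
      P (Function.extend c q.2 q.1)).card : ℝ) =
      ∑ S : Fin s → V, cnt (fun y : Fin k → V => P (Function.extend c y S)) := by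
    rw [card_filter, Nat.cast_sum, Fintype.sum_prod_type]
    refine sum_congr rfl fun S _ => ?_
    rw [cnt_eq, card_filter, Nat.cast_sum]
  have h3 : cnt P * (Fintype.card V : ℝ) ^ k ≤
      ∑ S : Fin s → V, cnt (fun y : Fin k → V => P (Function.extend c y S)) := by
    rw [← h2]
    have h4 : (((univ.filter P) ×ˢ (univ : Finset (Fin k → V))).card : ℝ) ≤
      ((univ.filter fun q : (Fin s → V) × (Fin k → V) =>
        P (Function.extend c q.2 q.1)).card : ℝ) := Nat.cast_le.mpr h1
    refine le_trans (le_of_eq ?_) h4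
    rw [card_product, Nat.cast_mul, cnt_eq]
    congr 1
    simp
  refine h3.trans ?_
  calc ∑ S : Fin s → V, cnt (fun y : Fin k → V => P (Function.extend c y S))
      ≤ ∑ _S : Fin s → V, B := sum_le_sum fun S _ => hB S
    _ = _ := by rw [sum_const, nsmul_eq_mul]; simp

/-- If the conditional counts are at most `b n^k` then the count is at most `b n^s`. -/
lemma cnt_cond' (hV : 0 < Fintype.card V) {s k : ℕ} (c : Fin k → Fin s)
    (hc : Function.Injective c) (P : (Fin s → V) → Prop) (b : ℝ)
    (hB : ∀ S : Fin s → V, cnt (fun y : Fin k → V => P (Function.extend c y S)) ≤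
      b * (Fintype.card V : ℝ) ^ k) :
    cnt P ≤ b * (Fintype.card V : ℝ) ^ s := by
  have h := cnt_cond c hc P _ hB
  have hn : (0 : ℝ) < Fintype.card V := by exact_mod_cast hV
  have h2 : cnt P * (Fintype.card V : ℝ) ^ k ≤
      (b * (Fintype.card V : ℝ) ^ s) * (Fintype.card V : ℝ) ^ k := by
    calc _ ≤ _ := h
      _ = _ := by ring
  exact le_of_mul_le_mul_right h2 (by positivity)

/-- Union bound. -/
lemma cnt_exists {s : ℕ} {ι : Type*} [Fintype ι] (P : ι → (Fin s → V) → Prop) (b : ℝ)
    (hb : ∀ i, cnt (P i) ≤ b) : cnt (fun S => ∃ i, P i S) ≤ Fintype.card ι * b := by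
  classical
  rw [cnt_eq]
  simp only [cnt_eq] at hb
  have h1 : (univ.filter fun S : Fin s → V => ∃ i, P i S) ⊆
      (univ : Finset ι).biUnion fun i => univ.filter (P i) := by
    intro S hS
    rw [mem_filter] at hS
    obtain ⟨i, hi⟩ := hS.2
    rw [mem_biUnion]
    exact ⟨i, mem_univ _, by rw [mem_filter]; exact ⟨mem_univ _, hi⟩⟩
  have h2 := (card_le_card h1).trans card_biUnion_le
  have h3 : ((univ.filter fun S : Fin s → V => ∃ i, P i S).card : ℝ) ≤
      ((∑ i : ι, (univ.filter (P i)).card : ℕ) : ℝ) := Nat.cast_le.mpr h2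
  refine h3.trans ?_
  rw [Nat.cast_sum]
  calc ∑ i : ι, ((univ.filter (P i)).card : ℝ) ≤ ∑ _i : ι, b :=
        sum_le_sum fun i _ => hb i
    _ = _ := by rw [sum_const, nsmul_eq_mul]; simp

lemma cnt_or {s : ℕ} (P Q : (Fin s → V) → Prop) :
    cnt (fun S => P S ∨ Q S) ≤ cnt P + cnt Q := by
  classical
  rw [cnt_eq, cnt_eq, cnt_eq]
  have h1 : (univ.filter fun S : Fin s → V => P S ∨ Q S) ⊆ univ.filter P ∪ univ.filter Q := by
    intro S hS
    rw [mem_filter] at hS
    rw [mem_union, mem_filter, mem_filter]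
    rcases hS.2 with h | h
    · exact Or.inl ⟨mem_univ _, h⟩
    · exact Or.inr ⟨mem_univ _, h⟩
  have h2 := (card_le_card h1).trans (card_union_le _ _)
  have h3 : ((univ.filter fun S : Fin s → V => P S ∨ Q S).card : ℝ) ≤
      (((univ.filter P).card + (univ.filter Q).card : ℕ) : ℝ) := Nat.cast_le.mpr h2
  refine h3.trans (le_of_eq ?_)
  rw [Nat.cast_add]

/-- Collisions are rare. -/
lemma cnt_collision (hV : 0 < Fintype.card V) {s : ℕ} (i j : Fin s) (hij : i ≠ j) :
    cnt (fun S : Fin s → V => S i = S j) ≤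
      (1 / (Fintype.card V : ℝ)) * (Fintype.card V : ℝ) ^ s := by
  classical
  have hn : (0 : ℝ) < Fintype.card V := by exact_mod_cast hV
  refine cnt_cond' hV (fun _ : Fin 1 => j) (Function.injective_of_subsingleton _) _ _ ?_
  intro S
  rw [pow_one, one_div_mul_cancel hn.ne', cnt_eq]
  norm_cast
  rw [card_le_one]
  intro y hy y' hy'
  rw [mem_filter] at hy hy'
  have hinj : Function.Injective (fun _ : Fin 1 => j) := Function.injective_of_subsingleton _
  have e : ∀ y : Fin 1 → V, Function.extend (fun _ : Fin 1 => j) y S j = y 0 := by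
    intro y
    exact hinj.extend_apply y S 0
  have e' : ∀ y : Fin 1 → V, Function.extend (fun _ : Fin 1 => j) y S i = S i := by
    intro y
    refine Function.extend_apply' _ _ _ ?_
    rintro ⟨_, h⟩
    exact hij h.symm
  have h1 := hy.2
  have h2 := hy'.2
  rw [e, e'] at h1 h2
  funext a
  have : a = 0 := Subsingleton.elim _ _
  subst this
  rw [← h1, ← h2]

/-- Chernoff's bound, counting form. -/
lemma chernoff (z : V → ℝ) (hz0 : ∀ v, 0 ≤ z v) (hz1 : ∀ v, z v ≤ 1) (κ : ℝ) (_hκ : 0 ≤ κ)
    (hz : ∑ v, z v ≤ κ * Fintype.card V) (t : ℝ) (ht : 0 ≤ t) (k : ℕ) (τ : ℝ) :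
    cnt (fun y : Fin k → V => τ ≤ ∑ i, z (y i)) ≤
      Real.exp ((Real.exp t - 1) * κ * k - t * τ) * (Fintype.card V : ℝ) ^ k := by
  classical
  have h1 : cnt (fun y : Fin k → V => τ ≤ ∑ i, z (y i)) ≤
      ∑ y : Fin k → V, Real.exp (t * (∑ i, z (y i)) - t * τ) := by
    rw [cnt_eq, card_filter, Nat.cast_sum]
    refine sum_le_sum fun y _ => ?_
    split_ifs with h
    · rw [Nat.cast_one, ← Real.exp_zero]
      apply Real.exp_le_exp.mpr
      have := mul_le_mul_of_nonneg_left h ht
      linarith
    · rw [Nat.cast_zero]; positivity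
  have h2 : ∑ y : Fin k → V, Real.exp (t * (∑ i, z (y i)) - t * τ) =
      (∑ v, Real.exp (t * z v)) ^ k * Real.exp (-(t * τ)) := by
    rw [Fintype.sum_pow, sum_mul]
    refine sum_congr rfl fun y _ => ?_
    rw [← Real.exp_sum, ← Real.exp_add, mul_sum, sub_eq_add_neg]
  have h3 : ∑ v, Real.exp (t * z v) ≤ (Fintype.card V : ℝ) * Real.exp ((Real.exp t - 1) * κ) := by
    have h4 : ∀ v, Real.exp (t * z v) ≤ 1 + (Real.exp t - 1) * z v := by
      intro v
      have hconv := convexOn_exp.2 (Set.mem_univ 0) (Set.mem_univ t)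
        (sub_nonneg.mpr (hz1 v)) (hz0 v) (by ring)
      simp only [smul_eq_mul, mul_zero, zero_add, Real.exp_zero, mul_one] at hconv
      rw [mul_comm t]
      linarith
    have h5 : 0 ≤ Real.exp t - 1 := by
      have := Real.add_one_le_exp t; linarith
    calc ∑ v, Real.exp (t * z v) ≤ ∑ v, (1 + (Real.exp t - 1) * z v) :=
          sum_le_sum fun v _ => h4 v
      _ = Fintype.card V + (Real.exp t - 1) * ∑ v, z v := by
          rw [sum_add_distrib, ← mul_sum]; simp
      _ ≤ Fintype.card V + (Real.exp t - 1) * (κ * Fintype.card V) := by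
          have := mul_le_mul_of_nonneg_left hz h5; linarith
      _ = (Fintype.card V : ℝ) * ((Real.exp t - 1) * κ + 1) := by ring
      _ ≤ _ := mul_le_mul_of_nonneg_left (Real.add_one_le_exp _) (by positivity)
  refine h1.trans (h2.le.trans ?_)
  have h4 : (∑ v, Real.exp (t * z v)) ^ k ≤
      ((Fintype.card V : ℝ) * Real.exp ((Real.exp t - 1) * κ)) ^ k :=
    pow_le_pow_left₀ (sum_nonneg fun v _ => (Real.exp_pos _).le) h3 k
  refine (mul_le_mul_of_nonneg_right h4 (Real.exp_pos _).le).trans (le_of_eq ?_)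
  rw [mul_pow, ← Real.exp_nat_mul, mul_assoc, ← Real.exp_add, mul_comm]
  congr 2
  ring

end

end Pool.Agent.Lib.MP_952639_co
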