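import Pool.Agent.Lib.MP_952639_co.SamplingA

/-!
# Sampling: the events, and the combinatorial core
-/

namespace Pool.Agent.Lib.MP_952639_co

open Finset

set_option linter.unusedSectionVars false

section

variable {V : Type*} [Fintype V] [DecidableEq V] {r s : ℕ}

/-- `(x, v)` is a cross pair in direction `i`. -/
def Cross (c : Finset V → Bool) (cls : (Fin r → V) → ℕ) (i : Fin r) (x : Fin r → V) (v : V) :
    Prop :=
  cls x ≠ 0 ∧ cls (Function.update x i v) ≠ 0 ∧
      c (univ.image x) = c (univ.image (Function.update x i v)) ∧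
      cls x ≠ cls (Function.update x i v)

def E1 (S : Fin s → V) : Prop := ∃ p : Fin s × Fin s, p.1 ≠ p.2 ∧ S p.1 = S p.2

def E2 (cls : (Fin r → V) → ℕ) (S : Fin s → V) : Prop :=
  ∃ a : Fin r → Fin s, Function.Injective a ∧ Function.Injective (S ∘ a) ∧ cls (S ∘ a) = 0

def E3 (c : Finset V → Bool) (cls : (Fin r → V) → ℕ) (S : Fin s → V) : Prop :=
  ∃ q : (Fin r → Fin s) × Fin r × Fin s, Function.Injective q.1 ∧ (∀ i, q.1 i ≠ q.2.2) ∧
    Cross c cls q.2.1 (S ∘ q.1) (S q.2.2)

/-- The indices not used by `a` and `b`. -/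
def rest (a b : Fin r → Fin s) : Finset (Fin s) := univ \ (univ.image a ∪ univ.image b)

def E4 (cls : (Fin r → V) → ℕ) (Z : ℕ → ℕ → V → ℝ) (ok : ℕ → ℕ → Prop) (τ : ℝ)
    (S : Fin s → V) : Prop :=
  ∃ q : (Fin r → Fin s) × (Fin r → Fin s), ok (cls (S ∘ q.1)) (cls (S ∘ q.2)) ∧
    τ ≤ ∑ k ∈ rest q.1 q.2, Z (cls (S ∘ q.1)) (cls (S ∘ q.2)) (S k)

def E5 (cls : (Fin r → V) → ℕ) (Z : ℕ → ℕ → V → ℝ) (ok : ℕ → ℕ → Prop)
    (S : Fin s → V) : Prop :=
  ∃ q : (Fin r → Fin s) × (Fin r → Fin s) × (Fin r → Fin s), Function.Injective q.2.2 ∧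
    (∀ i, q.2.2 i ∈ rest q.1 q.2.1) ∧
    ok (cls (S ∘ q.1)) (cls (S ∘ q.2.1)) ∧
    (cls (S ∘ q.2.2) = cls (S ∘ q.1) ∨ cls (S ∘ q.2.2) = cls (S ∘ q.2.1)) ∧
    ∑ i, Z (cls (S ∘ q.1)) (cls (S ∘ q.2.1)) (S (q.2.2 i)) < 1

lemma exists_order {g : Finset (Fin s)} (hg : g.card = r) :
    ∃ a : Fin r → Fin s, Function.Injective a ∧ univ.image a = g :=
  ⟨g.orderEmbOfFin hg, (g.orderEmbOfFin hg).injective, by
    ext x
    simp only [mem_image, mem_univ, true_and]
    have := Finset.range_orderEmbOfFin g hg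
    rw [← mem_coe, ← this]
    rfl⟩

theorem core (hr : 1 ≤ r) (hs : r ≤ s) (c : Finset V → Bool) (cls : (Fin r → V) → ℕ)
    (Z : ℕ → ℕ → V → ℝ) (hZ0 : ∀ j j' v, 0 ≤ Z j j' v) (ok : ℕ → ℕ → Prop)
    (hok : ∀ x y : Fin r → V, cls x ≠ 0 → cls y ≠ 0 →
      (cls x = cls y ∨ c (univ.image x) ≠ c (univ.image y)) → ok (cls x) (cls y))
    (S : Fin s → V) (h1 : ¬ E1 S) (h2 : ¬ E2 cls S) (h3 : ¬ E3 c cls S)
    (h4 : ¬ E4 cls Z ok ((s : ℝ) / r - 2 - 2 * r) S) (h5 : ¬ E5 cls Z ok S) : False := by
  classical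
  have hr0 : (0 : ℝ) < r := by exact_mod_cast hr
  have hS : Function.Injective S := by
    intro i j hij
    by_contra hne
    exact h1 ⟨(i, j), hne, hij⟩
  obtain ⟨e, f, he, hf, hef, hl⟩ := tree_lemma (S := Fin s) r hr (by simpa using hs)
    (fun g => c (g.image S))
  have himg : ∀ a : Fin r → Fin s, univ.image (S ∘ a) = (univ.image a).image S := by
    intro a; rw [image_image]
  have hne0 : ∀ a : Fin r → Fin s, Function.Injective a → cls (S ∘ a) ≠ 0 := by
    intro a ha h0
    exact h2 ⟨a, ha, hS.comp ha, h0⟩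
  -- walking
  have hwalk : ∀ g g', Conn (fun g : Finset (Fin s) => c (g.image S)) r g g' →
      ∀ a : Fin r → Fin s, Function.Injective a → univ.image a = g →
      ∃ a' : Fin r → Fin s, Function.Injective a' ∧ univ.image a' = g' ∧
        cls (S ∘ a') = cls (S ∘ a) := by
    intro g g' hgg'
    induction hgg' with
    | refl => intro a ha hag; exact ⟨a, ha, hag, rfl⟩
    | @tail b d _ hbd ih =>
      intro a ha hag
      obtain ⟨a', ha', hb, hcl⟩ := ih a ha hag
      obtain ⟨⟨_, hdc, x, hx, y, hy, hd⟩, hcol⟩ := hbd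
      rw [← hb, mem_image] at hx
      obtain ⟨i, _, hi⟩ := hx
      have hya : ∀ j, a' j ≠ y := by
        intro j hj
        apply hy
        rw [← hb, ← hj]
        exact mem_image_of_mem _ (mem_univ _)
      have hinj : Function.Injective (Function.update a' i y) := by
        intro j k hjk
        by_cases hj : j = i
        · by_cases hk : k = i
          · rw [hj, hk]
          · rw [hj, Function.update_self, Function.update_of_ne hk] at hjk
            exact absurd hjk.symm (hya k)
        · by_cases hk : k = i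
          · rw [hk, Function.update_self, Function.update_of_ne hj] at hjk
            exact absurd hjk (hya j)
          · rw [Function.update_of_ne hj, Function.update_of_ne hk] at hjk
            exact ha' hjk
      have himd : univ.image (Function.update a' i y) = d := by
        apply eq_of_subset_of_card_le
        · intro z hz
          rw [mem_image] at hz
          obtain ⟨j, _, hj⟩ := hz
          rw [hd]
          by_cases hji : j = i
          · rw [hji, Function.update_self] at hj
            rw [← hj]; exact mem_insert_self _ _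
          · rw [Function.update_of_ne hji] at hj
            rw [← hj]
            apply mem_insert_of_mem
            rw [mem_erase]
            refine ⟨?_, ?_⟩
            · rw [← hi]
              intro h
              exact hji (ha' h)
            · rw [← hb]; exact mem_image_of_mem _ (mem_univ _)
        · rw [hdc, card_image_of_injective _ hinj, card_univ, Fintype.card_fin]
      refine ⟨Function.update a' i y, hinj, himd, ?_⟩
      rw [← hcl]
      have hcomp : S ∘ Function.update a' i y = Function.update (S ∘ a') i (S y) :=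
        Function.comp_update _ _ _ _
      by_contra hne
      apply h3
      refine ⟨(a', i, y), ha', hya, hne0 a' ha', ?_, ?_, ?_⟩
      · rw [← hcomp]; exact hne0 _ hinj
      · simp only
        rw [← hcomp, himg, himg, himd, hb]
        exact hcol
      · simp only
        rw [← hcomp]
        exact fun h => hne h.symm
  obtain ⟨a, ha, hae⟩ := exists_order he
  obtain ⟨b, hb, hbf, hab⟩ : ∃ b : Fin r → Fin s, Function.Injective b ∧ univ.image b = f ∧
      (cls (S ∘ a) = cls (S ∘ b) ∨ c (univ.image (S ∘ a)) ≠ c (univ.image (S ∘ b))) := by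
    rcases hef with rfl | hef
    · exact ⟨a, ha, hae, Or.inl rfl⟩
    · obtain ⟨b, hb, hbf⟩ := exists_order hf
      refine ⟨b, hb, hbf, Or.inr ?_⟩
      rw [himg, himg, hae, hbf]
      exact hef
  have hokab := hok _ _ (hne0 a ha) (hne0 b hb) hab
  set j := cls (S ∘ a) with hj
  set j' := cls (S ∘ b) with hj'
  have hrest : rest a b = univ \ (e ∪ f) := by unfold rest; rw [hae, hbf]
  -- the functional
  let l : Fin s → ℝ := fun k => if k ∈ e ∪ f then 1 else Z j j' (S k) - 1 / r
  have hcardU : (e ∪ f).card ≤ 2 * r := by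
    have := card_union_le e f; omega
  have hcardU' : ((e ∪ f).card : ℝ) ≤ 2 * r := by exact_mod_cast hcardU
  have hcardR : ((univ \ (e ∪ f)).card : ℝ) = s - (e ∪ f).card := by
    rw [card_sdiff_of_subset (subset_univ _), card_univ, Fintype.card_fin, Nat.cast_sub]
    have := card_le_univ (e ∪ f); simpa using this
  have hsum : ∑ k, l k < 0 := by
    have hsplit : ∑ k, l k = ∑ k ∈ e ∪ f, l k + ∑ k ∈ univ \ (e ∪ f), l k := by
      rw [← sum_union disjoint_sdiff, union_sdiff_of_subset (subset_univ _)]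
    have hA : ∑ k ∈ e ∪ f, l k = (e ∪ f).card := by
      rw [sum_congr rfl (fun k hk => show l k = 1 from if_pos hk)]; simp
    have hB : ∑ k ∈ univ \ (e ∪ f), l k =
        ∑ k ∈ univ \ (e ∪ f), Z j j' (S k) - (univ \ (e ∪ f)).card * (1 / r) := by
      rw [sum_congr rfl (fun k hk => show l k = Z j j' (S k) - 1 / r from
        if_neg (mem_sdiff.mp hk).2), sum_sub_distrib, sum_const, nsmul_eq_mul]
    have hC : ∑ k ∈ univ \ (e ∪ f), Z j j' (S k) < (s : ℝ) / r - 2 - 2 * r := by
      by_contra hcon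
      push Not at hcon
      apply h4
      refine ⟨(a, b), hokab, ?_⟩
      simp only
      rw [hrest]
      exact hcon
    rw [hsplit, hA, hB, hcardR]
    have hD : ((e ∪ f).card : ℝ) * (1 / r) ≤ 2 := by
      rw [mul_one_div, div_le_iff₀ hr0]; exact hcardU'
    have hE : ((s : ℝ) - (e ∪ f).card) * (1 / r) = s / r - (e ∪ f).card * (1 / r) := by ring
    rw [hE]
    linarith
  obtain ⟨g, hg, hlg⟩ := hl l hsum
  have hlge : ∀ k, -(1 / (r : ℝ)) ≤ l k := by
    intro k
    simp only [l]
    split_ifs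
    · have : 0 ≤ 1 / (r : ℝ) := by positivity
      linarith
    · have := hZ0 j j' (S k); linarith
  have hgcard : g.card = r := by
    rcases hg with hg | hg
    · exact hg.card he
    · exact hg.card hf
  have hgdisj : ∀ k ∈ g, k ∉ e ∪ f := by
    intro k hk hkU
    have h6 := add_sum_erase g l hk
    have h7 : l k = 1 := if_pos hkU
    have h8 : -((r : ℝ) - 1) * (1 / r) ≤ ∑ k ∈ g.erase k, l k := by
      calc -((r : ℝ) - 1) * (1 / r) = ∑ k ∈ g.erase k, -(1 / (r : ℝ)) := by
            rw [sum_const, nsmul_eq_mul, card_erase_of_mem hk, hgcard, Nat.cast_sub hr]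
            push_cast; ring
        _ ≤ _ := sum_le_sum fun k _ => hlge k
    have h9 : -((r : ℝ) - 1) * (1 / r) = -1 + 1 / r := by field_simp; ring
    have h10 : 0 < 1 / (r : ℝ) := by positivity
    rw [h9] at h8
    linarith
  have hlg' : ∑ k ∈ g, Z j j' (S k) < 1 := by
    rw [sum_congr rfl (fun k hk => show l k = Z j j' (S k) - 1 / r from
      if_neg (hgdisj k hk)), sum_sub_distrib, sum_const, nsmul_eq_mul, hgcard,
      mul_one_div_cancel hr0.ne'] at hlg
    linarith
  obtain ⟨d, hd, hdg, hdc⟩ : ∃ d : Fin r → Fin s, Function.Injective d ∧ univ.image d = g ∧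
      (cls (S ∘ d) = j ∨ cls (S ∘ d) = j') := by
    rcases hg with hg | hg
    · obtain ⟨d, h1, h2, h3⟩ := hwalk _ _ hg a ha hae
      exact ⟨d, h1, h2, Or.inl h3⟩
    · obtain ⟨d, h1, h2, h3⟩ := hwalk _ _ hg b hb hbf
      exact ⟨d, h1, h2, Or.inr h3⟩
  apply h5
  refine ⟨(a, b, d), hd, ?_, hokab, hdc, ?_⟩
  · intro i
    simp only
    rw [hrest, mem_sdiff]
    refine ⟨mem_univ _, hgdisj _ ?_⟩
    rw [← hdg]; exact mem_image_of_mem _ (mem_univ _)
  · simp only
    have : ∑ i, Z j j' (S (d i)) = ∑ k ∈ g, Z j j' (S k) := by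
      rw [← hdg, sum_image (fun x _ y _ h => hd h)]
    rw [this]
    exact hlg'

end

end Pool.Agent.Lib.MP_952639_co
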