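import Pool.Agent.Lib.MP_952639_co.Blowup

/-!
# Multiplicative weights: choosing blocks with controlled loads
-/

namespace Pool.Agent.Lib.MP_952639_co

open Finset

section
variable {V : Type*} [DecidableEq V] {r M : ℕ}

/-- the vertex set of a blown-up tuple. -/
def img (U : Fin r → Fin M → V) : Finset V := univ.image (fun p : Fin r × Fin M => U p.1 p.2)

lemma mem_img {U : Fin r → Fin M → V} {v : V} : v ∈ img U ↔ ∃ i m, U i m = v := by
  simp [img]

/-- `U` is a block of `A b`. -/
def IsBlock (A : Bool → Finset (Fin r → V)) (b : Bool) (U : Fin r → Fin M → V) : Prop :=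
  (Function.Injective fun p : Fin r × Fin M => U p.1 p.2) ∧
    ∀ j : Fin r → Fin M, (fun i => U i (j i)) ∈ A b

end

/-- one step. -/
theorem block_step (r M : ℕ) (hr : 1 ≤ r) (a β : ℝ) (ha : 1 < a) (hβ : 0 < β) :
    ∃ n₀ : ℕ, ∀ (V : Type) [Fintype V] [DecidableEq V], n₀ ≤ Fintype.card V →
      ∀ A : Bool → Finset (Fin r → V), (∀ b, ∀ x ∈ A b, Function.Injective x) →
      Robust (1 / (a * r)) β A → ∀ w : V → ℝ, (∀ v, 0 < w v) →
      ∃ (b : Bool) (U : Fin r → Fin M → V), IsBlock A b U ∧
        ∑ v ∈ img U, w v ≤ M * (a * r) * (∑ v, w v) / Fintype.card V := by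
  obtain ⟨n₀, hn₀⟩ := exists_block r M (β / 2) (by linarith)
  refine ⟨n₀ + 1, ?_⟩
  intro V _ _ hn A hA hR w hw
  have hVpos : 0 < Fintype.card V := by omega
  haveI : Nonempty V := Fintype.card_pos_iff.mp hVpos
  set n : ℝ := (Fintype.card V : ℝ) with hndef
  have hn0 : 0 < n := by rw [hndef]; exact_mod_cast hVpos
  set Φ := ∑ v, w v with hΦ
  have hΦ0 : 0 < Φ := Finset.sum_pos (fun v _ => hw v) univ_nonempty
  have hr0 : (0 : ℝ) < r := by exact_mod_cast hr
  set κ : ℝ := 1 / (a * r) with hκ
  have hκ0 : 0 < κ := by positivity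
  set z : V → ℝ := fun v => min 1 (κ * n * w v / Φ) with hz
  have hz0 : ∀ v, 0 ≤ z v := fun v => le_min zero_le_one (by have := hw v; positivity)
  have hz1 : ∀ v, z v ≤ 1 := fun v => min_le_left _ _
  have hzs : ∑ v, z v ≤ κ * n := by
    calc ∑ v, z v ≤ ∑ v, κ * n * w v / Φ := Finset.sum_le_sum fun v _ => min_le_right _ _
      _ = κ * n * Φ / Φ := by rw [← Finset.sum_div, ← Finset.mul_sum]
      _ = κ * n := by field_simp
  have hB := hR z hz0 hz1 hzs
  rw [← hndef] at hB
  set B : Bool → Finset (Fin r → V) := fun b => (A b).filter fun u => ∑ i, z (u i) < 1 with hBdef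
  have hBu : ((A true ∪ A false).filter fun u => ∑ i, z (u i) < 1) = B true ∪ B false := by
    rw [hBdef]; simp only []; rw [filter_union]
  rw [hBu] at hB
  obtain ⟨b, hb⟩ : ∃ b, β / 2 * n ^ r ≤ ((B b).card : ℝ) := by
    by_contra hcon
    push Not at hcon
    have h1 := hcon true
    have h2 := hcon false
    have h3 : ((B true ∪ B false).card : ℝ) ≤ (B true).card + (B false).card := by
      exact_mod_cast card_union_le _ _
    linarith
  obtain ⟨U, hU1, hU2⟩ := hn₀ V (by omega) (B b) hb
  have hU3 : ∀ j : Fin r → Fin M, (fun i => U i (j i)) ∈ A b := fun j =>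
    (mem_filter.mp (hU2 j)).1
  have hinj : Function.Injective fun p : Fin r × Fin M => U p.1 p.2 := by
    rintro ⟨i, m⟩ ⟨i', m'⟩ h
    simp only [] at h
    by_cases hii : i = i'
    · subst hii
      rw [hU1 i h]
    · exfalso
      have h1 := hA b _ (hU3 (fun k => if k = i then m else m'))
      have h2 := @h1 i i' (by simp [Ne.symm hii, h])
      exact hii h2
  refine ⟨b, U, ⟨hinj, hU3⟩, ?_⟩
  rw [img, sum_image (fun p _ q _ h => hinj h), Fintype.sum_prod_type_right]
  -- transversals are cheap
  have hcheap : ∀ m : Fin M, ∑ i, w (U i m) ≤ (a * r) * Φ / n := by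
    intro m
    have h1 := (mem_filter.mp (hU2 (fun _ => m))).2
    simp only [] at h1
    have h2 : ∀ i, z (U i m) = κ * n * w (U i m) / Φ := by
      intro i
      rw [hz]
      simp only []
      apply min_eq_right
      by_contra hcon
      push Not at hcon
      have h3 : z (U i m) = 1 := by rw [hz]; simp only []; exact min_eq_left hcon.le
      have h4 : z (U i m) ≤ ∑ i, z (U i m) :=
        Finset.single_le_sum (f := fun i => z (U i m)) (fun i _ => hz0 _) (mem_univ i)
      linarith
    simp_rw [h2] at h1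
    rw [← Finset.sum_div, ← Finset.mul_sum, div_lt_one hΦ0] at h1
    rw [le_div_iff₀ hn0]
    have h5 : (a * r) * (κ * n * ∑ i, w (U i m)) ≤ (a * r) * Φ :=
      mul_le_mul_of_nonneg_left h1.le (by positivity)
    have h6 : (a * r) * (κ * n * ∑ i, w (U i m)) = (∑ i, w (U i m)) * n := by
      rw [hκ]; field_simp
    linarith
  calc ∑ m : Fin M, ∑ i, w (U i m) ≤ ∑ _m : Fin M, (a * r) * Φ / n :=
        Finset.sum_le_sum fun m _ => hcheap m
    _ = M * (a * r) * Φ / n := by
        rw [Finset.sum_const, card_univ, Fintype.card_fin, nsmul_eq_mul]; ring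

/-- the load of `v` before step `t`. -/
def load {V : Type*} [DecidableEq V] {r M : ℕ} (U : ℕ → Fin r → Fin M → V) (t : ℕ) (v : V) : ℕ :=
  ((range t).filter fun t' => v ∈ img (U t')).card

lemma load_zero {V : Type*} [DecidableEq V] {r M : ℕ} (U : ℕ → Fin r → Fin M → V) (v : V) :
    load U 0 v = 0 := by simp [load]

lemma load_succ {V : Type*} [DecidableEq V] {r M : ℕ} (U : ℕ → Fin r → Fin M → V) (t : ℕ)
    (v : V) : load U (t + 1) v = load U t v + if v ∈ img (U t) then 1 else 0 := by
  rw [load, load, range_add_one, filter_insert]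
  split_ifs with h
  · rw [card_insert_of_notMem (by simp)]
  · rfl

lemma load_mono {V : Type*} [DecidableEq V] {r M : ℕ} (U : ℕ → Fin r → Fin M → V) (v : V) :
    Monotone (fun t => load U t v) := by
  apply monotone_nat_of_le_succ
  intro t
  rw [load_succ]; omega

/-- iteration. -/
theorem blocks_iter (r M : ℕ) (hr : 1 ≤ r) (a β : ℝ) (ha : 1 < a) (hβ : 0 < β) :
    ∃ n₀ : ℕ, 0 < n₀ ∧ ∀ (V : Type) [Fintype V] [DecidableEq V], n₀ ≤ Fintype.card V →
      ∀ A : Bool → Finset (Fin r → V), (∀ b, ∀ x ∈ A b, Function.Injective x) →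
      Robust (1 / (a * r)) β A →
      ∃ (b : ℕ → Bool) (U : ℕ → Fin r → Fin M → V), (∀ t, IsBlock A (b t) (U t)) ∧
        ∀ t, ∑ v, a ^ load U t v ≤
          (Fintype.card V : ℝ) * (1 + (a - 1) * (M * (a * r)) / Fintype.card V) ^ t := by
  obtain ⟨n₀, hn₀⟩ := block_step r M hr a β ha hβ
  refine ⟨n₀ + 1, by omega, ?_⟩
  intro V _ _ hn A hA hR
  have hVpos : 0 < Fintype.card V := by omega
  haveI : Nonempty V := Fintype.card_pos_iff.mp hVpos
  have hn0 : 0 < (Fintype.card V : ℝ) := by exact_mod_cast hVpos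
  have h := hn₀ V (by omega) A hA hR
  choose! b U hb hU using h
  have ha0 : 0 < a := by linarith
  set W : ℕ → V → ℝ := fun t => Nat.rec (fun _ => 1)
    (fun _ w v => if v ∈ img (U w) then a * w v else w v) t with hW
  have hW0 : W 0 = fun _ => 1 := rfl
  have hWs : ∀ t, W (t + 1) = fun v => if v ∈ img (U (W t)) then a * W t v else W t v :=
    fun t => rfl
  have hWl : ∀ t v, W t v = a ^ load (fun t => U (W t)) t v := by
    intro t
    induction t with
    | zero => intro v; rw [hW0, load_zero, pow_zero]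
    | succ t ih =>
      intro v
      rw [hWs, load_succ]
      simp only []
      split_ifs with h
      · rw [ih v, pow_succ]; ring
      · rw [ih v, add_zero]
  have hWpos : ∀ t v, 0 < W t v := fun t v => by rw [hWl]; positivity
  refine ⟨fun t => b (W t), fun t => U (W t), fun t => hb _ (hWpos t), ?_⟩
  intro t
  have : ∑ v, a ^ load (fun t => U (W t)) t v = ∑ v, W t v :=
    Finset.sum_congr rfl fun v _ => (hWl t v).symm
  rw [this]
  induction t with
  | zero => rw [hW0]; simp
  | succ t ih =>
    have h1 : ∑ v, W (t + 1) v = ∑ v, W t v + (a - 1) * ∑ v ∈ img (U (W t)), W t v := by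
      rw [hWs]
      simp only []
      rw [Finset.mul_sum, ← Finset.sum_filter_add_sum_filter_not univ (fun v => v ∈ img (U (W t)))]
      rw [← Finset.sum_filter_add_sum_filter_not univ (fun v => v ∈ img (U (W t))) (W t)]
      have e1 : univ.filter (fun v => v ∈ img (U (W t))) = img (U (W t)) := by ext v; simp
      rw [e1]
      have e2 : ∑ x ∈ img (U (W t)), (if x ∈ img (U (W t)) then a * W t x else W t x) =
          ∑ x ∈ img (U (W t)), W t x + ∑ x ∈ img (U (W t)), (a - 1) * W t x := by
        rw [← Finset.sum_add_distrib]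
        apply Finset.sum_congr rfl
        intro x hx
        rw [if_pos hx]; ring
      have e3 : ∑ x ∈ univ.filter (fun v => v ∉ img (U (W t))),
          (if x ∈ img (U (W t)) then a * W t x else W t x) =
          ∑ x ∈ univ.filter (fun v => v ∉ img (U (W t))), W t x := by
        apply Finset.sum_congr rfl
        intro x hx
        rw [if_neg (mem_filter.mp hx).2]
      rw [e2, e3]; ring
    have h2 := hU (W t) (hWpos t)
    have h3 := ih (Finset.sum_congr rfl fun v _ => (hWl t v).symm)
    rw [h1, pow_succ]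
    set C : ℝ := (a - 1) * (M * (a * r)) / Fintype.card V with hC
    have hC0 : 0 ≤ C := by
      have : 0 < a - 1 := by linarith
      positivity
    have hΦ0 : 0 ≤ ∑ v, W t v := Finset.sum_nonneg fun v _ => (hWpos t v).le
    have h4 : (a - 1) * ∑ v ∈ img (U (W t)), W t v ≤ C * ∑ v, W t v := by
      calc (a - 1) * ∑ v ∈ img (U (W t)), W t v
          ≤ (a - 1) * (M * (a * r) * (∑ v, W t v) / Fintype.card V) :=
            mul_le_mul_of_nonneg_left h2 (by linarith)
        _ = C * ∑ v, W t v := by rw [hC]; ring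
    calc ∑ v, W t v + (a - 1) * ∑ v ∈ img (U (W t)), W t v
        ≤ (∑ v, W t v) * (1 + C) := by linarith
      _ ≤ ((Fintype.card V : ℝ) * (1 + C) ^ t) * (1 + C) :=
          mul_le_mul_of_nonneg_right h3 (by linarith)
      _ = _ := by ring

/-- the total overload. -/
theorem overload_le {V : Type*} [Fintype V] [DecidableEq V] {r M : ℕ}
    (U : ℕ → Fin r → Fin M → V) (a : ℝ) (ha : 1 < a) (τ S : ℕ) (K : ℝ)
    (hK : ∑ v, a ^ load U S v ≤ K) :
    ((∑ v, (load U S v - τ) : ℕ) : ℝ) ≤ K / ((a - 1) * a ^ τ) := by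
  have ha0 : 0 < a := by linarith
  have ha1 : 0 < a - 1 := by linarith
  rw [le_div_iff₀ (by positivity)]
  refine le_trans ?_ hK
  rw [Nat.cast_sum, Finset.sum_mul]
  apply Finset.sum_le_sum
  intro v _
  rcases Nat.lt_or_ge (load U S v) τ with h | h
  · have : load U S v - τ = 0 := by omega
    rw [this, Nat.cast_zero, zero_mul]; positivity
  · obtain ⟨k, hk⟩ := Nat.exists_eq_add_of_le h
    rw [hk]
    have e1 : τ + k - τ = k := by omega
    rw [e1, pow_add]
    have hb : 1 + (k : ℝ) * (a - 1) ≤ a ^ k := by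
      have := one_add_mul_le_pow (a := a - 1) (by linarith) k
      simpa using this
    have h2 : (k : ℝ) * (a - 1) ≤ a ^ k := by linarith
    calc (k : ℝ) * ((a - 1) * a ^ τ) = (k * (a - 1)) * a ^ τ := by ring
      _ ≤ a ^ k * a ^ τ := mul_le_mul_of_nonneg_right h2 (by positivity)
      _ = a ^ τ * a ^ k := by ring

/-- counting the overloaded incidences. -/
theorem overload_count {V : Type*} [Fintype V] [DecidableEq V] {r M : ℕ}
    (U : ℕ → Fin r → Fin M → V) (τ S : ℕ) :
    ∑ t ∈ range S, ((img (U t)).filter fun v => τ ≤ load U t v).card =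
      ∑ v, (load U S v - τ) := by
  induction S with
  | zero => simp [load_zero]
  | succ S ih =>
    rw [sum_range_succ, ih]
    have : ((img (U S)).filter fun v => τ ≤ load U S v).card =
        ∑ v, (if v ∈ img (U S) ∧ τ ≤ load U S v then 1 else 0) := by
      rw [← Finset.card_filter]
      congr 1
      ext v; simp
    rw [this, ← Finset.sum_add_distrib]
    apply Finset.sum_congr rfl
    intro v _
    rw [load_succ]
    by_cases h1 : v ∈ img (U S)
    · by_cases h2 : τ ≤ load U S v
      · simp only [h1, h2, and_self, if_true]; omega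
      · simp only [h1, h2, and_false, if_false, if_true]; omega
    · simp [h1]

end Pool.Agent.Lib.MP_952639_co
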