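import Pool.Agent.Lib.MP_952639_co.TilingA

/-!
# Random slots: a second moment argument
-/

namespace Pool.Agent.Lib.MP_952639_co

open Finset

variable {V : Type*} [Fintype V] [DecidableEq V]

lemma sum_two {τ : ℕ} (v v' : V) (g h : Fin τ → ℝ) :
    ∑ σ : V → Fin τ, g (σ v) * h (σ v') =
      ∏ w, ∑ j, ((if w = v then g j else 1) * (if w = v' then h j else 1)) := by
  rw [Finset.prod_univ_sum, Fintype.piFinset_univ]
  apply Finset.sum_congr rfl
  intro σ _
  rw [Finset.prod_mul_distrib]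
  simp

/-- the centered indicator. -/
noncomputable def cen (τ : ℕ) (k : ℕ) (j : Fin τ) : ℝ := (if (j : ℕ) = k then 1 else 0) - 1 / τ

lemma sum_cen {τ k : ℕ} (hk : k < τ) : ∑ j : Fin τ, cen τ k j = 0 := by
  have h1 : ∑ j : Fin τ, (if (j : ℕ) = k then (1 : ℝ) else 0) = 1 := by
    rw [Finset.sum_eq_single (⟨k, hk⟩ : Fin τ)]
    · simp
    · intro j _ hj
      rw [if_neg]
      intro h
      exact hj (Fin.ext h)
    · simp
  have hτ : (τ : ℝ) ≠ 0 := by
    have : 0 < τ := by omega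
    positivity
  simp only [cen, Finset.sum_sub_distrib, h1, Finset.sum_const, card_univ, Fintype.card_fin,
    nsmul_eq_mul]
  field_simp
  ring

lemma sum_cen_sq {τ k : ℕ} (hk : k < τ) : ∑ j : Fin τ, cen τ k j * cen τ k j ≤ 1 := by
  have h1 : ∑ j : Fin τ, (if (j : ℕ) = k then (1 : ℝ) else 0) = 1 := by
    rw [Finset.sum_eq_single (⟨k, hk⟩ : Fin τ)]
    · simp
    · intro j _ hj
      rw [if_neg]
      intro h
      exact hj (Fin.ext h)
    · simp
  have hτ0 : (0 : ℝ) < τ := by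
    have : 0 < τ := by omega
    exact_mod_cast this
  have h2 : ∀ j : Fin τ, cen τ k j * cen τ k j =
      (if (j : ℕ) = k then (1 : ℝ) else 0) * (1 - 2 / τ) + 1 / τ * (1 / τ) := by
    intro j
    rw [cen]
    split_ifs
    · ring
    · ring
  simp_rw [h2]
  rw [Finset.sum_add_distrib, ← Finset.sum_mul, h1, Finset.sum_const, card_univ, Fintype.card_fin,
    nsmul_eq_mul]
  have h3 : (τ : ℝ) * (1 / τ * (1 / τ)) = 1 / τ := by field_simp
  rw [h3]
  have : 0 < 1 / (τ : ℝ) := by positivity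
  have h4 : 2 / (τ : ℝ) = 2 * (1 / τ) := by ring
  rw [h4]
  linarith

/-- second moment of the number of hits. -/
lemma second_moment {τ : ℕ} (hτ : 0 < τ) (G : Finset V) (ρ : V → ℕ) (hG : ∀ v ∈ G, ρ v < τ) :
    ∑ σ : V → Fin τ, (((G.filter fun v => (σ v : ℕ) = ρ v).card : ℝ) - G.card / τ) ^ 2 ≤
      ∑ _σ : V → Fin τ, (G.card : ℝ) / τ := by
  have hτ0 : (0 : ℝ) < τ := by exact_mod_cast hτ
  have h1 : ∀ σ : V → Fin τ, ((G.filter fun v => (σ v : ℕ) = ρ v).card : ℝ) - G.card / τ =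
      ∑ v ∈ G, cen τ (ρ v) (σ v) := by
    intro σ
    simp only [cen]
    rw [Finset.sum_sub_distrib, Finset.sum_const, nsmul_eq_mul, Finset.card_filter]
    push_cast
    ring
  have h2 : ∑ σ : V → Fin τ, (((G.filter fun v => (σ v : ℕ) = ρ v).card : ℝ) - G.card / τ) ^ 2 =
      ∑ v ∈ G, ∑ v' ∈ G, ∑ σ : V → Fin τ, cen τ (ρ v) (σ v) * cen τ (ρ v') (σ v') := by
    simp_rw [h1, sq, Finset.sum_mul_sum]
    rw [Finset.sum_comm]
    apply Finset.sum_congr rfl
    intro v _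
    rw [Finset.sum_comm]
  rw [h2]
  have h3 : ∀ v ∈ G, ∀ v' ∈ G, v ≠ v' →
      ∑ σ : V → Fin τ, cen τ (ρ v) (σ v) * cen τ (ρ v') (σ v') = 0 := by
    intro v hv v' _ hvv
    rw [sum_two]
    apply Finset.prod_eq_zero (mem_univ v)
    simp only [if_true, if_neg hvv, mul_one]
    exact sum_cen (hG v hv)
  have h4 : ∀ v ∈ G, ∑ σ : V → Fin τ, cen τ (ρ v) (σ v) * cen τ (ρ v) (σ v) ≤
      (τ : ℝ) ^ (Fintype.card V) / τ := by
    intro v hv
    rw [sum_two, ← Finset.mul_prod_erase univ _ (mem_univ v)]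
    have e1 : ∏ w ∈ univ.erase v, ∑ j : Fin τ, ((if w = v then cen τ (ρ v) j else 1) *
        (if w = v then cen τ (ρ v) j else 1)) = (τ : ℝ) ^ (Fintype.card V - 1) := by
      rw [Finset.prod_congr rfl (g := fun _ => (τ : ℝ))]
      · rw [Finset.prod_const, card_erase_of_mem (mem_univ v), card_univ]
      · intro w hw
        simp [Finset.ne_of_mem_erase hw]
    rw [e1]
    simp only [if_true]
    have h5 := sum_cen_sq (hG v hv)
    have hpos : 0 < Fintype.card V := Fintype.card_pos_iff.mpr ⟨v⟩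
    have h6 : (τ : ℝ) ^ (Fintype.card V) / τ = (τ : ℝ) ^ (Fintype.card V - 1) := by
      obtain ⟨k, hk⟩ : ∃ k, Fintype.card V = k + 1 := ⟨Fintype.card V - 1, by omega⟩
      rw [hk, Nat.add_sub_cancel, pow_succ]
      field_simp
    rw [h6]
    calc _ ≤ 1 * (τ : ℝ) ^ (Fintype.card V - 1) := mul_le_mul_of_nonneg_right h5 (by positivity)
      _ = _ := one_mul _
  calc ∑ v ∈ G, ∑ v' ∈ G, ∑ σ : V → Fin τ, cen τ (ρ v) (σ v) * cen τ (ρ v') (σ v')
      = ∑ v ∈ G, ∑ σ : V → Fin τ, cen τ (ρ v) (σ v) * cen τ (ρ v) (σ v) := by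
        apply Finset.sum_congr rfl
        intro v hv
        rw [Finset.sum_eq_single v]
        · intro v' hv' hne
          exact h3 v hv v' hv' (Ne.symm hne)
        · intro h; exact absurd hv h
    _ ≤ ∑ _v ∈ G, (τ : ℝ) ^ (Fintype.card V) / τ := Finset.sum_le_sum h4
    _ = _ := by
        rw [Finset.sum_const, Finset.sum_const, card_univ, Fintype.card_fun, Fintype.card_fin,
          nsmul_eq_mul, nsmul_eq_mul]
        push_cast
        ring

/-- choice of the slots. -/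
theorem exists_slots {K : Type*} [Fintype K] {τ : ℕ} (hτ : 0 < τ) (G : K → Finset V)
    (ρ : K → V → ℕ) (hG : ∀ k, ∀ v ∈ G k, ρ k v < τ) :
    ∃ σ : V → Fin τ, ∑ k, ((((G k).filter fun v => (σ v : ℕ) = ρ k v).card : ℝ) -
      (G k).card / τ) ^ 2 ≤ ∑ k, ((G k).card : ℝ) / τ := by
  haveI : Nonempty (Fin τ) := ⟨⟨0, hτ⟩⟩
  have h : ∑ σ : V → Fin τ, ∑ k, ((((G k).filter fun v => (σ v : ℕ) = ρ k v).card : ℝ) -
      (G k).card / τ) ^ 2 ≤ ∑ _σ : V → Fin τ, ∑ k, ((G k).card : ℝ) / τ := by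
    rw [Finset.sum_comm]
    rw [Finset.sum_comm (f := fun (_ : V → Fin τ) k => ((G k).card : ℝ) / τ)]
    exact Finset.sum_le_sum fun k _ => second_moment hτ (G k) (ρ k) (hG k)
  obtain ⟨σ, -, hσ⟩ := Finset.exists_le_of_sum_le univ_nonempty h
  exact ⟨σ, hσ⟩

end Pool.Agent.Lib.MP_952639_co
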