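import Pool.Agent.Lib.MP_952639_co.Cocycle

/-!
# The fractional theorem in dual form

In every 2-colouring of the `r`-subsets of a finite set there are two monochromatic tight
components, of different colours (or one component if there is only one colour), such that no
linear functional with negative total is nonnegative on all their edges.
-/

namespace Pool.Agent.Lib.MP_952639_co

open Finset Relation

section

variable {S : Type*} [DecidableEq S]

/-- The `r`-sets on which `l` is negative. -/
def HS (r : ℕ) (l : S → ℝ) (e : Finset S) : Prop := e.card = r ∧ ∑ v ∈ e, l v < 0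

/-- Adjacency inside a set of `r`-sets. -/
def JStep (r : ℕ) (P : Finset S → Prop) (a b : Finset S) : Prop := JAdj r a b ∧ P a ∧ P b

lemma first_entry {α : Type*} {R : α → α → Prop} {P : α → Prop} {h f : α}
    (hR : ReflTransGen R h f) (hh : ¬ P h) (hf : P f) :
    ∃ d f', ReflTransGen (fun a b => R a b ∧ ¬ P a ∧ ¬ P b) h d ∧ ¬ P d ∧ R d f' ∧ P f' := by
  induction hR using ReflTransGen.head_induction_on with
  | refl => exact absurd hf hh
  | head hab hbc ih =>
    rename_i a b
    by_cases hb : P b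
    · exact ⟨a, b, ReflTransGen.refl, hh, hab, hb⟩
    · obtain ⟨d, f', h1, h2, h3, h4⟩ := ih hb
      exact ⟨d, f', ReflTransGen.head ⟨hab, hh, hb⟩ h1, h2, h3, h4⟩

lemma JStep.symm {r : ℕ} {P : Finset S → Prop} {a b : Finset S} (h : JStep r P a b) :
    JStep r P b a := ⟨h.1.symm, h.2.2, h.2.1⟩

lemma rtg_mono {α : Type*} {R R' : α → α → Prop} (hs : ∀ a b, R a b → R' a b) {a b : α}
    (h : ReflTransGen R a b) : ReflTransGen R' a b := by
  induction h with
  | refl => exact ReflTransGen.refl
  | tail _ hbc ih => exact ReflTransGen.tail ih (hs _ _ hbc)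

lemma rtg_symm {α : Type*} {R : α → α → Prop} (hs : ∀ a b, R a b → R b a) {a b : α}
    (h : ReflTransGen R a b) : ReflTransGen R b a := by
  induction h with
  | refl => exact ReflTransGen.refl
  | tail _ hbc ih => exact ReflTransGen.head (hs _ _ hbc) ih

lemma Conn.symm {c : Finset S → Bool} {r : ℕ} {a b : Finset S} (h : Conn c r a b) :
    Conn c r b a := rtg_symm (fun _ _ h => ⟨h.1.symm, h.2.symm⟩) h

lemma Conn.trans {c : Finset S → Bool} {r : ℕ} {a b d : Finset S} (h : Conn c r a b)
    (h' : Conn c r b d) : Conn c r a d := ReflTransGen.trans h h'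

lemma Conn.color {c : Finset S → Bool} {r : ℕ} {a b : Finset S} (h : Conn c r a b) :
    c a = c b := by
  induction h with
  | refl => rfl
  | tail _ hbc ih => rw [ih, hbc.2]

lemma Conn.card {c : Finset S → Bool} {r : ℕ} {a b : Finset S} (h : Conn c r a b)
    (ha : a.card = r) : b.card = r := by
  induction h with
  | refl => exact ha
  | tail _ hbc _ => exact hbc.1.2.1

end

set_option linter.unusedSectionVars false

section

variable {S : Type*} [Fintype S] [DecidableEq S]

lemma exists_min_set (r : ℕ) (hS : r ≤ Fintype.card S) (l : S → ℝ) :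
    ∃ m : Finset S, m.card = r ∧ (∀ e : Finset S, e.card = r → ∑ v ∈ m, l v ≤ ∑ v ∈ e, l v) ∧
      ∀ y ∈ m, ∀ x, x ∉ m → l y ≤ l x := by
  have hne : (powersetCard r (univ : Finset S)).Nonempty := by
    rw [powersetCard_nonempty]; simpa using hS
  obtain ⟨m, hm, hmin⟩ := exists_min_image _ (fun e => ∑ v ∈ e, l v) hne
  rw [mem_powersetCard] at hm
  have hmin' : ∀ e : Finset S, e.card = r → ∑ v ∈ m, l v ≤ ∑ v ∈ e, l v := fun e he =>
    hmin e (mem_powersetCard.mpr ⟨subset_univ _, he⟩)
  refine ⟨m, hm.2, hmin', ?_⟩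
  intro y hy x hx
  have hx' : x ∉ m.erase y := fun h => hx (mem_of_mem_erase h)
  have h1 := hmin' (insert x (m.erase y)) (by
    rw [card_insert_of_notMem hx', card_erase_of_mem hy, hm.2]
    have : 0 < r := by rw [← hm.2]; exact card_pos.mpr ⟨y, hy⟩
    omega)
  rw [sum_insert hx'] at h1
  have h2 := add_sum_erase m l hy
  linarith

lemma hs_nonempty (r : ℕ) (hr : 1 ≤ r) (hS : r ≤ Fintype.card S) (l : S → ℝ)
    (hl : ∑ v, l v < 0) : ∃ e, HS r l e := by
  obtain ⟨m, hm, _, h2⟩ := exists_min_set r hS l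
  refine ⟨m, hm, ?_⟩
  by_contra hcon
  push Not at hcon
  have hne : m.Nonempty := by rw [← card_pos, hm]; omega
  obtain ⟨y, hy, hy0⟩ : ∃ y ∈ m, 0 ≤ l y := by
    by_contra hno
    push Not at hno
    exact absurd (sum_neg hno hne) (not_lt.mpr hcon)
  have h3 : 0 ≤ ∑ v ∈ mᶜ, l v := sum_nonneg fun x hx =>
    hy0.trans (h2 y hy x (mem_compl.mp hx))
  have h4 := sum_add_sum_compl m l
  linarith

lemma hs_connected_min (r : ℕ) (l : S → ℝ) (m : Finset S) (hm : m.card = r)
    (h2 : ∀ y ∈ m, ∀ x, x ∉ m → l y ≤ l x) :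
    ∀ k : ℕ, ∀ e, HS r l e → (e \ m).card = k → ReflTransGen (JStep r (HS r l)) e m := by
  intro k
  induction k with
  | zero =>
    intro e he hk
    rw [card_eq_zero, sdiff_eq_empty_iff_subset] at hk
    rw [eq_of_subset_of_card_le hk (by rw [hm, he.1])]
  | succ k ih =>
    intro e he hk
    have hne : (e \ m).Nonempty := by rw [← card_pos]; omega
    obtain ⟨x, hx⟩ := hne
    have hne2 : (m \ e).Nonempty := by
      rw [← card_pos, ← card_sdiff_comm (by rw [he.1, hm] : e.card = m.card)]; omega
    obtain ⟨y, hy⟩ := hne2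
    rw [mem_sdiff] at hx hy
    have hyx := h2 y hy.1 x hx.2
    have hy' : y ∉ e.erase x := fun h => hy.2 (mem_of_mem_erase h)
    have hr0 : 0 < r := by rw [← hm]; exact card_pos.mpr ⟨y, hy.1⟩
    have hcard : (insert y (e.erase x)).card = r := by
      rw [card_insert_of_notMem hy', card_erase_of_mem hx.1, he.1]; omega
    have he' : HS r l (insert y (e.erase x)) := by
      refine ⟨hcard, ?_⟩
      rw [sum_insert hy']
      have h3 := add_sum_erase e l hx.1
      have h4 := he.2
      linarith
    have hstep : JStep r (HS r l) e (insert y (e.erase x)) :=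
      ⟨⟨he.1, hcard, x, hx.1, y, hy.2, rfl⟩, he, he'⟩
    refine ReflTransGen.head hstep (ih _ he' ?_)
    have : insert y (e.erase x) \ m = (e \ m).erase x := by
      ext z
      simp only [mem_sdiff, mem_insert, mem_erase]
      constructor
      · rintro ⟨rfl | ⟨h, h'⟩, hz⟩
        · exact absurd hy.1 hz
        · exact ⟨h, h', hz⟩
      · rintro ⟨h, h', hz⟩
        exact ⟨Or.inr ⟨h, h'⟩, hz⟩
    rw [this, card_erase_of_mem (mem_sdiff.mpr hx), hk]
    rfl

lemma hs_connected (r : ℕ) (l : S → ℝ) {e f : Finset S} (he : HS r l e) (hf : HS r l f) :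
    ReflTransGen (JStep r (HS r l)) e f := by
  have hS : r ≤ Fintype.card S := by rw [← he.1]; exact card_le_univ e
  obtain ⟨m, hm, _, h2⟩ := exists_min_set r hS l
  exact (hs_connected_min r l m hm h2 _ e he rfl).trans
    (rtg_symm (fun _ _ h => h.symm) (hs_connected_min r l m hm h2 _ f hf rfl))

/-- The whole Johnson graph is connected. -/
lemma j_connected (r : ℕ) {e f : Finset S} (he : e.card = r) (hf : f.card = r) :
    ReflTransGen (JAdj r) e f := by
  rcases Nat.eq_zero_or_pos r with rfl | hr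
  · rw [card_eq_zero] at he hf
    rw [he, hf]
  · have h : ∀ g : Finset S, g.card = r → HS r (fun _ : S => (-1 : ℝ)) g := by
      intro g hg
      refine ⟨hg, ?_⟩
      rw [sum_const, hg]
      have : (0 : ℝ) < r := by exact_mod_cast hr
      simpa using this
    exact rtg_mono (fun _ _ h => h.1) (hs_connected r _ (h e he) (h f hf))

/-- Interpolation: two half spaces touch. -/
lemma hs_touch (r : ℕ) (hr : 1 ≤ r) (hS : r ≤ Fintype.card S) (l l' : S → ℝ)
    (hl : ∑ v, l v < 0) (hl' : ∑ v, l' v < 0) :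
    ∃ e f, HS r l e ∧ HS r l' f ∧ (e = f ∨ JAdj r e f) := by
  classical
  by_contra hcon
  push Not at hcon
  let L : ℝ → S → ℝ := fun t v => (1 - t) * l v + t * l' v
  have hLsum : ∀ t (g : Finset S), ∑ v ∈ g, L t v = (1 - t) * ∑ v ∈ g, l v + t * ∑ v ∈ g, l' v := by
    intro t g
    simp only [L, sum_add_distrib, mul_sum]
  let A : Set ℝ := ⋃ e ∈ {e : Finset S | HS r l e}, {t | ∑ v ∈ e, L t v < 0}
  let B : Set ℝ := ⋃ e ∈ {e : Finset S | HS r l' e}, {t | ∑ v ∈ e, L t v < 0}
  have hopen : ∀ e : Finset S, IsOpen {t : ℝ | ∑ v ∈ e, L t v < 0} := by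
    intro e
    simp only [hLsum]
    exact isOpen_lt (by fun_prop) continuous_const
  have hA : IsOpen A := isOpen_biUnion fun e _ => hopen e
  have hB : IsOpen B := isOpen_biUnion fun e _ => hopen e
  have hcov0 : ∀ t ∈ Set.Icc (0 : ℝ) 1, ∀ e, HS r (L t) e → HS r l e ∨ HS r l' e := by
    intro t ht e he
    by_contra hno
    push Not at hno
    have h1 : 0 ≤ ∑ v ∈ e, l v := by
      by_contra h; exact hno.1 ⟨he.1, not_le.mp h⟩
    have h2 : 0 ≤ ∑ v ∈ e, l' v := by
      by_contra h; exact hno.2 ⟨he.1, not_le.mp h⟩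
    have h3 := he.2
    rw [hLsum] at h3
    have h4 := mul_nonneg (sub_nonneg.mpr ht.2) h1
    have h5 := mul_nonneg ht.1 h2
    linarith
  have hcov : Set.Icc (0 : ℝ) 1 ⊆ A ∪ B := by
    intro t ht
    have hneg : ∑ v, L t v < 0 := by
      rw [hLsum]
      rcases eq_or_lt_of_le ht.1 with h | h
      · rw [← h]; linarith
      · have h1 := mul_nonneg (sub_nonneg.mpr ht.2) (neg_nonneg.mpr hl.le)
        have h2 := mul_pos h (neg_pos.mpr hl')
        linarith
    obtain ⟨e, he⟩ := hs_nonempty r hr hS (L t) hneg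
    rcases hcov0 t ht e he with h | h
    · left; exact Set.mem_biUnion h he.2
    · right; exact Set.mem_biUnion h he.2
  obtain ⟨e₀, he₀⟩ := hs_nonempty r hr hS l hl
  obtain ⟨f₀, hf₀⟩ := hs_nonempty r hr hS l' hl'
  have h0 : (Set.Icc (0 : ℝ) 1 ∩ A).Nonempty :=
    ⟨0, by simp, Set.mem_biUnion he₀ (by simp only [Set.mem_ofPred_eq, hLsum]; linarith [he₀.2])⟩
  have h1 : (Set.Icc (0 : ℝ) 1 ∩ B).Nonempty :=
    ⟨1, by simp, Set.mem_biUnion hf₀ (by simp only [Set.mem_ofPred_eq, hLsum]; linarith [hf₀.2])⟩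
  obtain ⟨t, ht, htA, htB⟩ := isPreconnected_Icc A B hA hB hcov h0 h1
  obtain ⟨e, he, het⟩ := Set.mem_iUnion₂.mp htA
  obtain ⟨f, hf, hft⟩ := Set.mem_iUnion₂.mp htB
  have hpath := hs_connected r (L t) (e := e) (f := f) ⟨he.1, het⟩ ⟨hf.1, hft⟩
  -- a path from `HS l` to `HS l'` inside the union
  have hne : ¬ HS r l' e := fun h => (hcon e e he h).1 rfl
  obtain ⟨d, f', _, hd, hdf, hf'⟩ := first_entry hpath hne hf
  have hdl : HS r l d := by
    rcases hcov0 t ht d hdf.2.1 with h | h
    · exact h
    · exact absurd h hd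
  exact (hcon d f' hdl hf').2 hdf.1

open Classical in
/-- The crossing indicator of the pair of components of `e` and `f`. -/
noncomputable def chi (c : Finset S → Bool) (r : ℕ) (e f a b : Finset S) : ZMod 2 :=
  if (Conn c r e a ∧ Conn c r f b) ∨ (Conn c r f a ∧ Conn c r e b) then 1 else 0

lemma chi_symm (c : Finset S → Bool) (r : ℕ) (e f a b : Finset S) :
    chi c r e f a b = chi c r e f b a := by
  unfold chi
  congr 1
  apply propext
  tauto

lemma conn_iff_of_step {c : Finset S → Bool} {r : ℕ} {a b : Finset S} (h : JAdj r a b)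
    (hc : c a = c b) (e : Finset S) : Conn c r e a ↔ Conn c r e b := by
  constructor
  · intro h'; exact ReflTransGen.tail h' ⟨h, hc⟩
  · intro h'; exact ReflTransGen.tail h' ⟨h.symm, hc.symm⟩

lemma chi_same {c : Finset S → Bool} {r : ℕ} {e f a b : Finset S} (hef : c e ≠ c f)
    (hc : c a = c b) : chi c r e f a b = 0 := by
  unfold chi
  rw [if_neg]
  rintro (⟨h1, h2⟩ | ⟨h1, h2⟩)
  · exact hef (by rw [h1.color, h2.color, hc])
  · exact hef (by rw [h1.color, h2.color, hc])

lemma chi_congr {c : Finset S → Bool} {r : ℕ} {e f a b d : Finset S} (h : JAdj r a b)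
    (hc : c a = c b) : chi c r e f a d = chi c r e f b d := by
  unfold chi
  rw [conn_iff_of_step h hc e, conn_iff_of_step h hc f]

lemma exists_pot {c : Finset S → Bool} {r : ℕ} {e f : Finset S} (hef : c e ≠ c f) :
    ∃ φ : Finset S → ZMod 2, ∀ a b, JAdj r a b → φ a + φ b = chi c r e f a b := by
  obtain ⟨φ, hφ⟩ := exists_potential r (univ : Finset S) (chi c r e f) (chi_symm c r e f) (by
    intro a b d _ _ _ hab hbd had
    have two : ∀ x : ZMod 2, x + x = 0 := CharTwo.add_self_eq_zero
    have key : c a = c b ∨ c b = c d ∨ c a = c d := by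
      cases c a <;> cases c b <;> cases c d <;> simp
    rcases key with h | h | h
    · rw [chi_same hef h, chi_congr (d := d) hab h, zero_add, two]
    · rw [chi_same hef h, chi_symm c r e f a b, chi_congr (d := a) hbd h,
        chi_symm c r e f d a, add_zero, two]
    · rw [chi_same hef h, chi_congr (d := b) had h, chi_symm c r e f d b, add_zero, two])
  exact ⟨φ, fun a b h => hφ a b (subset_univ _) (subset_univ _) h⟩

/-- A potential is constant along steps that avoid the component of `f`. -/
lemma pot_step {c : Finset S → Bool} {r : ℕ} {e f : Finset S} {φ : Finset S → ZMod 2}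
    (hφ : ∀ a b, JAdj r a b → φ a + φ b = chi c r e f a b) {a b : Finset S} (h : JAdj r a b)
    (ha : ¬ Conn c r f a) (hb : ¬ Conn c r f b) : φ a = φ b := by
  have h1 := hφ a b h
  have h2 : chi c r e f a b = 0 := by
    unfold chi
    rw [if_neg]
    rintro (⟨_, h2⟩ | ⟨h1, _⟩)
    · exact hb h2
    · exact ha h1
  rw [h2] at h1
  have two : φ b + φ b = 0 := CharTwo.add_self_eq_zero _
  linear_combination h1 - two

lemma pot_conn {c : Finset S → Bool} {r : ℕ} {e f : Finset S} (hef : c e ≠ c f)
    {φ : Finset S → ZMod 2}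
    (hφ : ∀ a b, JAdj r a b → φ a + φ b = chi c r e f a b) {a b : Finset S}
    (h : Conn c r a b) : φ a = φ b := by
  induction h with
  | refl => rfl
  | @tail b d _ hbd ih =>
    rw [ih]
    have h1 := hφ b d hbd.1
    rw [chi_same hef hbd.2] at h1
    have two : φ d + φ d = 0 := CharTwo.add_self_eq_zero _
    linear_combination h1 - two

lemma chi_comm (c : Finset S → Bool) (r : ℕ) (e f a b : Finset S) :
    chi c r e f a b = chi c r f e a b := by
  unfold chi
  congr 1
  apply propext
  tauto

lemma zmod2_cases {x y z : ZMod 2} (h : x ≠ y) : z = x ∨ z = y := by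
  revert x y z; decide

lemma pot_ne {c : Finset S → Bool} {r : ℕ} {e f : Finset S}
    {φ : Finset S → ZMod 2} (hef : JAdj r e f)
    (hφ : ∀ a b, JAdj r a b → φ a + φ b = chi c r e f a b) : φ e ≠ φ f := by
  intro h
  have h1 := hφ e f hef
  have h2 : chi c r e f e f = 1 := by
    unfold chi
    rw [if_pos (Or.inl ⟨ReflTransGen.refl, ReflTransGen.refl⟩)]
  rw [h2, h, CharTwo.add_self_eq_zero] at h1
  exact absurd h1 (by decide)

/-- `HS r l` avoids the components of `e` and of `f`. -/
def Avoids (c : Finset S → Bool) (r : ℕ) (l : S → ℝ) (e : Finset S) : Prop :=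
  ∀ g, Conn c r e g → ¬ HS r l g

/-- An oriented pair: the half space of `l` lies on the side of `f`. -/
def Oriented (c : Finset S → Bool) (r : ℕ) (e f : Finset S) (φ : Finset S → ZMod 2)
    (l : S → ℝ) : Prop :=
  JAdj r e f ∧ c e ≠ c f ∧ (∀ a b, JAdj r a b → φ a + φ b = chi c r e f a b) ∧
    ∑ v, l v < 0 ∧ Avoids c r l e ∧ Avoids c r l f ∧ ∀ g, HS r l g → φ g = φ f

open Classical in
noncomputable def side (r : ℕ) (φ : Finset S → ZMod 2) (f : Finset S) : Finset (Finset S) :=
  (powersetCard r univ).filter fun g => φ g = φ f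

lemma hs_const {c : Finset S → Bool} {r : ℕ} {e f : Finset S} {φ : Finset S → ZMod 2}
    (hφ : ∀ a b, JAdj r a b → φ a + φ b = chi c r e f a b) {l : S → ℝ}
    (hav : Avoids c r l f) {a b : Finset S} (ha : HS r l a) (hb : HS r l b) : φ a = φ b := by
  have h := hs_connected r l ha hb
  clear hb
  induction h with
  | refl => rfl
  | tail _ hbd ih =>
    rw [ih]
    exact pot_step hφ hbd.1 (fun h => hav _ h hbd.2.1) (fun h => hav _ h hbd.2.2)

lemma rtg_const {α β : Type*} {R : α → α → Prop} {φ : α → β} (h : ∀ a b, R a b → φ a = φ b)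
    {a b : α} (hab : ReflTransGen R a b) : φ a = φ b := by
  induction hab with
  | refl => rfl
  | tail _ hbd ih => rw [ih, h _ _ hbd]

/-- **The fractional theorem in dual form.** -/
theorem tree_lemma (r : ℕ) (hr : 1 ≤ r)
    (hS : r ≤ Fintype.card S) (c : Finset S → Bool) :
    ∃ e f : Finset S, e.card = r ∧ f.card = r ∧ (e = f ∨ c e ≠ c f) ∧
      ∀ l : S → ℝ, ∑ v, l v < 0 →
        ∃ g : Finset S, (Conn c r e g ∨ Conn c r f g) ∧ ∑ v ∈ g, l v < 0 := by
  classical
  by_contra hcon
  push Not at hcon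
  -- every pair has an avoiding functional
  have hl : ∀ e f : Finset S, e.card = r → f.card = r → (e = f ∨ c e ≠ c f) →
      ∃ l : S → ℝ, ∑ v, l v < 0 ∧ Avoids c r l e ∧ Avoids c r l f := by
    intro e f he hf hef
    obtain ⟨l, hl1, hl2⟩ := hcon e f he hf hef
    exact ⟨l, hl1, fun g hg hg' => absurd hg'.2 (not_lt.mpr (hl2 g (Or.inl hg))),
      fun g hg hg' => absurd hg'.2 (not_lt.mpr (hl2 g (Or.inr hg)))⟩
  -- orientation of every bichromatic pair
  have horient : ∀ e f : Finset S, JAdj r e f → c e ≠ c f → ∀ φ : Finset S → ZMod 2,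
      (∀ a b, JAdj r a b → φ a + φ b = chi c r e f a b) →
      (∃ l, Oriented c r e f φ l) ∨ (∃ l, Oriented c r f e φ l) := by
    intro e f hadj hef φ hφ
    obtain ⟨l, hl1, hl2, hl3⟩ := hl e f hadj.1 hadj.2.1 (Or.inr hef)
    obtain ⟨h, hh⟩ := hs_nonempty r hr hS l hl1
    rcases zmod2_cases (z := φ h) (pot_ne hadj hφ) with hφh | hφh
    · right
      refine ⟨l, hadj.symm, hef.symm, ?_, hl1, hl3, hl2, ?_⟩
      · intro a b hab
        rw [hφ a b hab, chi_comm]
      · intro g hg
        rw [hs_const hφ hl3 hg hh, hφh]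
    · left
      refine ⟨l, hadj, hef, hφ, hl1, hl2, hl3, ?_⟩
      intro g hg
      rw [hs_const hφ hl3 hg hh, hφh]
  by_cases hbi : ∃ e f : Finset S, JAdj r e f ∧ c e ≠ c f
  · -- take an oriented pair with smallest side
    have hex : ∃ n : ℕ, ∃ e f φ l, Oriented c r e f φ l ∧ (side r φ f).card = n := by
      obtain ⟨e, f, hadj, hef⟩ := hbi
      obtain ⟨φ, hφ⟩ := exists_pot (r := r) hef
      rcases horient e f hadj hef φ hφ with ⟨l, h⟩ | ⟨l, h⟩
      · exact ⟨_, e, f, φ, l, h, rfl⟩
      · exact ⟨_, f, e, φ, l, h, rfl⟩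
    obtain ⟨e, f, φ, l, hor, hcard⟩ := Nat.find_spec hex
    have hmin : ∀ e' f' φ' l', Oriented c r e' f' φ' l' →
        Nat.find hex ≤ (side r φ' f').card := fun e' f' φ' l' h =>
      Nat.find_le ⟨e', f', φ', l', h, rfl⟩
    obtain ⟨hadj, hef, hφ, hl1, hl2, hl3, hl4⟩ := hor
    obtain ⟨h, hh⟩ := hs_nonempty r hr hS l hl1
    have hnf : ¬ Conn c r f h := fun h' => hl3 _ h' hh
    obtain ⟨d, f', hpath, hd, hdf, hf'⟩ := first_entry (P := fun g => Conn c r f g)
      (j_connected r hh.1 hadj.2.1) hnf ReflTransGen.refl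
    -- colours
    have hcd : c f' ≠ c d := by
      intro h'
      exact hd ((conn_iff_of_step hdf h'.symm f).mpr hf')
    have hpd : φ d = φ f := by
      rw [← hl4 h hh]
      exact (rtg_const (fun a b hab => pot_step hφ hab.1 hab.2.1 hab.2.2) hpath).symm
    obtain ⟨ψ, hψ⟩ := exists_pot (r := r) hcd
    have hψ' : ∀ a b, JAdj r a b → ψ a + ψ b = chi c r d f' a b := fun a b hab => by
      rw [hψ a b hab, chi_comm]
    have hconn_ff' : ∀ g, Conn c r f' g ↔ Conn c r f g := fun g =>
      ⟨fun h => hf'.trans h, fun h => hf'.symm.trans h⟩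
    -- `ψ` is constant off the component of `f`
    have hψstep : ∀ a b, JAdj r a b → ¬ Conn c r f a → ¬ Conn c r f b → ψ a = ψ b := by
      intro a b hab ha hb
      exact pot_step hψ' hab (fun h => ha ((hconn_ff' _).mp h)) (fun h => hb ((hconn_ff' _).mp h))
    have hψh : ψ h = ψ d := rtg_const (fun a b hab => hψstep a b hab.1 hab.2.1 hab.2.2) hpath
    have hne : ψ f' ≠ ψ d := pot_ne hdf.symm hψ
    rcases horient f' d hdf.symm hcd ψ hψ with ⟨l', hor'⟩ | ⟨l', hor'⟩
    · -- the pair `(f', d)` has a smaller side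
      have h1 := hmin _ _ _ _ hor'
      rw [← hcard] at h1
      have hss : side r ψ d ⊂ side r φ f := by
        rw [ssubset_iff_of_subset]
        · refine ⟨f, ?_, ?_⟩
          · simp only [side, mem_filter, mem_powersetCard]
            exact ⟨⟨subset_univ _, hadj.2.1⟩, trivial⟩
          · simp only [side, mem_filter, mem_powersetCard]
            rintro ⟨_, h2⟩
            rw [pot_conn hcd hψ hf'] at h2
            exact hne h2
        · intro g hg
          simp only [side, mem_filter, mem_powersetCard] at hg ⊢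
          refine ⟨hg.1, ?_⟩
          have hgf : ¬ Conn c r f g := by
            intro h2
            apply hne
            rw [← hg.2]
            exact pot_conn hcd hψ (hf'.symm.trans h2)
          obtain ⟨d', f'', hp2, hd', hdf'', hf''⟩ := first_entry (P := fun g => Conn c r f g)
            (j_connected r hg.1.2 hadj.2.1) hgf ReflTransGen.refl
          have h3 : ψ g = ψ d' :=
            rtg_const (fun a b hab => hψstep a b hab.1 hab.2.1 hab.2.2) hp2
          have h4 : φ g = φ d' :=
            rtg_const (fun a b hab => pot_step hφ hab.1 hab.2.1 hab.2.2) hp2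
          have h5 : ψ f'' = ψ f' := by
            rw [← pot_conn hcd hψ hf'', pot_conn hcd hψ hf']
          have h6 : Conn c r d d' := by
            by_contra h7
            have h8 := hψ d' f'' hdf''
            have h9 : chi c r f' d d' f'' = 0 := by
              unfold chi
              rw [if_neg]
              rintro (⟨h10, _⟩ | ⟨h10, _⟩)
              · exact hd' ((hconn_ff' _).mp h10)
              · exact h7 h10
            rw [h9] at h8
            have two : ψ f'' + ψ f'' = 0 := CharTwo.add_self_eq_zero _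
            have h10 : ψ d' = ψ f'' := by linear_combination h8 - two
            apply hne
            rw [← h5, ← h10, ← h3, hg.2]
          rw [h4, ← pot_conn hef hφ h6, hpd]
      exact absurd (card_lt_card hss) (not_lt.mpr h1)
    · -- the half spaces of `l` and `l'` do not touch
      obtain ⟨_, _, _, hl1', hl2', hl3', hl4'⟩ := hor'
      obtain ⟨a, b, ha, hb, hab⟩ := hs_touch r hr hS l l' hl1 hl1'
      have ha1 : ψ a = ψ d := by
        rw [← hψh]
        refine hs_const hψ' ?_ ha hh
        intro g hg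
        exact hl3 g ((hconn_ff' _).mp hg)
      have hb1 : ψ b = ψ f' := hl4' b hb
      rcases hab with rfl | hab
      · exact hne (by rw [← hb1, ha1])
      · have h2 := hψstep a b hab (fun h => hl3 _ h ha)
          (fun h => hl3' _ ((hconn_ff' _).mpr h) hb)
        exact hne (by rw [← hb1, ← h2, ha1])
  · -- only one component
    push Not at hbi
    obtain ⟨m, hm, _, _⟩ := exists_min_set r hS (fun _ : S => (0 : ℝ))
    obtain ⟨l, hl1, hl2, _⟩ := hl m m hm hm (Or.inl rfl)
    obtain ⟨h, hh⟩ := hs_nonempty r hr hS l hl1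
    refine hl2 h ?_ hh
    exact rtg_mono (fun a b hab => ⟨hab, hbi a b hab⟩) (j_connected r hm hh.1)

end

end Pool.Agent.Lib.MP_952639_co
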