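import Pool.Agent.Lib.MP_952639_co.Tree

/-!
# The fractional theorem in dual form, with weights
-/

namespace Pool.Agent.Lib.MP_952639_co

open Finset Relation

set_option linter.unusedSectionVars false

section

variable {S : Type*} [Fintype S] [DecidableEq S]

lemma hs_nonempty_w (r : ℕ) (hr : 1 ≤ r) (hS : r ≤ Fintype.card S) (w : S → ℝ)
    (hw0 : ∀ v, 0 ≤ w v) (hw : ∀ v, (r : ℝ) * w v ≤ ∑ u, w u) (l : S → ℝ)
    (hl : ∑ v, w v * l v < 0) : ∃ e, HS r l e := by
  obtain ⟨m, hm, _, h2⟩ := exists_min_set r hS l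
  have hr0 : (0 : ℝ) < r := by exact_mod_cast hr
  refine ⟨m, hm, ?_⟩
  by_contra hcon
  push Not at hcon
  have hne : m.Nonempty := by rw [← card_pos, hm]; omega
  obtain ⟨y, hy, hymax⟩ := exists_max_image m l hne
  set W : ℝ := ∑ u, w u with hW
  have hW0 : 0 ≤ W := sum_nonneg fun v _ => hw0 v
  have h3 : ∑ v ∈ mᶜ, w v * l y ≤ ∑ v ∈ mᶜ, w v * l v := sum_le_sum fun x hx =>
    mul_le_mul_of_nonneg_left (h2 y hy x (mem_compl.mp hx)) (hw0 x)
  have h4 : ∑ v ∈ m, (W / r - w v) * l v ≤ ∑ v ∈ m, (W / r - w v) * l y :=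
    sum_le_sum fun x hx => mul_le_mul_of_nonneg_left (hymax x hx) (by
      rw [sub_nonneg, le_div_iff₀ hr0]; linarith [hw x])
  have h5 : ∑ v ∈ m, w v * l v + ∑ v ∈ mᶜ, w v * l v = ∑ v, w v * l v :=
    sum_add_sum_compl m _
  have h6 : ∑ v ∈ m, w v + ∑ v ∈ mᶜ, w v = W := sum_add_sum_compl m _
  have h7 : ∑ v ∈ m, (W / r - w v) * l v = W / r * ∑ v ∈ m, l v - ∑ v ∈ m, w v * l v := by
    rw [mul_sum, ← sum_sub_distrib]
    exact sum_congr rfl fun v _ => by ring
  have h8 : ∑ v ∈ m, (W / r - w v) * l y = (W - ∑ v ∈ m, w v) * l y := by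
    rw [← sum_mul, sum_sub_distrib, sum_const, hm, nsmul_eq_mul]
    congr 2
    field_simp
  have h9 : ∑ v ∈ mᶜ, w v * l y = (∑ v ∈ mᶜ, w v) * l y := by rw [sum_mul]
  have h10 : 0 ≤ W / r * ∑ v ∈ m, l v := by positivity
  have h11 : (∑ v ∈ mᶜ, w v) = W - ∑ v ∈ m, w v := by linarith
  rw [h9, h11] at h3
  rw [h7, h8] at h4
  linarith

/-- Interpolation: two half spaces touch. -/
lemma hs_touch_w (r : ℕ) (hr : 1 ≤ r) (hS : r ≤ Fintype.card S) (w : S → ℝ) (hw0 : ∀ v, 0 ≤ w v)
    (hw : ∀ v, (r : ℝ) * w v ≤ ∑ u, w u) (l l' : S → ℝ)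
    (hl : ∑ v, w v * l v < 0) (hl' : ∑ v, w v * l' v < 0) :
    ∃ e f, HS r l e ∧ HS r l' f ∧ (e = f ∨ JAdj r e f) := by
  classical
  by_contra hcon
  push Not at hcon
  let L : ℝ → S → ℝ := fun t v => (1 - t) * l v + t * l' v
  have hLsum : ∀ t (g : Finset S), ∑ v ∈ g, L t v = (1 - t) * ∑ v ∈ g, l v + t * ∑ v ∈ g, l' v := by
    intro t g
    simp only [L, sum_add_distrib, mul_sum]
  let A : Set ℝ := ⋃ e ∈ {e : Finset S | HS r l e}, {t | ∑ v ∈ e, L t v < 0}
  let B : Set ℝ := ⋃ e ∈ {e : Finset S | HS r l' e}, {t | ∑ v ∈ e, L t v < 0}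
  have hopen : ∀ e : Finset S, IsOpen {t : ℝ | ∑ v ∈ e, L t v < 0} := by
    intro e
    simp only [hLsum]
    exact isOpen_lt (by fun_prop) continuous_const
  have hA : IsOpen A := isOpen_biUnion fun e _ => hopen e
  have hB : IsOpen B := isOpen_biUnion fun e _ => hopen e
  have hcov0 : ∀ t ∈ Set.Icc (0 : ℝ) 1, ∀ e, HS r (L t) e → HS r l e ∨ HS r l' e := by
    intro t ht e he
    by_contra hno
    push Not at hno
    have h1 : 0 ≤ ∑ v ∈ e, l v := by
      by_contra h; exact hno.1 ⟨he.1, not_le.mp h⟩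
    have h2 : 0 ≤ ∑ v ∈ e, l' v := by
      by_contra h; exact hno.2 ⟨he.1, not_le.mp h⟩
    have h3 := he.2
    rw [hLsum] at h3
    have h4 := mul_nonneg (sub_nonneg.mpr ht.2) h1
    have h5 := mul_nonneg ht.1 h2
    linarith
  have hcov : Set.Icc (0 : ℝ) 1 ⊆ A ∪ B := by
    intro t ht
    have hneg : ∑ v, w v * L t v < 0 := by
      have hLw : ∑ v, w v * L t v = (1 - t) * ∑ v, w v * l v + t * ∑ v, w v * l' v := by
        simp only [L, mul_sum, ← sum_add_distrib]
        exact sum_congr rfl fun v _ => by ring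
      rw [hLw]
      rcases eq_or_lt_of_le ht.1 with h | h
      · rw [← h]; linarith
      · have h1 := mul_nonneg (sub_nonneg.mpr ht.2) (neg_nonneg.mpr hl.le)
        have h2 := mul_pos h (neg_pos.mpr hl')
        linarith
    obtain ⟨e, he⟩ := hs_nonempty_w r hr hS w hw0 hw (L t) hneg
    rcases hcov0 t ht e he with h | h
    · left; exact Set.mem_biUnion h he.2
    · right; exact Set.mem_biUnion h he.2
  obtain ⟨e₀, he₀⟩ := hs_nonempty_w r hr hS w hw0 hw l hl
  obtain ⟨f₀, hf₀⟩ := hs_nonempty_w r hr hS w hw0 hw l' hl'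
  have h0 : (Set.Icc (0 : ℝ) 1 ∩ A).Nonempty :=
    ⟨0, by simp, Set.mem_biUnion he₀ (by simp only [Set.mem_ofPred_eq, hLsum]; linarith [he₀.2])⟩
  have h1 : (Set.Icc (0 : ℝ) 1 ∩ B).Nonempty :=
    ⟨1, by simp, Set.mem_biUnion hf₀ (by simp only [Set.mem_ofPred_eq, hLsum]; linarith [hf₀.2])⟩
  obtain ⟨t, ht, htA, htB⟩ := isPreconnected_Icc A B hA hB hcov h0 h1
  obtain ⟨e, he, het⟩ := Set.mem_iUnion₂.mp htA
  obtain ⟨f, hf, hft⟩ := Set.mem_iUnion₂.mp htB
  have hpath := hs_connected r (L t) (e := e) (f := f) ⟨he.1, het⟩ ⟨hf.1, hft⟩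
  -- a path from `HS l` to `HS l'` inside the union
  have hne : ¬ HS r l' e := fun h => (hcon e e he h).1 rfl
  obtain ⟨d, f', _, hd, hdf, hf'⟩ := first_entry hpath hne hf
  have hdl : HS r l d := by
    rcases hcov0 t ht d hdf.2.1 with h | h
    · exact h
    · exact absurd h hd
  exact (hcon d f' hdl hf').2 hdf.1

/-- An oriented pair: the half space of `l` lies on the side of `f`. -/
def OrientedW (w : S → ℝ) (c : Finset S → Bool) (r : ℕ) (e f : Finset S) (φ : Finset S → ZMod 2)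
    (l : S → ℝ) : Prop :=
  JAdj r e f ∧ c e ≠ c f ∧ (∀ a b, JAdj r a b → φ a + φ b = chi c r e f a b) ∧
    ∑ v, w v * l v < 0 ∧ Avoids c r l e ∧ Avoids c r l f ∧ ∀ g, HS r l g → φ g = φ f


/-- **The fractional theorem in dual form.** -/
theorem tree_lemma_w (r : ℕ) (hr : 1 ≤ r)
    (hS : r ≤ Fintype.card S) (w : S → ℝ) (hw0 : ∀ v, 0 ≤ w v)
    (hw : ∀ v, (r : ℝ) * w v ≤ ∑ u, w u) (c : Finset S → Bool) :
    ∃ e f : Finset S, e.card = r ∧ f.card = r ∧ (e = f ∨ (JAdj r e f ∧ c e ≠ c f)) ∧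
      ∀ l : S → ℝ, ∑ v, w v * l v < 0 →
        ∃ g : Finset S, (Conn c r e g ∨ Conn c r f g) ∧ ∑ v ∈ g, l v < 0 := by
  classical
  by_contra hcon
  push Not at hcon
  -- every pair has an avoiding functional
  have hl : ∀ e f : Finset S, e.card = r → f.card = r → (e = f ∨ (JAdj r e f ∧ c e ≠ c f)) →
      ∃ l : S → ℝ, ∑ v, w v * l v < 0 ∧ Avoids c r l e ∧ Avoids c r l f := by
    intro e f he hf hef
    obtain ⟨l, hl1, hl2⟩ := hcon e f he hf hef
    exact ⟨l, hl1, fun g hg hg' => absurd hg'.2 (not_lt.mpr (hl2 g (Or.inl hg))),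
      fun g hg hg' => absurd hg'.2 (not_lt.mpr (hl2 g (Or.inr hg)))⟩
  -- orientation of every bichromatic pair
  have horient : ∀ e f : Finset S, JAdj r e f → c e ≠ c f → ∀ φ : Finset S → ZMod 2,
      (∀ a b, JAdj r a b → φ a + φ b = chi c r e f a b) →
      (∃ l, OrientedW w c r e f φ l) ∨ (∃ l, OrientedW w c r f e φ l) := by
    intro e f hadj hef φ hφ
    obtain ⟨l, hl1, hl2, hl3⟩ := hl e f hadj.1 hadj.2.1 (Or.inr ⟨hadj, hef⟩)
    obtain ⟨h, hh⟩ := hs_nonempty_w r hr hS w hw0 hw l hl1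
    rcases zmod2_cases (z := φ h) (pot_ne hadj hφ) with hφh | hφh
    · right
      refine ⟨l, hadj.symm, hef.symm, ?_, hl1, hl3, hl2, ?_⟩
      · intro a b hab
        rw [hφ a b hab, chi_comm]
      · intro g hg
        rw [hs_const hφ hl3 hg hh, hφh]
    · left
      refine ⟨l, hadj, hef, hφ, hl1, hl2, hl3, ?_⟩
      intro g hg
      rw [hs_const hφ hl3 hg hh, hφh]
  by_cases hbi : ∃ e f : Finset S, JAdj r e f ∧ c e ≠ c f
  · -- take an oriented pair with smallest side
    have hex : ∃ n : ℕ, ∃ e f φ l, OrientedW w c r e f φ l ∧ (side r φ f).card = n := by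
      obtain ⟨e, f, hadj, hef⟩ := hbi
      obtain ⟨φ, hφ⟩ := exists_pot (r := r) hef
      rcases horient e f hadj hef φ hφ with ⟨l, h⟩ | ⟨l, h⟩
      · exact ⟨_, e, f, φ, l, h, rfl⟩
      · exact ⟨_, f, e, φ, l, h, rfl⟩
    obtain ⟨e, f, φ, l, hor, hcard⟩ := Nat.find_spec hex
    have hmin : ∀ e' f' φ' l', OrientedW w c r e' f' φ' l' →
        Nat.find hex ≤ (side r φ' f').card := fun e' f' φ' l' h =>
      Nat.find_le ⟨e', f', φ', l', h, rfl⟩
    obtain ⟨hadj, hef, hφ, hl1, hl2, hl3, hl4⟩ := hor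
    obtain ⟨h, hh⟩ := hs_nonempty_w r hr hS w hw0 hw l hl1
    have hnf : ¬ Conn c r f h := fun h' => hl3 _ h' hh
    obtain ⟨d, f', hpath, hd, hdf, hf'⟩ := first_entry (P := fun g => Conn c r f g)
      (j_connected r hh.1 hadj.2.1) hnf ReflTransGen.refl
    -- colours
    have hcd : c f' ≠ c d := by
      intro h'
      exact hd ((conn_iff_of_step hdf h'.symm f).mpr hf')
    have hpd : φ d = φ f := by
      rw [← hl4 h hh]
      exact (rtg_const (fun a b hab => pot_step hφ hab.1 hab.2.1 hab.2.2) hpath).symm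
    obtain ⟨ψ, hψ⟩ := exists_pot (r := r) hcd
    have hψ' : ∀ a b, JAdj r a b → ψ a + ψ b = chi c r d f' a b := fun a b hab => by
      rw [hψ a b hab, chi_comm]
    have hconn_ff' : ∀ g, Conn c r f' g ↔ Conn c r f g := fun g =>
      ⟨fun h => hf'.trans h, fun h => hf'.symm.trans h⟩
    -- `ψ` is constant off the component of `f`
    have hψstep : ∀ a b, JAdj r a b → ¬ Conn c r f a → ¬ Conn c r f b → ψ a = ψ b := by
      intro a b hab ha hb
      exact pot_step hψ' hab (fun h => ha ((hconn_ff' _).mp h)) (fun h => hb ((hconn_ff' _).mp h))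
    have hψh : ψ h = ψ d := rtg_const (fun a b hab => hψstep a b hab.1 hab.2.1 hab.2.2) hpath
    have hne : ψ f' ≠ ψ d := pot_ne hdf.symm hψ
    rcases horient f' d hdf.symm hcd ψ hψ with ⟨l', hor'⟩ | ⟨l', hor'⟩
    · -- the pair `(f', d)` has a smaller side
      have h1 := hmin _ _ _ _ hor'
      rw [← hcard] at h1
      have hss : side r ψ d ⊂ side r φ f := by
        rw [ssubset_iff_of_subset]
        · refine ⟨f, ?_, ?_⟩
          · simp only [side, mem_filter, mem_powersetCard]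
            exact ⟨⟨subset_univ _, hadj.2.1⟩, trivial⟩
          · simp only [side, mem_filter, mem_powersetCard]
            rintro ⟨_, h2⟩
            rw [pot_conn hcd hψ hf'] at h2
            exact hne h2
        · intro g hg
          simp only [side, mem_filter, mem_powersetCard] at hg ⊢
          refine ⟨hg.1, ?_⟩
          have hgf : ¬ Conn c r f g := by
            intro h2
            apply hne
            rw [← hg.2]
            exact pot_conn hcd hψ (hf'.symm.trans h2)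
          obtain ⟨d', f'', hp2, hd', hdf'', hf''⟩ := first_entry (P := fun g => Conn c r f g)
            (j_connected r hg.1.2 hadj.2.1) hgf ReflTransGen.refl
          have h3 : ψ g = ψ d' :=
            rtg_const (fun a b hab => hψstep a b hab.1 hab.2.1 hab.2.2) hp2
          have h4 : φ g = φ d' :=
            rtg_const (fun a b hab => pot_step hφ hab.1 hab.2.1 hab.2.2) hp2
          have h5 : ψ f'' = ψ f' := by
            rw [← pot_conn hcd hψ hf'', pot_conn hcd hψ hf']
          have h6 : Conn c r d d' := by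
            by_contra h7
            have h8 := hψ d' f'' hdf''
            have h9 : chi c r f' d d' f'' = 0 := by
              unfold chi
              rw [if_neg]
              rintro (⟨h10, _⟩ | ⟨h10, _⟩)
              · exact hd' ((hconn_ff' _).mp h10)
              · exact h7 h10
            rw [h9] at h8
            have two : ψ f'' + ψ f'' = 0 := CharTwo.add_self_eq_zero _
            have h10 : ψ d' = ψ f'' := by linear_combination h8 - two
            apply hne
            rw [← h5, ← h10, ← h3, hg.2]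
          rw [h4, ← pot_conn hef hφ h6, hpd]
      exact absurd (card_lt_card hss) (not_lt.mpr h1)
    · -- the half spaces of `l` and `l'` do not touch
      obtain ⟨_, _, _, hl1', hl2', hl3', hl4'⟩ := hor'
      obtain ⟨a, b, ha, hb, hab⟩ := hs_touch_w r hr hS w hw0 hw l l' hl1 hl1'
      have ha1 : ψ a = ψ d := by
        rw [← hψh]
        refine hs_const hψ' ?_ ha hh
        intro g hg
        exact hl3 g ((hconn_ff' _).mp hg)
      have hb1 : ψ b = ψ f' := hl4' b hb
      rcases hab with rfl | hab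
      · exact hne (by rw [← hb1, ha1])
      · have h2 := hψstep a b hab (fun h => hl3 _ h ha)
          (fun h => hl3' _ ((hconn_ff' _).mpr h) hb)
        exact hne (by rw [← hb1, ← h2, ha1])
  · -- only one component
    push Not at hbi
    obtain ⟨m, hm, _, _⟩ := exists_min_set r hS (fun _ : S => (0 : ℝ))
    obtain ⟨l, hl1, hl2, _⟩ := hl m m hm hm (Or.inl rfl)
    obtain ⟨h, hh⟩ := hs_nonempty_w r hr hS w hw0 hw l hl1
    refine hl2 h ?_ hh
    exact rtg_mono (fun a b hab => ⟨hab, hbi a b hab⟩) (j_connected r hm hh.1)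

end

end Pool.Agent.Lib.MP_952639_co
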